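import Mathlib

/-!
# Laplace transforms of `sech` and its derivatives
-/

open MeasureTheory Set Filter Topology Complex

namespace Pool.Agent.E8helper52.OR

/-- `sech` -/
noncomputable def h (b : ℝ) : ℝ := (Real.cosh b)⁻¹

/-- `tanh` -/
noncomputable def T (b : ℝ) : ℝ := Real.tanh b

lemma cosh_ne (b : ℝ) : Real.cosh b ≠ 0 := (Real.cosh_pos b).ne'

lemma h_pos (b : ℝ) : 0 < h b := inv_pos.2 (Real.cosh_pos b)

lemma h_le_one (b : ℝ) : h b ≤ 1 := inv_le_one_of_one_le₀ (Real.one_le_cosh b)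

lemma T_eq (b : ℝ) : T b = Real.sinh b / Real.cosh b := Real.tanh_eq_sinh_div_cosh b

lemma T_sq_add (b : ℝ) : T b ^ 2 + h b ^ 2 = 1 := by
  rw [T_eq, h]
  have := Real.cosh_sq b
  have h0 := cosh_ne b
  field_simp
  linarith

lemma abs_T_lt (b : ℝ) : |T b| < 1 := Real.abs_tanh_lt_one b

lemma T_zero : T 0 = 0 := Real.tanh_zero

lemma h_zero : h 0 = 1 := by simp [h]

lemma h_neg (b : ℝ) : h (-b) = h b := by simp [h]

lemma T_neg (b : ℝ) : T (-b) = - T b := by simp [T]

lemma T_pos {b : ℝ} (hb : 0 < b) : 0 < T b := by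
  rw [T_eq]; exact div_pos (Real.sinh_pos_iff.2 hb) (Real.cosh_pos b)

lemma T_nonneg {b : ℝ} (hb : 0 ≤ b) : 0 ≤ T b := by
  rw [T_eq]; exact div_nonneg (Real.sinh_nonneg_iff.2 hb) (Real.cosh_pos b).le

lemma hasDerivAt_T (b : ℝ) : HasDerivAt T (h b ^ 2) b := by
  have h1 := (Real.hasDerivAt_sinh b).div (Real.hasDerivAt_cosh b) (cosh_ne b)
  have h2 : T = fun x => Real.sinh x / Real.cosh x := by
    ext x; exact T_eq x
  rw [h2]
  refine h1.congr_deriv ?_
  rw [h]
  have := Real.cosh_sq b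
  have h0 := cosh_ne b
  field_simp
  linarith

lemma hasDerivAt_h (b : ℝ) : HasDerivAt h (- (h b * T b)) b := by
  have h1 := (Real.hasDerivAt_cosh b).inv (cosh_ne b)
  have h2 : h = fun x => (Real.cosh x)⁻¹ := by
    ext x; rfl
  rw [h2]
  refine h1.congr_deriv ?_
  rw [T_eq]
  have h0 := cosh_ne b
  field_simp

lemma continuous_h : Continuous h := by
  rw [continuous_iff_continuousAt]; exact fun b => (hasDerivAt_h b).continuousAt

lemma continuous_T : Continuous T := by
  rw [continuous_iff_continuousAt]; exact fun b => (hasDerivAt_T b).continuousAt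

lemma h_le_exp (b : ℝ) : h b ≤ 2 * Real.exp (-b) := by
  rw [h, Real.exp_neg, Real.cosh_eq]
  have h1 := Real.exp_pos b
  have h2 := Real.exp_pos (-b)
  rw [inv_le_comm₀ (by positivity) (by positivity)]
  rw [mul_inv, inv_inv]
  linarith

lemma h_ge_exp {b : ℝ} (hb : 0 ≤ b) : Real.exp (-b) ≤ h b := by
  rw [h, Real.exp_neg, Real.cosh_eq]
  have h1 := Real.exp_pos b
  have h2 := Real.exp_pos (-b)
  apply inv_anti₀ (by positivity)
  have : Real.exp (-b) ≤ Real.exp b := Real.exp_le_exp.2 (by linarith)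
  linarith

lemma T_le_self {b : ℝ} (hb : 0 ≤ b) : T b ≤ b := by
  have h1 : MonotoneOn (fun x => x - T x) (Ici (0:ℝ)) := by
    apply monotoneOn_of_deriv_nonneg (convex_Ici 0)
    · exact (continuous_id.sub continuous_T).continuousOn
    · intro x _
      exact ((hasDerivAt_id x).sub (hasDerivAt_T x)).differentiableAt.differentiableWithinAt
    · intro x _
      have h2 : HasDerivAt (fun x => x - T x) (1 - h x ^ 2) x := (hasDerivAt_id x).sub (hasDerivAt_T x)
      rw [h2.deriv]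
      have := T_sq_add x
      nlinarith [sq_nonneg (T x)]
  have := h1 (mem_Ici.2 (le_refl (0:ℝ))) (mem_Ici.2 hb) hb
  simp only [T_zero, sub_zero] at this
  linarith

/-- exponential decay of a continuous function on the half line -/
def Dec (c : ℝ) (f : ℝ → ℝ) : Prop :=
  Continuous f ∧ ∃ C, 0 ≤ C ∧ ∀ b, 0 ≤ b → |f b| ≤ C * Real.exp (-c * b)

/-- Laplace transform -/
noncomputable def L (f : ℝ → ℝ) (s : ℂ) : ℂ := ∫ b in Ioi (0:ℝ), cexp (-s * b) * (f b : ℂ)

lemma Dec.integrableOn {c : ℝ} {f : ℝ → ℝ} (hf : Dec c f) {s : ℂ} (hs : -c < s.re) :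
    IntegrableOn (fun b : ℝ => cexp (-s * b) * (f b : ℂ)) (Ioi 0) := by
  obtain ⟨hc, C, hC, hb⟩ := hf
  have h1 : IntegrableOn (fun b : ℝ => C * Real.exp (-(c + s.re) * b)) (Ioi 0) :=
    (exp_neg_integrableOn_Ioi 0 (by linarith)).const_mul C
  refine h1.mono' ?_ ?_
  · apply Continuous.aestronglyMeasurable
    fun_prop
  · filter_upwards [ae_restrict_mem measurableSet_Ioi] with b hb0
    have hb0' : (0:ℝ) ≤ b := le_of_lt hb0
    rw [norm_mul, Complex.norm_exp, Complex.norm_real, Real.norm_eq_abs]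
    have e1 : (-s * (b:ℂ)).re = - s.re * b := by simp
    rw [e1]
    calc Real.exp (-s.re * b) * |f b| ≤ Real.exp (-s.re * b) * (C * Real.exp (-c * b)) :=
          mul_le_mul_of_nonneg_left (hb b hb0') (Real.exp_pos _).le
      _ = C * (Real.exp (-s.re * b) * Real.exp (-c * b)) := by ring
      _ = C * Real.exp (-(c + s.re) * b) := by rw [← Real.exp_add]; congr 2; ring

lemma Dec.tendsto {c : ℝ} {f : ℝ → ℝ} (hf : Dec c f) {s : ℂ} (hs : -c < s.re) :
    Tendsto (fun b : ℝ => cexp (-s * b) * (f b : ℂ)) atTop (𝓝 0) := by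
  obtain ⟨hc, C, hC, hb⟩ := hf
  have h1 : Tendsto (fun b : ℝ => C * Real.exp (-(c + s.re) * b)) atTop (𝓝 (C * 0)) := by
    apply Tendsto.const_mul
    have h2 : Tendsto (fun b : ℝ => (c + s.re) * b) atTop atTop :=
      tendsto_id.const_mul_atTop (by linarith)
    have h3 := Real.tendsto_exp_neg_atTop_nhds_zero.comp h2
    refine h3.congr (fun b => ?_)
    simp only [Function.comp_apply]
    congr 1; ring
  rw [mul_zero] at h1
  refine squeeze_zero_norm' ?_ h1
  filter_upwards [eventually_ge_atTop 0] with b hb0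
  rw [norm_mul, Complex.norm_exp, Complex.norm_real, Real.norm_eq_abs]
  have e1 : (-s * (b:ℂ)).re = - s.re * b := by simp
  rw [e1]
  calc Real.exp (-s.re * b) * |f b| ≤ Real.exp (-s.re * b) * (C * Real.exp (-c * b)) :=
        mul_le_mul_of_nonneg_left (hb b hb0) (Real.exp_pos _).le
    _ = C * (Real.exp (-s.re * b) * Real.exp (-c * b)) := by ring
    _ = C * Real.exp (-(c + s.re) * b) := by rw [← Real.exp_add]; congr 2; ring

lemma Dec.byparts {c : ℝ} {f f' : ℝ → ℝ} (hf : Dec c f) (hf' : Dec c f')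
    (hd : ∀ b, HasDerivAt f (f' b) b) {s : ℂ} (hs : -c < s.re) :
    s * L f s = f 0 + L f' s := by
  have hder : ∀ b ∈ Ici (0:ℝ), HasDerivAt (fun b : ℝ => cexp (-s * b) * (f b : ℂ))
      (-s * (cexp (-s * b) * (f b : ℂ)) + cexp (-s * b) * (f' b : ℂ)) b := by
    intro b _
    have h1 : HasDerivAt (fun b : ℝ => cexp (-s * b)) (cexp (-s * b) * (-s * 1)) b := by
      have := ((hasDerivAt_id (b:ℂ)).const_mul (-s)).cexp
      exact this.comp_ofReal
    have h2 : HasDerivAt (fun b : ℝ => (f b : ℂ)) (f' b : ℂ) b := (hd b).ofReal_comp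
    have h3 := h1.mul h2
    refine h3.congr_deriv ?_
    ring
  have hint : IntegrableOn (fun b : ℝ => -s * (cexp (-s * b) * (f b : ℂ)) + cexp (-s * b) * (f' b : ℂ)) (Ioi 0) :=
    ((hf.integrableOn hs).const_mul (-s)).add (hf'.integrableOn hs)
  have h1 := integral_Ioi_of_hasDerivAt_of_tendsto' hder hint (hf.tendsto hs)
  rw [integral_add ((hf.integrableOn hs).const_mul (-s)) (hf'.integrableOn hs), integral_const_mul] at h1
  simp only [ofReal_zero, mul_zero, Complex.exp_zero, one_mul, zero_sub] at h1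
  unfold L
  linear_combination -h1

lemma norm_L_le {f : ℝ → ℝ} {s : ℂ} {g : ℝ → ℝ}
    (hg : IntegrableOn g (Ioi 0)) (hfg : ∀ b, 0 < b → Real.exp (-s.re * b) * |f b| ≤ g b) :
    ‖L f s‖ ≤ ∫ b in Ioi (0:ℝ), g b := by
  unfold L
  apply norm_integral_le_of_norm_le hg
  filter_upwards [ae_restrict_mem measurableSet_Ioi] with b hb0
  rw [norm_mul, Complex.norm_exp, Complex.norm_real, Real.norm_eq_abs]
  have e1 : (-s * (b:ℂ)).re = - s.re * b := by simp
  rw [e1]
  exact hfg b hb0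

end Pool.Agent.E8helper52.OR
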