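import Mathlib

open MeasureTheory Set Filter Topology Complex
open scoped ComplexConjugate

namespace Pool.Agent.E8helper52.OR

lemma integrable_of_bd {g : ℝ → ℂ} (hg : Continuous g) {C : ℝ} (hC : ∀ y, ‖g y‖ ≤ C * (1 + y ^ 2)⁻¹) :
    Integrable g := by
  refine (integrable_inv_one_add_sq.const_mul C).mono' hg.aestronglyMeasurable ?_
  filter_upwards with y
  exact hC y

/-- from a bound for large `|y|` to a global bound -/
lemma global_bd {g : ℝ → ℂ} (hg : Continuous g) {C T : ℝ} (hC : 0 ≤ C) (hT : 1 ≤ T)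
    (hb : ∀ y, T ≤ |y| → ‖g y‖ ≤ C / y ^ 2) : ∃ C', 0 ≤ C' ∧ ∀ y, ‖g y‖ ≤ C' * (1 + y ^ 2)⁻¹ := by
  obtain ⟨B, hB⟩ := (isCompact_Icc (a := -T) (b := T)).exists_bound_of_continuousOn hg.continuousOn
  have hB0 : 0 ≤ B := (norm_nonneg _).trans (hB 0 ⟨by linarith, by linarith⟩)
  refine ⟨B * (1 + T ^ 2) + 2 * C, by positivity, fun y => ?_⟩
  rw [← div_eq_mul_inv, le_div_iff₀ (by positivity)]
  by_cases hy : T ≤ |y|
  · have h1 : 1 ≤ y ^ 2 := by
      rw [← sq_abs]; nlinarith [abs_nonneg y]
    have h2 := hb y hy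
    have h3 : ‖g y‖ * (1 + y ^ 2) ≤ C / y ^ 2 * (1 + y ^ 2) := mul_le_mul_of_nonneg_right h2 (by positivity)
    have h4 : C / y ^ 2 * (1 + y ^ 2) ≤ 2 * C := by
      rw [div_mul_eq_mul_div, div_le_iff₀ (by positivity)]
      nlinarith
    have h5 : 0 ≤ B * (1 + T ^ 2) := by positivity
    linarith
  · push Not at hy
    rw [abs_lt] at hy
    have h2 := hB y ⟨hy.1.le, hy.2.le⟩
    have h3 : ‖g y‖ * (1 + y ^ 2) ≤ B * (1 + T ^ 2) := by
      apply mul_le_mul h2 _ (by positivity) hB0
      nlinarith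
    linarith

/-- continuity along a vertical line -/
lemma cont_line {f : ℂ → ℂ} {x : ℝ} (hd : ∀ z : ℂ, z.re = x → DifferentiableAt ℂ f z) :
    Continuous (fun y : ℝ => f (x + y * I)) := by
  rw [continuous_iff_continuousAt]
  intro y
  have h1 : ContinuousAt f (x + y * I) := (hd _ (by simp)).continuousAt
  have h2 : ContinuousAt (fun y : ℝ => (x + y * I : ℂ)) y := by fun_prop
  exact ContinuousAt.comp (f := fun y : ℝ => (x + y * I : ℂ)) h1 h2

/-- shifting the line of integration -/
theorem strip_shift {f : ℂ → ℂ} {a b : ℝ} (hab : a ≤ b)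
    (hd : ∀ z : ℂ, a ≤ z.re → z.re ≤ b → DifferentiableAt ℂ f z) {C T : ℝ} (hC : 0 ≤ C) (hT : 1 ≤ T)
    (hb : ∀ z : ℂ, a ≤ z.re → z.re ≤ b → T ≤ |z.im| → ‖f z‖ ≤ C / z.im ^ 2) :
    ∫ y : ℝ, f (a + y * I) = ∫ y : ℝ, f (b + y * I) := by
  have hcont : ∀ x : ℝ, a ≤ x → x ≤ b → Continuous (fun y : ℝ => f (x + y * I)) := fun x h1 h2 =>
    cont_line (fun z hz => hd z (by rw [hz]; exact h1) (by rw [hz]; exact h2))
  have hint : ∀ x : ℝ, a ≤ x → x ≤ b → Integrable (fun y : ℝ => f (x + y * I)) := by
    intro x h1 h2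
    obtain ⟨C', -, hC'⟩ := global_bd (hcont x h1 h2) hC hT (fun y hy => by
      have := hb (x + y * I) (by simpa using h1) (by simpa using h2) (by simpa using hy)
      simpa using this)
    exact integrable_of_bd (hcont x h1 h2) hC'
  have hrect : ∀ R : ℝ, (∫ x in a..b, f (x + (-R : ℝ) * I)) - (∫ x in a..b, f (x + (R : ℝ) * I)) +
      I • (∫ y in (-R)..R, f (b + y * I)) - I • (∫ y in (-R)..R, f (a + y * I)) = 0 := by
    intro R
    have := Complex.integral_boundary_rect_eq_zero_of_differentiableOn f (⟨a, -R⟩ : ℂ) (⟨b, R⟩ : ℂ) (by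
      intro z hz
      rw [mem_reProdIm] at hz
      have h1 := hz.1
      simp only [uIcc_of_le hab] at h1
      exact (hd z h1.1 h1.2).differentiableWithinAt)
    exact this
  have htop : Tendsto (fun R : ℝ => ∫ x in a..b, f (x + (R : ℝ) * I)) atTop (𝓝 0) := by
    have h1 : Tendsto (fun R : ℝ => C / R ^ 2 * (b - a)) atTop (𝓝 (0 * (b - a))) := by
      apply Tendsto.mul_const
      exact tendsto_const_nhds.div_atTop (tendsto_pow_atTop (by norm_num))
    rw [zero_mul] at h1
    refine squeeze_zero_norm' ?_ h1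
    filter_upwards [eventually_ge_atTop T] with R hR
    have h2 := intervalIntegral.norm_integral_le_of_norm_le_const (a := a) (b := b) (C := C / R ^ 2)
      (f := fun x : ℝ => f (x + (R : ℝ) * I)) (fun x hx => by
        rw [uIoc_of_le hab] at hx
        have := hb (x + R * I) (by simpa using hx.1.le) (by simpa using hx.2) (by
          simp only [add_im, ofReal_im, mul_im, ofReal_re, I_im, mul_one, I_re, mul_zero, add_zero, zero_add]
          rw [abs_of_nonneg (by linarith)]; exact hR)
        simpa using this)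
    rwa [abs_of_nonneg (by linarith)] at h2
  have hbot : Tendsto (fun R : ℝ => ∫ x in a..b, f (x + (-R : ℝ) * I)) atTop (𝓝 0) := by
    have h1 : Tendsto (fun R : ℝ => C / R ^ 2 * (b - a)) atTop (𝓝 (0 * (b - a))) := by
      apply Tendsto.mul_const
      exact tendsto_const_nhds.div_atTop (tendsto_pow_atTop (by norm_num))
    rw [zero_mul] at h1
    refine squeeze_zero_norm' ?_ h1
    filter_upwards [eventually_ge_atTop T] with R hR
    have h2 := intervalIntegral.norm_integral_le_of_norm_le_const (a := a) (b := b) (C := C / R ^ 2)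
      (f := fun x : ℝ => f (x + (-R : ℝ) * I)) (fun x hx => by
        rw [uIoc_of_le hab] at hx
        have := hb (x + (-R : ℝ) * I) (by simpa using hx.1.le) (by simpa using hx.2) (by
          simp only [add_im, ofReal_im, mul_im, ofReal_re, I_im, mul_one, I_re, mul_zero, add_zero, zero_add]
          rw [abs_neg, abs_of_nonneg (by linarith)]; exact hR)
        simpa using this)
    rwa [abs_of_nonneg (by linarith)] at h2
  have hB := intervalIntegral_tendsto_integral (hint b hab le_rfl) tendsto_neg_atTop_atBot tendsto_id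
  have hA := intervalIntegral_tendsto_integral (hint a le_rfl hab) tendsto_neg_atTop_atBot tendsto_id
  have hlim := ((hbot.sub htop).add (hB.const_smul I)).sub (hA.const_smul I)
  have h0 : Tendsto (fun _ : ℝ => (0:ℂ)) atTop (𝓝 (0 - 0 + I • (∫ y : ℝ, f (b + y * I)) - I • ∫ y : ℝ, f (a + y * I))) := by
    refine hlim.congr (fun R => ?_)
    exact hrect R
  have h1 := tendsto_nhds_unique h0 tendsto_const_nhds
  simp only [sub_zero, zero_add, smul_eq_mul] at h1
  have h2 : I * ((∫ y : ℝ, f (b + y * I)) - ∫ y : ℝ, f (a + y * I)) = 0 := by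
    rw [mul_sub]; exact h1
  have h3 := (mul_eq_zero.1 h2).resolve_left I_ne_zero
  exact (sub_eq_zero.1 h3).symm

/-- closing the contour in the right half plane -/
theorem halfplane_zero {f : ℂ → ℂ} (hd : ∀ z : ℂ, 0 ≤ z.re → DifferentiableAt ℂ f z) {C T : ℝ}
    (hC : 0 ≤ C) (hT : 1 ≤ T) (hb : ∀ z : ℂ, 0 ≤ z.re → T ≤ ‖z‖ → ‖f z‖ ≤ C / ‖z‖ ^ 2) :
    ∫ y : ℝ, f (y * I) = 0 := by
  have hconst : ∀ b : ℝ, 0 ≤ b → ∫ y : ℝ, f (y * I) = ∫ y : ℝ, f (b + y * I) := by
    intro b hb0
    have := strip_shift (f := f) (a := 0) (b := b) hb0 (fun z h1 _ => hd z h1) hC hT (fun z h1 _ h3 => by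
      have h4 : |z.im| ≤ ‖z‖ := abs_im_le_norm z
      have h5 := hb z h1 (h3.trans h4)
      refine h5.trans ?_
      apply div_le_div_of_nonneg_left hC
      · rw [← sq_abs]; have : 0 < |z.im| := by linarith
        positivity
      · rw [← sq_abs z.im]
        exact pow_le_pow_left₀ (abs_nonneg _) h4 2)
    simpa using this
  have hlim : Tendsto (fun b : ℝ => ∫ y : ℝ, f (b + y * I)) atTop (𝓝 (∫ _y : ℝ, (0:ℂ))) := by
    apply tendsto_integral_filter_of_dominated_convergence (fun y : ℝ => C * (1 + y ^ 2)⁻¹)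
    · filter_upwards [eventually_ge_atTop T] with b hbT
      exact (cont_line (fun z hz => hd z (by rw [hz]; linarith))).aestronglyMeasurable
    · filter_upwards [eventually_ge_atTop T] with b hbT
      filter_upwards with y
      have hn : ‖(b + y * I : ℂ)‖ ^ 2 = b ^ 2 + y ^ 2 := by
        rw [← Complex.normSq_eq_norm_sq, Complex.normSq_add_mul_I]
      have h1 : T ≤ ‖(b + y * I : ℂ)‖ := by
        have := abs_re_le_norm (b + y * I : ℂ)
        simp only [add_re, ofReal_re, mul_re, I_re, mul_zero, ofReal_im, I_im, mul_one, sub_self, add_zero] at this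
        exact hbT.trans ((le_abs_self _).trans this)
      have h2 := hb (b + y * I) (by simp; linarith) h1
      rw [hn] at h2
      refine h2.trans ?_
      rw [div_eq_mul_inv]
      apply mul_le_mul_of_nonneg_left _ hC
      apply inv_anti₀ (by positivity)
      nlinarith
    · exact integrable_inv_one_add_sq.const_mul C
    · filter_upwards with y
      have h1 : Tendsto (fun b : ℝ => C / b ^ 2) atTop (𝓝 0) :=
        tendsto_const_nhds.div_atTop (tendsto_pow_atTop (by norm_num))
      refine squeeze_zero_norm' ?_ h1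
      filter_upwards [eventually_ge_atTop T] with b hbT
      have hn : ‖(b + y * I : ℂ)‖ ^ 2 = b ^ 2 + y ^ 2 := by
        rw [← Complex.normSq_eq_norm_sq, Complex.normSq_add_mul_I]
      have h1 : T ≤ ‖(b + y * I : ℂ)‖ := by
        have := abs_re_le_norm (b + y * I : ℂ)
        simp only [add_re, ofReal_re, mul_re, I_re, mul_zero, ofReal_im, I_im, mul_one, sub_self, add_zero] at this
        exact hbT.trans ((le_abs_self _).trans this)
      have h2 := hb (b + y * I) (by simp; linarith) h1
      rw [hn] at h2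
      refine h2.trans ?_
      apply div_le_div_of_nonneg_left hC (by nlinarith)
      nlinarith [sq_nonneg y]
  rw [integral_zero] at hlim
  have hlim2 : Tendsto (fun _ : ℝ => ∫ y : ℝ, f (y * I)) atTop (𝓝 0) := by
    refine hlim.congr' ?_
    filter_upwards [eventually_ge_atTop 0] with b hb0
    exact (hconst b hb0).symm
  exact tendsto_nhds_unique tendsto_const_nhds hlim2

end Pool.Agent.E8helper52.OR
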