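import Pool.Agent.E8helper52.OR.Zero

open MeasureTheory Set Filter Topology Complex
open scoped ComplexConjugate

namespace Pool.Agent.E8helper52.OR

/-- the region of the contraction -/
def Rg : Set ℂ := {S | 3 ≤ S.re ∧ 0 ≤ S.im}

noncomputable def ze (S : ℂ) : ℂ := Real.pi / K S
noncomputable def ww (S : ℂ) : ℂ := ze S ^ 2 - 1
noncomputable def rr (S : ℂ) : ℂ := cexp (Complex.log (ww S) / 2)
noncomputable def TT (S : ℂ) : ℂ := 4 + (2 * I / Real.pi) * Complex.log (ze S + rr S)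

lemma Rg_norm {S : ℂ} (hS : S ∈ Rg) : 3 ≤ ‖S‖ := hS.1.trans ((le_abs_self _).trans (abs_re_le_norm S))

lemma K_bounds {S : ℂ} (h3 : 3 ≤ S.re) : 8 / 9 ≤ ‖S‖ * ‖K S‖ ∧ ‖S‖ * ‖K S‖ ≤ 10 / 9 := by
  have h1 := sK_sub_one h3
  rw [← norm_mul]
  constructor
  · have : ‖(1:ℂ)‖ ≤ ‖S * K S‖ + ‖S * K S - 1‖ := by
      have := norm_sub_le (S * K S) (S * K S - 1)
      simpa using this
    rw [norm_one] at this; linarith
  · have : ‖S * K S‖ ≤ ‖(1:ℂ)‖ + ‖S * K S - 1‖ := by
      have := norm_add_le (1:ℂ) (S * K S - 1)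
      simpa using this
    rw [norm_one] at this; linarith

lemma ze_re {S : ℂ} (hS : S ∈ Rg) : 0 < (ze S).re := by
  have hpi := Real.pi_pos
  unfold ze
  rw [Complex.div_re]
  simp only [ofReal_re, ofReal_im, zero_mul, zero_div, add_zero]
  have hK : 0 < (K S).re := by
    rcases hS.2.lt_or_eq with h | h
    · exact K_re_pos (by linarith [hS.1]) h
    · have e : S = (S.re : ℂ) := by apply Complex.ext <;> simp [← h]
      rw [e, K_real, ofReal_re]
      exact K_real_pos (by linarith [hS.1])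
  have hne : K S ≠ 0 := K_ne_zero (by linarith [hS.1])
  have hn := Complex.normSq_pos.2 hne
  positivity

lemma ze_im {S : ℂ} (hS : S ∈ Rg) : 0 ≤ (ze S).im := by
  have hpi := Real.pi_pos
  unfold ze
  rw [Complex.div_im]
  simp only [ofReal_re, ofReal_im, zero_mul, zero_div, zero_sub]
  have hK : (K S).im ≤ 0 := by
    rcases hS.2.lt_or_eq with h | h
    · exact (K_im_neg (by linarith [hS.1]) h).le
    · have e : S = (S.re : ℂ) := by apply Complex.ext <;> simp [← h]
      rw [e, K_real, ofReal_im]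
  have hne : K S ≠ 0 := K_ne_zero (by linarith [hS.1])
  have hn := Complex.normSq_pos.2 hne
  rw [← neg_div]
  apply div_nonneg _ hn.le
  nlinarith

lemma ze_im_pos {S : ℂ} (h0 : 0 ≤ S.re) (hy : 0 < S.im) : 0 < (ze S).im := by
  have hpi := Real.pi_pos
  unfold ze
  rw [Complex.div_im]
  simp only [ofReal_re, ofReal_im, zero_mul, zero_div, zero_sub]
  have hK : (K S).im < 0 := K_im_neg h0 hy
  have hne : K S ≠ 0 := K_ne_zero h0
  have hn := Complex.normSq_pos.2 hne
  rw [← neg_div]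
  apply div_pos _ hn
  nlinarith

lemma ze_norm {S : ℂ} (hS : S ∈ Rg) : 8.4 ≤ ‖ze S‖ := by
  have hK := (K_bounds hS.1)
  have hn := Rg_norm hS
  have hne : K S ≠ 0 := K_ne_zero (by linarith [hS.1])
  have hKp : 0 < ‖K S‖ := norm_pos_iff.2 hne
  unfold ze
  rw [norm_div, Complex.norm_real, Real.norm_eq_abs, abs_of_pos Real.pi_pos, le_div_iff₀ hKp]
  have := Real.pi_gt_d2
  nlinarith

lemma ww_slit {S : ℂ} (hS : S ∈ Rg) : ww S ∈ slitPlane := by
  rw [Complex.mem_slitPlane_iff]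
  have h1 := ze_re hS
  have h2 := ze_im hS
  rcases h2.lt_or_eq with h | h
  · right
    unfold ww
    rw [pow_two]
    simp only [sub_im, mul_im, one_im, sub_zero]
    have : 0 < (ze S).re * (ze S).im := mul_pos h1 h
    linarith
  · left
    have h3 := ze_norm hS
    have e : ze S = ((ze S).re : ℂ) := by apply Complex.ext <;> simp [← h]
    have h4 : 8.4 ≤ (ze S).re := by
      rw [e, Complex.norm_real, Real.norm_eq_abs, abs_of_pos h1] at h3
      exact h3
    unfold ww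
    rw [pow_two]
    simp only [sub_re, mul_re, one_re, ← h, mul_zero, sub_zero]
    nlinarith

lemma ww_im {S : ℂ} (hS : S ∈ Rg) : 0 ≤ (ww S).im := by
  have h1 := ze_re hS
  have h2 := ze_im hS
  unfold ww
  rw [pow_two]
  simp only [sub_im, mul_im, one_im, sub_zero]
  have : 0 ≤ (ze S).re * (ze S).im := mul_nonneg h1.le h2
  linarith

lemma rr_sq {S : ℂ} (hS : S ∈ Rg) : rr S ^ 2 = ww S := by
  unfold rr
  rw [← Complex.exp_nat_mul]
  rw [show ((2:ℕ):ℂ) * (Complex.log (ww S) / 2) = Complex.log (ww S) by push_cast; ring]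
  exact Complex.exp_log (slitPlane_ne_zero (ww_slit hS))

lemma rr_re {S : ℂ} (hS : S ∈ Rg) : 0 < (rr S).re := by
  unfold rr
  rw [Complex.exp_re]
  apply mul_pos (Real.exp_pos _)
  have e : (Complex.log (ww S) / 2).im = Complex.arg (ww S) / 2 := by
    rw [show (Complex.log (ww S) / 2) = Complex.log (ww S) / ((2:ℝ):ℂ) by norm_num, Complex.div_ofReal_im, Complex.log_im]
  rw [e]
  have h1 := Complex.arg_le_pi (ww S)
  have h2 : 0 ≤ Complex.arg (ww S) := Complex.arg_nonneg_iff.2 (ww_im hS)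
  have h3 : Complex.arg (ww S) ≠ Real.pi := (Complex.mem_slitPlane_iff_arg.1 (ww_slit hS)).1
  have h4 : Complex.arg (ww S) < Real.pi := lt_of_le_of_ne h1 h3
  apply Real.cos_pos_of_mem_Ioo
  constructor
  · linarith [Real.pi_pos]
  · linarith

lemma rr_im {S : ℂ} (hS : S ∈ Rg) : 0 ≤ (rr S).im := by
  unfold rr
  rw [Complex.exp_im]
  apply mul_nonneg (Real.exp_pos _).le
  have e : (Complex.log (ww S) / 2).im = Complex.arg (ww S) / 2 := by
    rw [show (Complex.log (ww S) / 2) = Complex.log (ww S) / ((2:ℝ):ℂ) by norm_num, Complex.div_ofReal_im, Complex.log_im]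
  rw [e]
  have h1 := Complex.arg_le_pi (ww S)
  have h2 : 0 ≤ Complex.arg (ww S) := Complex.arg_nonneg_iff.2 (ww_im hS)
  apply Real.sin_nonneg_of_nonneg_of_le_pi <;> linarith

lemma rr_norm {S : ℂ} (hS : S ∈ Rg) : 8 ≤ ‖rr S‖ := by
  have h1 : ‖rr S‖ ^ 2 = ‖ww S‖ := by rw [← norm_pow, rr_sq hS]
  have h2 : ‖ze S‖ ^ 2 - 1 ≤ ‖ww S‖ := by
    unfold ww
    have := norm_sub_norm_le (ze S ^ 2) 1
    rw [norm_pow, norm_one] at this
    exact this
  have h3 := ze_norm hS
  have h4 := norm_nonneg (rr S)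
  nlinarith

lemma sum_re {S : ℂ} (hS : S ∈ Rg) : 0 < (ze S + rr S).re := by
  rw [add_re]; exact add_pos (ze_re hS) (rr_re hS)

lemma sum_im {S : ℂ} (hS : S ∈ Rg) : 0 ≤ (ze S + rr S).im := by
  rw [add_im]; exact add_nonneg (ze_im hS) (rr_im hS)

lemma sum_norm {S : ℂ} (hS : S ∈ Rg) : 8.4 ≤ ‖ze S + rr S‖ := by
  refine (ze_norm hS).trans ?_
  rw [← sq_le_sq₀ (norm_nonneg _) (norm_nonneg _), ← Complex.normSq_eq_norm_sq, ← Complex.normSq_eq_norm_sq,
    Complex.normSq_apply, Complex.normSq_apply, add_re, add_im]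
  have h1 := ze_re hS
  have h2 := ze_im hS
  have h3 := rr_re hS
  have h4 := rr_im hS
  nlinarith [mul_nonneg h1.le h3.le, mul_nonneg h2 h4]

lemma TT_re (S : ℂ) : (TT S).re = 4 - 2 / Real.pi * Complex.arg (ze S + rr S) := by
  unfold TT
  have e : (2 * I / Real.pi : ℂ) = ((2 / Real.pi : ℝ) : ℂ) * I := by push_cast; ring
  rw [e, add_re, mul_assoc, Complex.re_ofReal_mul, Complex.I_mul_re, Complex.log_im]
  simp; ring

lemma TT_im (S : ℂ) : (TT S).im = 2 / Real.pi * Real.log ‖ze S + rr S‖ := by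
  unfold TT
  have e : (2 * I / Real.pi : ℂ) = ((2 / Real.pi : ℝ) : ℂ) * I := by push_cast; ring
  rw [e, add_im, mul_assoc, Complex.im_ofReal_mul, Complex.I_mul_im, Complex.log_re]
  simp

lemma TT_maps {S : ℂ} (hS : S ∈ Rg) : TT S ∈ Rg ∧ (TT S).re ≤ 4 := by
  have hpi := Real.pi_pos
  have h1 := sum_re hS
  have h2 := sum_im hS
  have h3 := sum_norm hS
  have ha : 0 ≤ Complex.arg (ze S + rr S) := Complex.arg_nonneg_iff.2 h2
  have ha2 : Complex.arg (ze S + rr S) < Real.pi / 2 := Complex.arg_lt_pi_div_two_iff.2 (Or.inl h1)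
  refine ⟨⟨?_, ?_⟩, ?_⟩
  · rw [TT_re]
    have : 2 / Real.pi * Complex.arg (ze S + rr S) ≤ 2 / Real.pi * (Real.pi / 2) :=
      mul_le_mul_of_nonneg_left ha2.le (by positivity)
    have e : 2 / Real.pi * (Real.pi / 2) = 1 := by field_simp
    linarith
  · rw [TT_im]
    have : 0 ≤ Real.log ‖ze S + rr S‖ := Real.log_nonneg (by linarith)
    positivity
  · rw [TT_re]
    have : 0 ≤ 2 / Real.pi * Complex.arg (ze S + rr S) := by positivity
    linarith

lemma hasDerivAt_ze {S : ℂ} (hS : S ∈ Rg) : HasDerivAt ze (Real.pi * L g0 S / K S ^ 2) S := by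
  have hs : -1 < S.re := by linarith [hS.1]
  have hne : K S ≠ 0 := K_ne_zero (by linarith [hS.1])
  have h1 := (hasDerivAt_const S (Real.pi : ℂ)).div (hasDerivAt_K hs) hne
  refine (h1.congr_deriv ?_)
  ring

lemma hasDerivAt_TT {S : ℂ} (hS : S ∈ Rg) :
    HasDerivAt TT ((2 * I / Real.pi) * ((Real.pi * L g0 S / K S ^ 2) / rr S)) S := by
  have h1 := hasDerivAt_ze hS
  have h2 : HasDerivAt ww (2 * ze S * (Real.pi * L g0 S / K S ^ 2)) S := by
    have := (h1.fun_pow 2).sub_const 1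
    refine this.congr_deriv ?_
    push_cast; ring
  have h3 : HasDerivAt rr (rr S * ((2 * ze S * (Real.pi * L g0 S / K S ^ 2)) / ww S / 2)) S :=
    ((h2.clog (ww_slit hS)).div_const 2).cexp
  have h4 := h1.add h3
  have hslit : ze S + rr S ∈ slitPlane := Or.inl (sum_re hS)
  have h5 : HasDerivAt (fun z => Complex.log (ze z + rr z)) _ S := h4.clog hslit
  have h6 := (h5.const_mul (2 * I / Real.pi)).const_add 4
  refine h6.congr_deriv ?_
  congr 1
  have e := rr_sq hS
  have hr : rr S ≠ 0 := by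
    have := rr_re hS
    intro h0; rw [h0] at this; simp at this
  have hs : ze S + rr S ≠ 0 := slitPlane_ne_zero hslit
  rw [Pi.add_apply, ← e]
  field_simp
  ring

lemma TT_deriv_norm {S : ℂ} (hS : S ∈ Rg) :
    ‖(2 * I / Real.pi) * ((Real.pi * L g0 S / K S ^ 2) / rr S)‖ ≤ 4 / 5 := by
  have hpi := Real.pi_pos
  have hK := (K_bounds hS.1)
  have hn := Rg_norm hS
  have hg := s2g0 hS.1
  have hr := rr_norm hS
  have hne : K S ≠ 0 := K_ne_zero (by linarith [hS.1])
  have hKp : 0 < ‖K S‖ := norm_pos_iff.2 hne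
  rw [norm_mul, norm_pow] at hg
  rw [norm_mul, norm_div, norm_mul, norm_div, norm_div, norm_mul, norm_pow, Complex.norm_I, Complex.norm_real,
    Real.norm_eq_abs, abs_of_pos hpi]
  simp only [Complex.norm_ofNat, mul_one]
  have e : 2 / Real.pi * (Real.pi * ‖L g0 S‖ / ‖K S‖ ^ 2 / ‖rr S‖) = 2 * ‖L g0 S‖ / (‖K S‖ ^ 2 * ‖rr S‖) := by
    field_simp
  rw [e, div_le_iff₀ (by positivity)]
  set a := ‖S‖
  set k := ‖K S‖
  set g := ‖L g0 S‖
  have hg0 : 0 ≤ g := norm_nonneg _
  have h1 : (8/9) ^ 2 ≤ (a * k) ^ 2 := pow_le_pow_left₀ (by norm_num) hK.1 2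
  have h2 : a ^ 2 * (2 * g) ≤ a ^ 2 * (4 / 5 * (k ^ 2 * 8)) := by nlinarith
  have h3 : 2 * g ≤ 4 / 5 * (k ^ 2 * 8) := le_of_mul_le_mul_left h2 (by positivity)
  have h4 : k ^ 2 * 8 ≤ k ^ 2 * ‖rr S‖ := mul_le_mul_of_nonneg_left hr (by positivity)
  linarith

lemma convex_Rg : Convex ℝ Rg := by
  have : Rg = {S : ℂ | (3:ℝ) ≤ S.re} ∩ {S : ℂ | (0:ℝ) ≤ S.im} := by
    ext S; simp [Rg]
  rw [this]
  exact (convex_halfSpace_re_ge 3).inter (convex_halfSpace_im_ge 0)

lemma closed_Rg : IsClosed Rg := by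
  have : Rg = {S : ℂ | (3:ℝ) ≤ S.re} ∩ {S : ℂ | (0:ℝ) ≤ S.im} := by
    ext S; simp [Rg]
  rw [this]
  exact (isClosed_le continuous_const Complex.continuous_re).inter (isClosed_le continuous_const Complex.continuous_im)

lemma TT_lip {S S' : ℂ} (hS : S ∈ Rg) (hS' : S' ∈ Rg) : ‖TT S' - TT S‖ ≤ 4 / 5 * ‖S' - S‖ :=
  convex_Rg.norm_image_sub_le_of_norm_hasDerivWithin_le (𝕜 := ℂ)
    (fun _ hx => (hasDerivAt_TT hx).hasDerivWithinAt) (fun _ hx => TT_deriv_norm hx) hS hS'

lemma exists_fix : ∃ S ∈ Rg, TT S = S := by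
  have hmaps : MapsTo TT Rg Rg := fun S hS => (TT_maps hS).1
  have hc : ContractingWith (4/5 : NNReal) (hmaps.restrict TT Rg Rg) := by
    refine ⟨by
      rw [← NNReal.coe_lt_coe]; push_cast; norm_num, ?_⟩
    refine LipschitzWith.of_dist_le_mul (fun x y => ?_)
    have := TT_lip y.2 x.2
    rw [Subtype.dist_eq, Subtype.dist_eq, dist_eq_norm, dist_eq_norm]
    simpa using this
  have hx : (3:ℂ) ∈ Rg := by
    constructor <;> simp
  obtain ⟨y, hy, hfix, -⟩ := hc.exists_fixedPoint' closed_Rg.isComplete hmaps hx (edist_ne_top _ _)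
  exact ⟨y, hy, hfix⟩

lemma unique_fix {S S' : ℂ} (hS : S ∈ Rg) (hS' : S' ∈ Rg) (h : TT S = S) (h' : TT S' = S') : S' = S := by
  have h1 := TT_lip hS hS'
  rw [h, h'] at h1
  have h2 := norm_nonneg (S' - S)
  have h3 : ‖S' - S‖ = 0 := by linarith
  exact sub_eq_zero.1 (norm_eq_zero.1 h3)

lemma fix_zero {S : ℂ} (hS : S ∈ Rg) (h : TT S = S) : D S = 0 := by
  have hpi : (Real.pi : ℂ) ≠ 0 := by exact_mod_cast Real.pi_ne_zero
  have hne : K S ≠ 0 := K_ne_zero (by linarith [hS.1])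
  have hsum : ze S + rr S ≠ 0 := by
    have := sum_re hS
    intro h0; rw [h0] at this; simp at this
  have h1 : Complex.log (ze S + rr S) = - I * (Real.pi * S / 2 - 2 * Real.pi) := by
    have h2 : (2 * I / Real.pi) * Complex.log (ze S + rr S) = S - 4 := by
      conv_rhs => rw [← h]
      unfold TT; ring
    field_simp at h2
    linear_combination (-I / 2) * h2 + Complex.log (ze S + rr S) * I_sq
  have h2 : cexp (- I * (Real.pi * S / 2 - 2 * Real.pi)) = ze S + rr S := by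
    rw [← h1, Complex.exp_log hsum]
  have h3 : cexp (I * (Real.pi * S / 2 - 2 * Real.pi)) = ze S - rr S := by
    have e1 : cexp (I * (Real.pi * S / 2 - 2 * Real.pi)) * cexp (- I * (Real.pi * S / 2 - 2 * Real.pi)) = 1 := by
      rw [← Complex.exp_add]
      rw [show I * (Real.pi * S / 2 - 2 * Real.pi) + - I * (Real.pi * S / 2 - 2 * Real.pi) = 0 by ring, Complex.exp_zero]
    rw [h2] at e1
    have e2 : (ze S - rr S) * (ze S + rr S) = 1 := by
      have := rr_sq hS
      unfold ww at this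
      linear_combination -this
    exact mul_right_cancel₀ hsum (e1.trans e2.symm)
  have h4 : E S = ze S := by
    unfold E
    have e1 : Complex.cos (Real.pi * S / 2) = Complex.cos (Real.pi * S / 2 - 2 * Real.pi) := by
      rw [Complex.cos_sub_two_pi]
    rw [e1, Complex.cos]
    rw [mul_comm (Real.pi * S / 2 - 2 * Real.pi : ℂ) I, h3,
      show -(Real.pi * S / 2 - 2 * Real.pi : ℂ) * I = - I * (Real.pi * S / 2 - 2 * Real.pi) by ring, h2]
    ring
  unfold D
  rw [h4]; unfold ze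
  field_simp
  ring

lemma zero_fix {S : ℂ} (hS : S ∈ Rg) (h4 : S.re ≤ 4) (hD : D S = 0) : TT S = S := by
  have hpi : (Real.pi : ℂ) ≠ 0 := by exact_mod_cast Real.pi_ne_zero
  have hpr := Real.pi_pos
  have hne : K S ≠ 0 := K_ne_zero (by linarith [hS.1])
  have hsum : ze S + rr S ≠ 0 := by
    have := sum_re hS
    intro h0; rw [h0] at this; simp at this
  have hE : E S = ze S := by
    unfold D at hD; unfold ze
    rw [eq_div_iff hne]
    linear_combination -hD
  set θ : ℂ := Real.pi * S / 2 - 2 * Real.pi with hθ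
  set v : ℂ := cexp (-I * θ) with hv
  set u : ℂ := cexp (I * θ) with hu
  have huv : u * v = 1 := by
    rw [hu, hv, ← Complex.exp_add]
    rw [show I * θ + -I * θ = 0 by ring, Complex.exp_zero]
  have hcos : u + v = 2 * ze S := by
    rw [← hE]
    unfold E
    have e1 : Complex.cos (Real.pi * S / 2) = Complex.cos θ := by
      rw [hθ, Complex.cos_sub_two_pi]
    rw [e1, Complex.cos]
    rw [mul_comm θ I, ← hu, show -θ * I = - I * θ by ring, ← hv]
    ring
  have hsq : (v - ze S) ^ 2 = rr S ^ 2 := by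
    rw [rr_sq hS]
    unfold ww
    have : u = 2 * ze S - v := by linear_combination hcos
    rw [this] at huv
    linear_combination -huv
  have hθre : θ.re = Real.pi * S.re / 2 - 2 * Real.pi := by
    rw [hθ]
    rw [show (Real.pi * S / 2 - 2 * Real.pi : ℂ) = ((Real.pi / 2 : ℝ) : ℂ) * S - ((2 * Real.pi : ℝ) : ℂ) by push_cast; ring]
    rw [sub_re, Complex.re_ofReal_mul, ofReal_re]; ring
  have hθim : θ.im = Real.pi * S.im / 2 := by
    rw [hθ]
    rw [show (Real.pi * S / 2 - 2 * Real.pi : ℂ) = ((Real.pi / 2 : ℝ) : ℂ) * S - ((2 * Real.pi : ℝ) : ℂ) by push_cast; ring]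
    rw [sub_im, Complex.im_ofReal_mul, ofReal_im]; ring
  have hvn : 1 ≤ ‖v‖ := by
    rw [hv, Complex.norm_exp]
    have e : (-I * θ).re = θ.im := by simp
    rw [e, hθim]
    apply Real.one_le_exp
    have := hS.2
    positivity
  have hv1 : v = ze S + rr S := by
    rcases sq_eq_sq_iff_eq_or_eq_neg.1 hsq with h | h
    · linear_combination h
    · exfalso
      have e1 : v * (ze S + rr S) = 1 := by
        have e0 : v = ze S - rr S := by linear_combination h
        rw [e0]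
        have := rr_sq hS
        unfold ww at this
        linear_combination -this
      have e2 : ‖v‖ * ‖ze S + rr S‖ = 1 := by rw [← norm_mul, e1, norm_one]
      have e3 := sum_norm hS
      nlinarith
  have hlog : Complex.log (ze S + rr S) = -I * θ := by
    rw [← hv1, hv, Complex.log_exp]
    · have e : (-I * θ).im = - θ.re := by simp
      rw [e, hθre]; nlinarith [hS.1]
    · have e : (-I * θ).im = - θ.re := by simp
      rw [e, hθre]; nlinarith [hS.1]
  unfold TT
  rw [hlog, hθ]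
  field_simp
  linear_combination (4 - S) * I_sq

/-- existence and uniqueness of the pair of zeros of `D` in `0 ≤ Re ≤ 4`. -/
theorem exists_zero : ∃ S₁ : ℂ, 3 < S₁.re ∧ S₁.re < 4 ∧ 0 < S₁.im ∧ D S₁ = 0 ∧
    ∀ S : ℂ, 0 ≤ S.re → S.re ≤ 4 → D S = 0 → S = S₁ ∨ S = conj S₁ := by
  obtain ⟨S₁, h1, hfix⟩ := exists_fix
  have hD := fix_zero h1 hfix
  have h4 : S₁.re ≤ 4 := by rw [← hfix]; exact (TT_maps h1).2
  have him : 0 < S₁.im := by
    rcases h1.2.lt_or_eq with h | h
    · exact h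
    · exact absurd hD (no_real_zero (by linarith [h1.1]) h.symm)
  obtain ⟨h3, h4'⟩ := zero_loc (by linarith [h1.1]) h4 him hD
  have huniq : ∀ S : ℂ, 0 ≤ S.re → S.re ≤ 4 → 0 < S.im → D S = 0 → S = S₁ := by
    intro S hS0 hS4 hSi hSD
    obtain ⟨g3, g4⟩ := zero_loc hS0 hS4 hSi hSD
    have hR : S ∈ Rg := ⟨g3.le, hSi.le⟩
    exact unique_fix h1 hR hfix (zero_fix hR hS4 hSD)
  refine ⟨S₁, h3, h4', him, hD, fun S hS0 hS4 hSD => ?_⟩
  rcases lt_trichotomy S.im 0 with h | h | h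
  · right
    have := huniq (conj S) (by simpa using hS0) (by simpa using hS4) (by simpa using h)
      (by rw [D_conj, hSD, map_zero])
    rw [← this, Complex.conj_conj]
  · exact absurd hSD (no_real_zero hS0 h)
  · left; exact huniq S hS0 hS4 h hSD

/-- the derivative of `D` -/
noncomputable def dD (S : ℂ) : ℂ := Real.pi / 2 * Complex.sin (Real.pi * S / 2) * K S + E S * L g0 S

lemma hasDerivAt_E (S : ℂ) : HasDerivAt E (-(Real.pi / 2 * Complex.sin (Real.pi * S / 2))) S := by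
  have h1 : HasDerivAt (fun z : ℂ => (Real.pi * z / 2 : ℂ)) (Real.pi / 2) S := by
    have := ((hasDerivAt_id S).const_mul (Real.pi : ℂ)).div_const 2
    simpa using this
  have h2 := h1.ccos
  refine h2.congr_deriv ?_
  ring

lemma hasDerivAt_D {S : ℂ} (hS : -1 < S.re) : HasDerivAt D (dD S) S := by
  have h1 := ((hasDerivAt_E S).mul (hasDerivAt_K hS)).const_sub (Real.pi : ℂ)
  refine h1.congr_deriv ?_
  unfold dD; ring

lemma dD_ne_zero {S : ℂ} (hS : S ∈ Rg) (hD : D S = 0) : dD S ≠ 0 := by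
  intro h0
  have hpi := Real.pi_pos
  have hne : K S ≠ 0 := K_ne_zero (by linarith [hS.1])
  have hE : E S = ze S := by
    unfold D at hD; unfold ze
    rw [eq_div_iff hne]
    linear_combination -hD
  have hEn : 8.4 ≤ ‖E S‖ := by rw [hE]; exact ze_norm hS
  have hK := (K_bounds hS.1)
  have hn := Rg_norm hS
  have hg := s2g0 hS.1
  rw [norm_mul, norm_pow] at hg
  have e1 : Real.pi / 2 * Complex.sin (Real.pi * S / 2) * K S = - (E S * L g0 S) := by
    unfold dD at h0
    linear_combination h0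
  have e2 : Real.pi / 2 * ‖Complex.sin (Real.pi * S / 2)‖ * ‖K S‖ = ‖E S‖ * ‖L g0 S‖ := by
    have := congrArg norm e1
    rw [norm_neg, norm_mul, norm_mul, norm_mul, norm_div, Complex.norm_real, Real.norm_eq_abs, abs_of_pos hpi] at this
    simpa using this
  have e3 : ‖E S‖ ^ 2 - 1 ≤ ‖Complex.sin (Real.pi * S / 2)‖ ^ 2 := by
    have h1 : Complex.sin (Real.pi * S / 2) ^ 2 = 1 - E S ^ 2 := by
      have := Complex.sin_sq_add_cos_sq (Real.pi * S / 2)
      unfold E; linear_combination this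
    rw [← norm_pow (Complex.sin (Real.pi * S / 2)) 2, h1]
    have := norm_sub_norm_le (E S ^ 2) 1
    rw [norm_pow, norm_one, norm_sub_rev] at this
    exact this
  set a := ‖S‖
  set k := ‖K S‖
  set g := ‖L g0 S‖
  set e := ‖E S‖
  set σ := ‖Complex.sin (Real.pi * S / 2)‖
  have hσ : 0 ≤ σ := norm_nonneg _
  have hg0 : 0 ≤ g := norm_nonneg _
  have e4 : a ^ 2 * (Real.pi / 2 * σ * k) ≤ 5 / 2 * e := by
    rw [e2]; nlinarith
  have e5 : 4 * σ ≤ a ^ 2 * (Real.pi / 2 * σ * k) := by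
    have h1 : 8 / 3 ≤ a * (a * k) := by nlinarith
    have h2 : 3 / 2 ≤ Real.pi / 2 := by linarith [Real.pi_gt_three]
    have h3 : 3 / 2 * (8 / 3) ≤ Real.pi / 2 * (a * (a * k)) := mul_le_mul h2 h1 (by norm_num) (by positivity)
    have h4 : a ^ 2 * (Real.pi / 2 * σ * k) = (Real.pi / 2 * (a * (a * k))) * σ := by ring
    rw [h4]
    nlinarith
  have e6 : σ ≤ 5 / 8 * e := by linarith
  nlinarith

end Pool.Agent.E8helper52.OR
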