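import Pool.Agent.E8helper52.OR.Jasym

open MeasureTheory Set Filter Topology Complex Asymptotics
open scoped ComplexConjugate

namespace Pool.Agent.E8helper52.OR

lemma dD_conj (S : ℂ) : dD (conj S) = conj (dD S) := by
  unfold dD
  rw [E_conj, K_conj, L_conj]
  simp only [map_add, map_mul, map_div₀, conj_ofReal, map_ofNat, ← Complex.sin_conj]

/-- the residue coefficient -/
noncomputable def rr0 (S : ℂ) : ℂ := E S / K S / dD S

lemma rr0_conj (S : ℂ) : rr0 (conj S) = conj (rr0 S) := by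
  unfold rr0
  rw [E_conj, K_conj, dD_conj]
  simp

/-- decomposition of `A` -/
theorem A_decomp {S₁ : ℂ} (h3 : 3 < S₁.re) (h4 : S₁.re < 4) (hi : 0 < S₁.im) (hD : D S₁ = 0)
    (huniq : ∀ S : ℂ, 0 ≤ S.re → S.re ≤ 4 → D S = 0 → S = S₁ ∨ S = conj S₁) :
    ∃ C, 0 ≤ C ∧ ∀ u : ℝ, 0 < u →
      ‖A u + rr0 S₁ * cexp (-S₁ * u) + rr0 (conj S₁) * cexp (-(conj S₁) * u)‖ ≤ C * Real.exp (-4 * u) := by
  have hRg : S₁ ∈ Rg := ⟨h3.le, hi.le⟩
  have hd1 : dD S₁ ≠ 0 := dD_ne_zero hRg hD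
  have hd2 : dD (conj S₁) ≠ 0 := by
    rw [dD_conj]; simpa using hd1
  have hD2 : D (conj S₁) = 0 := by rw [D_conj, hD, map_zero]
  have hne : S₁ ≠ conj S₁ := by
    intro h0
    have := congrArg Complex.im h0
    simp at this; linarith
  refine ⟨(1 / (2 * Real.pi)) * ∫ y : ℝ, ‖mm (4 + y * I)‖, ?_, ?_⟩
  · exact mul_nonneg (div_nonneg zero_le_one (mul_nonneg zero_le_two Real.pi_pos.le))
      (integral_nonneg (fun y => norm_nonneg _))
  intro u hu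
  have hf : ∀ z : ℂ, E z / K z * cexp (-z * u) / D z + (z ^ 2 + 2) * cexp (-z * u) = mm z * cexp (-z * u) := by
    intro z; unfold mm; ring
  have hexp : ∀ z : ℂ, DifferentiableAt ℂ (fun z : ℂ => cexp (-z * u)) z := fun z => by fun_prop
  have hN : ∀ z : ℂ, 0 ≤ z.re → z.re ≤ 4 → DifferentiableAt ℂ (fun z => E z / K z * cexp (-z * u)) z := by
    intro z a b
    have hK := differentiableAt_K (s := z) (by linarith)
    have hE := (hasDerivAt_E z).differentiableAt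
    have hEK : DifferentiableAt ℂ (fun z => E z / K z) z := hE.div hK (K_ne_zero a)
    exact hEK.mul (hexp z)
  have hq : ∀ z : ℂ, 0 ≤ z.re → z.re ≤ 4 → DifferentiableAt ℂ (fun z : ℂ => (z ^ 2 + 2) * cexp (-z * u)) z := by
    intro z a b
    have h1 : DifferentiableAt ℂ (fun z : ℂ => z ^ 2 + 2) z := by fun_prop
    exact h1.mul (hexp z)
  have hDd : ∀ z : ℂ, 0 ≤ z.re → z.re ≤ 4 → DifferentiableAt ℂ D z := fun z a _ =>
    (hasDerivAt_D (S := z) (by linarith)).differentiableAt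
  have hbb : ∀ z : ℂ, 0 ≤ z.re → z.re ≤ 4 → (1000:ℝ) ≤ |z.im| →
      ‖(fun z => E z / K z * cexp (-z * u)) z / D z + (fun z : ℂ => (z ^ 2 + 2) * cexp (-z * u)) z‖ ≤ 23343 / z.im ^ 2 := by
    intro z a b c
    have h1 := mm_bound a b c
    have h2 : ‖cexp (-z * u)‖ ≤ 1 := by
      rw [Complex.norm_exp]
      have : (-z * (u:ℂ)).re = - z.re * u := by simp
      rw [this]
      exact exp_neg_le_one a hu.le
    have h3 := hf z
    simp only
    rw [h3, norm_mul]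
    calc ‖mm z‖ * ‖cexp (-z * u)‖ ≤ 23343 / z.im ^ 2 * 1 := by
          apply mul_le_mul h1 h2 (norm_nonneg _) (by positivity)
      _ = _ := by ring
  have hdd2 : HasDerivAt D (dD (conj S₁)) (conj S₁) := hasDerivAt_D (by rw [conj_re]; linarith)
  have hdd1 : HasDerivAt D (dD S₁) S₁ := hasDerivAt_D (by linarith)
  have key := two_pole (by linarith) h4 (S₂ := conj S₁) (by rw [conj_re]; linarith) (by rw [conj_re]; exact h4) hne
    hN hDd hq huniq hD hD2 hdd1 hdd2 hd1 hd2 (C := 23343) (T := 1000) (by norm_num) (by norm_num) hbb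
  simp only [hf] at key
  have hA : A u = (1 / (2 * Real.pi)) * ∫ y : ℝ, mm (y * I) * cexp (-(y * I) * u) := rfl
  have hpi : (Real.pi : ℂ) ≠ 0 := by exact_mod_cast Real.pi_ne_zero
  rw [key] at hA
  have e : A u + rr0 S₁ * cexp (-S₁ * u) + rr0 (conj S₁) * cexp (-(conj S₁) * u) =
      (1 / (2 * Real.pi)) * ∫ y : ℝ, mm (4 + y * I) * cexp (-(4 + y * I) * u) := by
    rw [hA]
    unfold rr0
    generalize (∫ y : ℝ, mm (4 + y * I) * cexp (-(4 + y * I) * u)) = X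
    field_simp
    ring
  rw [e, norm_mul]
  have e2 : ‖(1 / (2 * Real.pi) : ℂ)‖ = 1 / (2 * Real.pi) := by
    have : (1 / (2 * Real.pi) : ℂ) = ((1 / (2 * Real.pi) : ℝ) : ℂ) := by push_cast; ring
    rw [this, Complex.norm_real, Real.norm_eq_abs, abs_of_pos (by have := Real.pi_pos; positivity)]
  rw [e2, mul_assoc]
  apply mul_le_mul_of_nonneg_left _ (by have := Real.pi_pos; positivity)
  rw [← integral_mul_const]
  refine (norm_integral_le_integral_norm _).trans (le_of_eq ?_)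
  congr 1; ext y
  rw [norm_mul, Complex.norm_exp]
  congr 2
  simp

lemma J_conj (n : ℕ) (z : ℂ) : J n (conj z) = conj (J n z) := by
  unfold J
  rw [← integral_conj]
  congr 1; ext u
  simp only [map_mul, conj_ofReal, ← exp_conj, map_neg, map_add, map_one, map_ofNat]

lemma J_int (n : ℕ) {z : ℂ} (hz : 0 ≤ z.re) :
    IntegrableOn (fun u : ℝ => cexp (-(1 + 2 * z) * u) * ((T u ^ (2 * n) * h u : ℝ) : ℂ)) (Ioi 0) := by
  have hd : Dec 1 (fun u => h u * T u ^ (2 * n)) := dec_h.mul_bdd (by have := continuous_T; fun_prop) (M := 1) (fun b => by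
    rw [abs_pow]; exact pow_le_one₀ (abs_nonneg _) (abs_T_le b))
  have := hd.integrableOn (s := 1 + 2 * z) (by simp; linarith)
  refine this.congr ?_
  filter_upwards with u
  push_cast; ring

lemma J_three_half (n : ℕ) : ∫ u in Ioi (0:ℝ), Real.exp (-4 * u) * (T u ^ (2 * n) * h u) ≤ ‖J n (3 / 2)‖ := by
  have e : J n (3 / 2) = ((∫ u in Ioi (0:ℝ), Real.exp (-4 * u) * (T u ^ (2 * n) * h u) : ℝ) : ℂ) := by
    have : ((∫ u in Ioi (0:ℝ), Real.exp (-4 * u) * (T u ^ (2 * n) * h u) : ℝ) : ℂ) =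
        ∫ u in Ioi (0:ℝ), ((Real.exp (-4 * u) * (T u ^ (2 * n) * h u) : ℝ) : ℂ) := integral_ofReal.symm
    rw [this]
    unfold J
    congr 1; ext u
    push_cast
    congr 2
    ring
  rw [e, Complex.norm_real]
  exact Real.le_norm_self _

theorem ee_asymp {S₁ : ℂ} (h3 : 3 < S₁.re) (h4 : S₁.re < 4) (hi : 0 < S₁.im) (hD : D S₁ = 0)
    (huniq : ∀ S : ℂ, 0 ≤ S.re → S.re ≤ 4 → D S = 0 → S = S₁ ∨ S = conj S₁) :
    ∃ κ : ℂ, κ ≠ 0 ∧ ∃ C : ℝ, ∀ n : ℕ, 2 ≤ n →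
      ‖(ee n).re - 2 * (κ * (n : ℂ) ^ (-1 - (S₁ - 1) / 2)).re‖ ≤ C * (n : ℝ) ^ (-1 - (3 / 2 : ℝ)) := by
  obtain ⟨C4, hC4, hA⟩ := A_decomp h3 h4 hi hD huniq
  have hRg : S₁ ∈ Rg := ⟨h3.le, hi.le⟩
  have hd1 : dD S₁ ≠ 0 := dD_ne_zero hRg hD
  set ρ : ℂ := (S₁ - 1) / 2 with hρ
  have hS : S₁ = 1 + 2 * ρ := by rw [hρ]; ring
  have hρre : ρ.re = (S₁.re - 1) / 2 := by
    rw [hS]; simp
  have hρ1 : 1 < ρ.re := by rw [hρre]; linarith
  obtain ⟨C1, hC1, hJ1⟩ := J_asymp (z := ρ) (by linarith)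
  obtain ⟨C2, hC2, hJ2⟩ := J_asymp (z := 3 / 2) (by norm_num)
  set r := rr0 S₁ with hr
  set κ : ℂ := -2 * r * Complex.Gamma (ρ + 1) * ((1 / 4 : ℝ) : ℂ) ^ (ρ + 1) with hκ
  have hKne : K S₁ ≠ 0 := K_ne_zero (by linarith)
  have hEne : E S₁ ≠ 0 := by
    intro h0
    unfold D at hD
    rw [h0, zero_mul, sub_zero] at hD
    exact Real.pi_ne_zero (by exact_mod_cast hD)
  have hrne : r ≠ 0 := by
    rw [hr]; unfold rr0
    exact div_ne_zero (div_ne_zero hEne hKne) hd1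
  have hκne : κ ≠ 0 := by
    rw [hκ]
    refine mul_ne_zero (mul_ne_zero (mul_ne_zero (by norm_num) hrne) ?_) ?_
    · exact Complex.Gamma_ne_zero_of_re_pos (by simp; linarith)
    · rw [Complex.cpow_ne_zero_iff]; left; norm_num
  refine ⟨κ, hκne, 2 * C4 * (‖Complex.Gamma (3 / 2 + 1) * ((1 / 4 : ℝ) : ℂ) ^ ((3 / 2 : ℂ) + 1)‖ + C2) + 4 * ‖r‖ * C1, fun n hn => ?_⟩
  have hn1 : 1 ≤ n := by omega
  have hn0 : (0:ℝ) < n := by exact_mod_cast (by omega : 0 < n)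
  have hninv : (1:ℝ) / n ≤ 1 := by
    rw [div_le_one hn0]; exact_mod_cast hn1
  -- the main decomposition
  set R : ℝ → ℂ := fun u => A u + r * cexp (-S₁ * u) + rr0 (conj S₁) * cexp (-(conj S₁) * u) with hR
  have hTh : ∀ u, 0 ≤ T u ^ (2 * n) * h u := fun u => by
    rw [pow_mul]; have := h_pos u; positivity
  have hI0 : IntegrableOn (fun u : ℝ => Real.exp (-4 * u) * (T u ^ (2 * n) * h u)) (Ioi 0) := by
    have := (J_int n (z := 3 / 2) (by norm_num)).norm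
    refine this.congr ?_
    filter_upwards with u
    rw [norm_mul, Complex.norm_exp, Complex.norm_real, Real.norm_eq_abs, abs_of_nonneg (hTh u)]
    congr 2
    norm_num
  have hRc : Continuous R := by
    have := A_cont
    simp only [hR]; fun_prop
  have hRbd : ∀ u ∈ Ioi (0:ℝ), ‖R u * ((T u ^ (2 * n) * h u : ℝ) : ℂ)‖ ≤ C4 * (Real.exp (-4 * u) * (T u ^ (2 * n) * h u)) := by
    intro u hu
    rw [norm_mul, Complex.norm_real, Real.norm_eq_abs, abs_of_nonneg (hTh u)]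
    calc ‖R u‖ * (T u ^ (2 * n) * h u) ≤ (C4 * Real.exp (-4 * u)) * (T u ^ (2 * n) * h u) :=
          mul_le_mul_of_nonneg_right (hA u hu) (hTh u)
      _ = _ := by ring
  have hRint : IntegrableOn (fun u => R u * ((T u ^ (2 * n) * h u : ℝ) : ℂ)) (Ioi 0) := by
    refine (hI0.const_mul C4).mono' ?_ ?_
    · have := continuous_h
      have := continuous_T
      apply Continuous.aestronglyMeasurable
      fun_prop
    · filter_upwards [ae_restrict_mem measurableSet_Ioi] with u hu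
      exact hRbd u hu
  have hJi1 := J_int n (z := ρ) (by linarith)
  have hJi2 := J_int n (z := conj ρ) (by simp; linarith)
  have hee : ee n = 2 * (∫ u in Ioi (0:ℝ), R u * ((T u ^ (2 * n) * h u : ℝ) : ℂ)) - 2 * r * J n ρ - conj (2 * r * J n ρ) := by
    have e1 : ee n = 2 * ∫ u in Ioi (0:ℝ), A u * ((T u ^ (2 * n) * h u : ℝ) : ℂ) := by
      unfold ee eA cr
      rw [if_neg (by omega), if_neg (by omega), add_zero]
    have e2 : ∫ u in Ioi (0:ℝ), A u * ((T u ^ (2 * n) * h u : ℝ) : ℂ) =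
        (∫ u in Ioi (0:ℝ), R u * ((T u ^ (2 * n) * h u : ℝ) : ℂ)) - r * J n ρ - rr0 (conj S₁) * J n (conj ρ) := by
      unfold J
      rw [← integral_const_mul, ← integral_const_mul]
      have i3 : IntegrableOn (fun u : ℝ => R u * ((T u ^ (2 * n) * h u : ℝ) : ℂ) -
          r * (cexp (-(1 + 2 * ρ) * u) * ((T u ^ (2 * n) * h u : ℝ) : ℂ))) (Ioi 0) := hRint.sub (hJi1.const_mul r)
      rw [← integral_sub hRint (hJi1.const_mul r), ← integral_sub i3 (hJi2.const_mul _)]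
      congr 1; ext u
      simp only [hR]
      have e3 : conj S₁ = 1 + 2 * conj ρ := by rw [hS, map_add, map_mul, map_one, map_ofNat]
      rw [e3, ← hS]
      ring
    rw [e1, e2, J_conj, rr0_conj, ← hr]
    simp only [map_mul, map_ofNat]
    ring
  have hmain : -2 * r * (Complex.Gamma (ρ + 1) * ((1 / 4 : ℝ) : ℂ) ^ (ρ + 1) * ((1 / n : ℝ) : ℂ) ^ (ρ + 1)) = κ * (n : ℂ) ^ (-1 - ρ) := by
    have e1 : ((1 / n : ℝ) : ℂ) ^ (ρ + 1) = (n : ℂ) ^ (-1 - ρ) := by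
      rw [cpow_pos (by positivity)]
      have : ((n:ℝ):ℂ) ^ (-1 - ρ) = cexp (Real.log n * (-1 - ρ)) := cpow_pos hn0 _
      rw [ofReal_natCast] at this
      rw [this]
      congr 1
      rw [one_div, Real.log_inv]
      push_cast; ring
    rw [e1, hκ]; ring
  have hdiff : (ee n).re - 2 * (κ * (n : ℂ) ^ (-1 - ρ)).re =
      (2 * (∫ u in Ioi (0:ℝ), R u * ((T u ^ (2 * n) * h u : ℝ) : ℂ))).re +
      2 * ((-2 * r) * (J n ρ - Complex.Gamma (ρ + 1) * ((1 / 4 : ℝ) : ℂ) ^ (ρ + 1) * ((1 / n : ℝ) : ℂ) ^ (ρ + 1))).re := by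
    rw [← hmain, hee]
    rw [mul_sub (-2 * r)]
    simp only [sub_re, Complex.conj_re, neg_mul, neg_re]
    ring
  rw [hdiff]
  have b1 : ‖(∫ u in Ioi (0:ℝ), R u * ((T u ^ (2 * n) * h u : ℝ) : ℂ))‖ ≤ C4 * ‖J n (3 / 2)‖ := by
    have := norm_integral_le_of_norm_le (hI0.const_mul C4) (by
      filter_upwards [ae_restrict_mem measurableSet_Ioi] with u hu
      exact hRbd u hu)
    refine this.trans ?_
    rw [integral_const_mul]
    exact mul_le_mul_of_nonneg_left (J_three_half n) hC4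
  have b2 : ‖J n (3 / 2)‖ ≤ (‖Complex.Gamma (3 / 2 + 1) * ((1 / 4 : ℝ) : ℂ) ^ ((3 / 2 : ℂ) + 1)‖ + C2) * (1 / n : ℝ) ^ ((5:ℝ) / 2) := by
    have h1 := hJ2 n hn1
    have h2 : ‖((1 / n : ℝ) : ℂ) ^ ((3 / 2 : ℂ) + 1)‖ = (1 / n : ℝ) ^ ((5:ℝ) / 2) := by
      rw [Complex.norm_cpow_eq_rpow_re_of_pos (by positivity)]
      congr 1; norm_num
    have h3 : (1 / n : ℝ) ^ ((3 / 2 : ℂ).re + 2) ≤ (1 / n : ℝ) ^ ((5:ℝ) / 2) := by
      apply Real.rpow_le_rpow_of_exponent_ge (by positivity) hninv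
      norm_num
    have h4 : ‖J n (3 / 2)‖ ≤ ‖J n (3 / 2) - Complex.Gamma (3 / 2 + 1) * ((1 / 4 : ℝ) : ℂ) ^ ((3 / 2 : ℂ) + 1) * ((1 / n : ℝ) : ℂ) ^ ((3 / 2 : ℂ) + 1)‖ +
        ‖Complex.Gamma (3 / 2 + 1) * ((1 / 4 : ℝ) : ℂ) ^ ((3 / 2 : ℂ) + 1) * ((1 / n : ℝ) : ℂ) ^ ((3 / 2 : ℂ) + 1)‖ := by
      have := norm_add_le (J n (3 / 2) - Complex.Gamma (3 / 2 + 1) * ((1 / 4 : ℝ) : ℂ) ^ ((3 / 2 : ℂ) + 1) * ((1 / n : ℝ) : ℂ) ^ ((3 / 2 : ℂ) + 1))
        (Complex.Gamma (3 / 2 + 1) * ((1 / 4 : ℝ) : ℂ) ^ ((3 / 2 : ℂ) + 1) * ((1 / n : ℝ) : ℂ) ^ ((3 / 2 : ℂ) + 1))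
      rwa [sub_add_cancel] at this
    rw [norm_mul _ (((1 / n : ℝ) : ℂ) ^ ((3 / 2 : ℂ) + 1)), h2] at h4
    have h5 : C2 * (1 / n : ℝ) ^ ((3 / 2 : ℂ).re + 2) ≤ C2 * (1 / n : ℝ) ^ ((5:ℝ) / 2) := mul_le_mul_of_nonneg_left h3 hC2
    linarith
  have b3 : ‖J n ρ - Complex.Gamma (ρ + 1) * ((1 / 4 : ℝ) : ℂ) ^ (ρ + 1) * ((1 / n : ℝ) : ℂ) ^ (ρ + 1)‖ ≤ C1 * (1 / n : ℝ) ^ ((5:ℝ) / 2) := by
    refine (hJ1 n hn1).trans ?_
    apply mul_le_mul_of_nonneg_left _ hC1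
    apply Real.rpow_le_rpow_of_exponent_ge (by positivity) hninv
    linarith
  have hpow : (n : ℝ) ^ (-1 - (3 / 2 : ℝ)) = (1 / n : ℝ) ^ ((5:ℝ) / 2) := by
    rw [one_div, Real.inv_rpow hn0.le, ← Real.rpow_neg hn0.le]
    congr 1; norm_num
  rw [hpow]
  set I0 := ∫ u in Ioi (0:ℝ), R u * ((T u ^ (2 * n) * h u : ℝ) : ℂ)
  set X := J n ρ - Complex.Gamma (ρ + 1) * ((1 / 4 : ℝ) : ℂ) ^ (ρ + 1) * ((1 / n : ℝ) : ℂ) ^ (ρ + 1)
  set p := (1 / n : ℝ) ^ ((5:ℝ) / 2)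
  have c1 : |(2 * I0).re| ≤ 2 * (C4 * ‖J n (3 / 2)‖) := by
    refine (abs_re_le_norm _).trans ?_
    rw [norm_mul]
    simp only [Complex.norm_ofNat]
    linarith
  have c2 : |((-2 * r) * X).re| ≤ 2 * ‖r‖ * (C1 * p) := by
    refine (abs_re_le_norm _).trans ?_
    rw [norm_mul, norm_mul, norm_neg]
    simp only [Complex.norm_ofNat]
    exact mul_le_mul_of_nonneg_left b3 (by positivity)
  rw [Real.norm_eq_abs]
  calc |(2 * I0).re + 2 * ((-2 * r) * X).re| ≤ |(2 * I0).re| + |2 * ((-2 * r) * X).re| := abs_add_le _ _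
    _ = |(2 * I0).re| + 2 * |((-2 * r) * X).re| := by rw [abs_mul]; norm_num
    _ ≤ 2 * (C4 * ((‖Complex.Gamma (3 / 2 + 1) * ((1 / 4 : ℝ) : ℂ) ^ ((3 / 2 : ℂ) + 1)‖ + C2) * p)) + 2 * (2 * ‖r‖ * (C1 * p)) := by
        have c3 : 2 * (C4 * ‖J n (3 / 2)‖) ≤ 2 * (C4 * ((‖Complex.Gamma (3 / 2 + 1) * ((1 / 4 : ℝ) : ℂ) ^ ((3 / 2 : ℂ) + 1)‖ + C2) * p)) := by
          apply mul_le_mul_of_nonneg_left _ (by norm_num)
          exact mul_le_mul_of_nonneg_left b2 hC4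
        linarith
    _ = _ := by ring

end Pool.Agent.E8helper52.OR
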