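import Pool.Agent.E8helper52.OR.Rec

open MeasureTheory Set Filter Topology Complex
open scoped ComplexConjugate

namespace Pool.Agent.E8helper52.OR

/-- `J_n(z) = ∫_0^∞ e^{-(1+2z)u} tanh^{2n} u sech u du` -/
noncomputable def J (n : ℕ) (z : ℂ) : ℂ := ∫ u in Ioi (0:ℝ), cexp (-(1 + 2 * z) * u) * ((T u ^ (2 * n) * h u : ℝ) : ℂ)

/-- `tanh (y/2)` -/
noncomputable def w (y : ℝ) : ℝ := T (y / 2)

lemma w_eq (y : ℝ) : w y = (1 - Real.exp (-y)) / (1 + Real.exp (-y)) := by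
  unfold w T
  rw [Real.tanh_eq]
  have e1 : Real.exp (y / 2) = Real.exp (-y) ^ 0 * Real.exp (y / 2) := by simp
  have e2 : Real.exp (-(y / 2)) = Real.exp (-y) * Real.exp (y / 2) := by
    rw [← Real.exp_add]; congr 1; ring
  rw [e2]
  have h1 := Real.exp_pos (y / 2)
  have h2 := Real.exp_pos (-y)
  have n1 : Real.exp (y / 2) + Real.exp (-y) * Real.exp (y / 2) ≠ 0 := by positivity
  have n2 : 1 + Real.exp (-y) ≠ 0 := by positivity
  rw [div_eq_div_iff n1 n2]
  ring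

lemma one_sub_T (u : ℝ) : 1 - T u = h u * Real.exp (-u) := by
  rw [T_eq, h, Real.sinh_eq, Real.cosh_eq]
  have h1 := Real.exp_pos u
  have h2 := Real.exp_pos (-u)
  field_simp
  ring

lemma one_add_T (u : ℝ) : 1 + T u = h u * Real.exp u := by
  rw [T_eq, h, Real.sinh_eq, Real.cosh_eq]
  have h1 := Real.exp_pos u
  have h2 := Real.exp_pos (-u)
  field_simp
  ring

lemma w_phi {u : ℝ} (hu : 0 < u) : w (-Real.log (T u)) = Real.exp (-2 * u) := by
  have hT := T_pos hu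
  rw [w_eq, neg_neg, Real.exp_log hT, one_sub_T, one_add_T]
  have h1 := h_pos u
  rw [mul_div_mul_left _ _ h1.ne', ← Real.exp_sub]
  congr 1; ring

lemma phi_bij : (fun u => -Real.log (T u)) '' Ioi (0:ℝ) = Ioi 0 := by
  ext y
  simp only [mem_image, mem_Ioi]
  constructor
  · rintro ⟨u, hu, rfl⟩
    have hT := T_pos hu
    have hT1 := (abs_lt.1 (abs_T_lt u)).2
    have := Real.log_neg hT hT1
    linarith
  · intro hy
    have h1 : Real.exp (-y) ∈ Ioo (-1:ℝ) 1 := by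
      constructor
      · linarith [Real.exp_pos (-y)]
      · rw [← Real.exp_zero]; exact Real.exp_lt_exp.2 (by linarith)
    refine ⟨Real.artanh (Real.exp (-y)), Real.artanh_pos ⟨Real.exp_pos _, h1.2⟩, ?_⟩
    unfold T
    rw [Real.tanh_artanh h1, Real.log_exp, neg_neg]

lemma phi_inj : InjOn (fun u => -Real.log (T u)) (Ioi (0:ℝ)) := by
  intro a ha b hb hab
  simp only [neg_inj] at hab
  have h1 := Real.log_injOn_pos (mem_Ioi.2 (T_pos ha)) (mem_Ioi.2 (T_pos hb)) hab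
  exact Real.tanh_injective h1

lemma cpow_pos {x : ℝ} (hx : 0 < x) (z : ℂ) : (x : ℂ) ^ z = cexp (Real.log x * z) := by
  rw [Complex.cpow_def_of_ne_zero (by exact_mod_cast hx.ne'), ← Complex.ofReal_log hx.le]

/-- prefactor -/
noncomputable def P0 (z : ℂ) (y : ℝ) : ℂ := (w y : ℂ) ^ z * ((1 / (1 + Real.exp y) : ℝ) : ℂ)

lemma J_subst (n : ℕ) (z : ℂ) : J n z = ∫ y in Ioi (0:ℝ), P0 z y * ((Real.exp (-(2 * n * y)) : ℝ) : ℂ) := by
  have hder : ∀ u ∈ Ioi (0:ℝ), HasDerivWithinAt (fun u => -Real.log (T u)) (-(h u ^ 2 / T u)) (Ioi 0) u := by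
    intro u hu
    exact ((hasDerivAt_T u).log (T_pos hu).ne').neg.hasDerivWithinAt
  have key := integral_image_eq_integral_abs_deriv_smul measurableSet_Ioi hder phi_inj
    (fun y => P0 z y * ((Real.exp (-(2 * n * y)) : ℝ) : ℂ))
  rw [phi_bij] at key
  rw [key]
  unfold J
  apply setIntegral_congr_fun measurableSet_Ioi
  intro u hu
  have hT := T_pos hu
  have hh := h_pos u
  simp only [P0]
  rw [w_phi hu, abs_neg, abs_of_pos (by positivity)]
  have e1 : ((Real.exp (-2 * u) : ℝ) : ℂ) ^ z = cexp (-(2 * z) * u) := by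
    rw [cpow_pos (Real.exp_pos _) z, Real.log_exp]
    congr 1; push_cast; ring
  have e2 : Real.exp (-(2 * n * -Real.log (T u))) = T u ^ (2 * n) := by
    rw [show -(2 * n * -Real.log (T u)) = ((2 * n : ℕ) : ℝ) * Real.log (T u) by push_cast; ring,
      Real.exp_nat_mul, Real.exp_log hT]
  have e3 : Real.exp (-Real.log (T u)) = (T u)⁻¹ := by
    rw [Real.exp_neg, Real.exp_log hT]
  have e4 : h u ^ 2 / T u * (1 / (1 + (T u)⁻¹)) = h u * Real.exp (-u) := by
    rw [← one_sub_T]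
    have h5 := T_sq_add u
    have h6 : h u ^ 2 = (1 - T u) * (1 + T u) := by linarith
    rw [h6]
    field_simp
    ring
  have e5 : cexp (-(1 + 2 * z) * u) = cexp (-(2 * z) * u) * ((Real.exp (-u) : ℝ) : ℂ) := by
    rw [Complex.ofReal_exp, ← Complex.exp_add]; congr 1; push_cast; ring
  rw [e1, e2, e3, e5, real_smul]
  have e6 : ((h u ^ 2 / T u : ℝ) : ℂ) * (cexp (-(2 * z) * u) * ((1 / (1 + (T u)⁻¹) : ℝ) : ℂ) * ((T u ^ (2 * n) : ℝ) : ℂ)) =
      cexp (-(2 * z) * u) * ((h u ^ 2 / T u * (1 / (1 + (T u)⁻¹)) : ℝ) : ℂ) * ((T u ^ (2 * n) : ℝ) : ℂ) := by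
    push_cast; ring
  rw [e6, e4]
  push_cast; ring

lemma w_pos {y : ℝ} (hy : 0 < y) : 0 < w y := T_pos (by linarith)

lemma w_le {y : ℝ} (hy : 0 < y) : w y ≤ y / 2 := T_le_self (by linarith)

lemma w_ge {y : ℝ} (hy : 0 < y) : y / 2 * Real.exp (-(y / 2)) ≤ w y := by
  unfold w
  rw [T_eq, div_eq_mul_inv]
  have h1 : y / 2 ≤ Real.sinh (y / 2) := Real.self_le_sinh_iff.2 (by linarith)
  have h2 : Real.exp (-(y / 2)) ≤ (Real.cosh (y / 2))⁻¹ := h_ge_exp (by linarith)
  exact mul_le_mul h1 h2 (Real.exp_pos _).le (le_trans (by linarith) h1)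

lemma norm_exp_neg_sub_one {v : ℂ} (hv : 0 ≤ v.re) : ‖cexp (-v) - 1‖ ≤ ‖v‖ := by
  have hconv : Convex ℝ {s : ℂ | (0:ℝ) ≤ s.re} := convex_halfSpace_re_ge 0
  have h1 := hconv.norm_image_sub_le_of_norm_hasDerivWithin_le (𝕜 := ℂ) (f := fun s => cexp (-s))
    (f' := fun s => cexp (-s) * (-1)) (C := 1) (x := 0) (y := v)
    (fun s _ => ((hasDerivAt_id s).neg.cexp).hasDerivWithinAt)
    (fun s hs => by
      rw [norm_mul, Complex.norm_exp]
      simp only [neg_re, norm_neg, norm_one, mul_one]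
      exact Real.exp_le_one_iff.2 (by have : (0:ℝ) ≤ s.re := hs
                                      linarith)) (by simp) hv
  simpa using h1

lemma P0_bound {z : ℂ} (hz : 0 < z.re) {y : ℝ} (hy : 0 < y) :
    ‖P0 z y - (1 / 2) * ((y / 2 : ℝ) : ℂ) ^ z‖ ≤ (‖z‖ + 1) / 2 * (y / 2) ^ (z.re + 1) := by
  have hx : 0 < y / 2 := by linarith
  have hw := w_pos hy
  have hwle := w_le hy
  have hwge := w_ge hy
  set x := y / 2 with hxdef
  -- w^z vs x^z
  have hnx : ‖((x : ℝ) : ℂ) ^ z‖ = x ^ z.re := Complex.norm_cpow_eq_rpow_re_of_pos hx z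
  have hf0 : 0 ≤ Real.log x - Real.log (w y) := sub_nonneg.2 (Real.log_le_log hw hwle)
  have hf1 : Real.log x - Real.log (w y) ≤ x := by
    have h1 : Real.log (x * Real.exp (-x)) ≤ Real.log (w y) := Real.log_le_log (by positivity) hwge
    rw [Real.log_mul hx.ne' (Real.exp_pos _).ne', Real.log_exp] at h1
    linarith
  set f := Real.log x - Real.log (w y) with hfdef
  have e1 : ((w y : ℝ) : ℂ) ^ z = ((x : ℝ) : ℂ) ^ z * cexp (-((f : ℂ) * z)) := by
    rw [cpow_pos hw, cpow_pos hx, ← Complex.exp_add]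
    congr 1
    rw [hfdef]; push_cast; ring
  have h1 : ‖((w y : ℝ) : ℂ) ^ z - ((x : ℝ) : ℂ) ^ z‖ ≤ x ^ z.re * (x * ‖z‖) := by
    rw [e1, ← mul_sub_one, norm_mul, hnx]
    apply mul_le_mul_of_nonneg_left _ (by positivity)
    refine (norm_exp_neg_sub_one ?_).trans ?_
    · rw [Complex.re_ofReal_mul]; positivity
    · rw [norm_mul, Complex.norm_real, Real.norm_eq_abs, abs_of_nonneg hf0]
      exact mul_le_mul_of_nonneg_right hf1 (norm_nonneg _)
  have hq0 : 0 < 1 / (1 + Real.exp y) := by positivity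
  have hq1 : 1 / (1 + Real.exp y) ≤ 1 / 2 := by
    apply one_div_le_one_div_of_le (by norm_num)
    have := Real.one_le_exp hy.le
    linarith
  have hq2 : |1 / (1 + Real.exp y) - 1 / 2| ≤ x / 2 := by
    rw [abs_of_nonpos (by linarith)]
    have h2 : 1 / 2 - 1 / (1 + Real.exp y) = w y / 2 := by
      rw [w_eq, Real.exp_neg]
      have := Real.exp_pos y
      field_simp
      ring
    rw [neg_sub, h2]; linarith
  have e2 : P0 z y - (1 / 2) * ((x : ℝ) : ℂ) ^ z = (((w y : ℝ) : ℂ) ^ z - ((x : ℝ) : ℂ) ^ z) * ((1 / (1 + Real.exp y) : ℝ) : ℂ) +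
      ((x : ℝ) : ℂ) ^ z * ((1 / (1 + Real.exp y) - 1 / 2 : ℝ) : ℂ) := by
    unfold P0; push_cast; ring
  rw [e2]
  calc _ ≤ ‖(((w y : ℝ) : ℂ) ^ z - ((x : ℝ) : ℂ) ^ z)‖ * ‖((1 / (1 + Real.exp y) : ℝ) : ℂ)‖ +
        ‖((x : ℝ) : ℂ) ^ z‖ * ‖((1 / (1 + Real.exp y) - 1 / 2 : ℝ) : ℂ)‖ := by
        rw [← norm_mul, ← norm_mul]; exact norm_add_le _ _
    _ ≤ (x ^ z.re * (x * ‖z‖)) * (1 / 2) + x ^ z.re * (x / 2) := by
        rw [Complex.norm_real, Complex.norm_real, Real.norm_eq_abs, Real.norm_eq_abs, abs_of_pos hq0, hnx]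
        gcongr
    _ = (‖z‖ + 1) / 2 * (x ^ z.re * x) := by ring
    _ = _ := by rw [Real.rpow_add hx, Real.rpow_one]

lemma rpow_int {a : ℝ} (ha : 0 < a) {r : ℝ} (hr : 0 < r) :
    IntegrableOn (fun y : ℝ => y ^ (a - 1) * Real.exp (-(r * y))) (Ioi 0) := by
  have h1 := (Real.GammaIntegral_convergent ha)
  have h2 := (integrableOn_Ioi_comp_mul_left_iff (fun x : ℝ => Real.exp (-x) * x ^ (a - 1)) 0 hr).2 (by simpa using h1)
  refine ((h2.const_mul (r ^ (-(a - 1)))).congr ?_)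
  filter_upwards [ae_restrict_mem measurableSet_Ioi] with y hy
  have hy' : (0:ℝ) < y := hy
  rw [Real.mul_rpow hr.le hy'.le]
  have : r ^ (-(a - 1)) * (Real.exp (-(r * y)) * (r ^ (a - 1) * y ^ (a - 1))) =
      (r ^ (-(a - 1)) * r ^ (a - 1)) * (y ^ (a - 1) * Real.exp (-(r * y))) := by ring
  rw [this, ← Real.rpow_add hr]
  simp

/-- asymptotics of `J_n(z)` -/
theorem J_asymp {z : ℂ} (hz : 0 < z.re) : ∃ C, 0 ≤ C ∧ ∀ n : ℕ, 1 ≤ n →
    ‖J n z - Complex.Gamma (z + 1) * ((1 / 4 : ℝ) : ℂ) ^ (z + 1) * ((1 / n : ℝ) : ℂ) ^ (z + 1)‖ ≤ C * (1 / n : ℝ) ^ (z.re + 2) := by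
  refine ⟨(‖z‖ + 1) / 2 * (1 / 2) ^ (z.re + 1) * ((1 / 2) ^ (z.re + 2) * Real.Gamma (z.re + 2)), ?_, fun n hn => ?_⟩
  · have := (Real.Gamma_pos_of_pos (show 0 < z.re + 2 by linarith)).le
    positivity
  have hn0 : (0:ℝ) < n := by exact_mod_cast hn
  have hr : (0:ℝ) < 2 * n := by positivity
  -- main term
  have hmain : ∫ y in Ioi (0:ℝ), ((1 / 2) * ((y / 2 : ℝ) : ℂ) ^ z) * ((Real.exp (-(2 * n * y)) : ℝ) : ℂ) =
      Complex.Gamma (z + 1) * ((1 / 4 : ℝ) : ℂ) ^ (z + 1) * ((1 / n : ℝ) : ℂ) ^ (z + 1) := by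
    have h1 := Complex.integral_cpow_mul_exp_neg_mul_Ioi (a := z + 1) (r := 2 * n) (by simp; linarith) hr
    have e1 : ∫ y in Ioi (0:ℝ), ((1 / 2) * ((y / 2 : ℝ) : ℂ) ^ z) * ((Real.exp (-(2 * n * y)) : ℝ) : ℂ) =
        (1 / 2) * ((1 / 2 : ℝ) : ℂ) ^ z * ∫ y in Ioi (0:ℝ), (y : ℂ) ^ (z + 1 - 1) * cexp (-(((2 * n : ℝ) : ℂ) * y)) := by
      rw [← integral_const_mul]
      apply setIntegral_congr_fun measurableSet_Ioi
      intro y hy
      have hy' : (0:ℝ) < y := hy
      simp only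
      rw [show y / 2 = (1 / 2) * y by ring, Complex.ofReal_mul,
        Complex.mul_cpow_ofReal_nonneg (by norm_num) hy'.le, add_sub_cancel_right]
      push_cast
      ring
    rw [e1, h1]
    have e2 : ((1 / 4 : ℝ) : ℂ) ^ (z + 1) * ((1 / n : ℝ) : ℂ) ^ (z + 1) =
        (((1 / 2 : ℝ) : ℂ) ^ (z + 1)) * (((1 / (2 * n) : ℝ) : ℂ) ^ (z + 1)) := by
      rw [← Complex.mul_cpow_ofReal_nonneg (by norm_num) (by positivity),
        ← Complex.mul_cpow_ofReal_nonneg (by norm_num) (by positivity), ← Complex.ofReal_mul, ← Complex.ofReal_mul]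
      congr 2; field_simp; norm_num
    have e3 : ((1 / 2 : ℝ) : ℂ) ^ (z + 1) = (1 / 2) * ((1 / 2 : ℝ) : ℂ) ^ z := by
      rw [Complex.cpow_add _ _ (by norm_num), Complex.cpow_one]; push_cast; ring
    have e7 : ((1 / (2 * n) : ℝ) : ℂ) = 1 / ((2 * n : ℝ) : ℂ) := by push_cast; ring
    rw [e7, e3] at e2
    linear_combination (-Complex.Gamma (z + 1)) * e2
  rw [J_subst, ← hmain]
  -- integrability
  have hre : (0:ℝ) < z.re + 1 := by linarith
  have i2 : IntegrableOn (fun y : ℝ => ((1 / 2) * ((y / 2 : ℝ) : ℂ) ^ z) * ((Real.exp (-(2 * n * y)) : ℝ) : ℂ)) (Ioi 0) := by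
    have hb := (rpow_int hre hr).const_mul ((1 / 2) * (1 / 2) ^ z.re)
    refine hb.mono' ?_ ?_
    · apply ContinuousOn.aestronglyMeasurable _ measurableSet_Ioi
      apply ContinuousOn.mul
      · apply ContinuousOn.mul continuousOn_const
        intro y hy
        have hy' : (0:ℝ) < y := hy
        apply ContinuousAt.continuousWithinAt
        apply ContinuousAt.cpow (by fun_prop) continuousAt_const
        left
        rw [ofReal_re]; linarith
      · fun_prop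
    · filter_upwards [ae_restrict_mem measurableSet_Ioi] with y hy
      have hy' : (0:ℝ) < y := hy
      rw [norm_mul, norm_mul, Complex.norm_cpow_eq_rpow_re_of_pos (by linarith), Complex.norm_real, Real.norm_eq_abs,
        abs_of_pos (Real.exp_pos _), add_sub_cancel_right, show y / 2 = (1 / 2) * y by ring,
        Real.mul_rpow (by norm_num) hy'.le]
      apply le_of_eq
      simp
      ring
  have hre2 : (0:ℝ) < z.re + 2 := by linarith
  have i3 := (rpow_int hre2 hr).const_mul ((‖z‖ + 1) / 2 * (1 / 2) ^ (z.re + 1))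
  have hdiff : ∀ y ∈ Ioi (0:ℝ), ‖(P0 z y - (1 / 2) * ((y / 2 : ℝ) : ℂ) ^ z) * ((Real.exp (-(2 * n * y)) : ℝ) : ℂ)‖ ≤
      ((‖z‖ + 1) / 2 * (1 / 2) ^ (z.re + 1)) * (y ^ (z.re + 2 - 1) * Real.exp (-(2 * n * y))) := by
    intro y hy
    have hy' : (0:ℝ) < y := hy
    rw [norm_mul, Complex.norm_real, Real.norm_eq_abs, abs_of_pos (Real.exp_pos _)]
    have := P0_bound hz hy'
    calc _ ≤ ((‖z‖ + 1) / 2 * (y / 2) ^ (z.re + 1)) * Real.exp (-(2 * n * y)) :=
          mul_le_mul_of_nonneg_right this (Real.exp_pos _).le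
      _ = _ := by
          rw [show y / 2 = (1 / 2) * y by ring, Real.mul_rpow (by norm_num) hy'.le,
            show z.re + 2 - 1 = z.re + 1 by ring]
          ring
  have i1d : IntegrableOn (fun y : ℝ => (P0 z y - (1 / 2) * ((y / 2 : ℝ) : ℂ) ^ z) * ((Real.exp (-(2 * n * y)) : ℝ) : ℂ)) (Ioi 0) := by
    refine i3.mono' ?_ ?_
    · apply ContinuousOn.aestronglyMeasurable _ measurableSet_Ioi
      apply ContinuousOn.mul
      · apply ContinuousOn.sub
        · unfold P0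
          apply ContinuousOn.mul
          · intro y hy
            have hy' : (0:ℝ) < y := hy
            apply ContinuousAt.continuousWithinAt
            have hwc : Continuous w := continuous_T.comp (by fun_prop)
            apply ContinuousAt.cpow (by fun_prop) continuousAt_const
            left
            rw [ofReal_re]; exact w_pos hy'
          · apply Continuous.continuousOn
            have : ∀ y : ℝ, 1 + Real.exp y ≠ 0 := fun y => by positivity
            exact continuous_ofReal.comp (continuous_const.div (by fun_prop) this)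
        · apply ContinuousOn.mul continuousOn_const
          intro y hy
          have hy' : (0:ℝ) < y := hy
          apply ContinuousAt.continuousWithinAt
          apply ContinuousAt.cpow (by fun_prop) continuousAt_const
          left
          rw [ofReal_re]; linarith
      · fun_prop
    · filter_upwards [ae_restrict_mem measurableSet_Ioi] with y hy
      exact hdiff y hy
  have hsplit : ∫ y in Ioi (0:ℝ), P0 z y * ((Real.exp (-(2 * n * y)) : ℝ) : ℂ) =
      (∫ y in Ioi (0:ℝ), (P0 z y - (1 / 2) * ((y / 2 : ℝ) : ℂ) ^ z) * ((Real.exp (-(2 * n * y)) : ℝ) : ℂ)) +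
      ∫ y in Ioi (0:ℝ), ((1 / 2) * ((y / 2 : ℝ) : ℂ) ^ z) * ((Real.exp (-(2 * n * y)) : ℝ) : ℂ) := by
    rw [← integral_add i1d i2]
    congr 1; ext y; ring
  rw [hsplit, add_sub_cancel_right]
  have h3 := norm_integral_le_of_norm_le i3 (by
    filter_upwards [ae_restrict_mem measurableSet_Ioi] with y hy
    exact hdiff y hy)
  refine h3.trans (le_of_eq ?_)
  rw [integral_const_mul, Real.integral_rpow_mul_exp_neg_mul_Ioi hre2 hr]
  have e5 : (1 / (2 * (n:ℝ))) ^ (z.re + 2) = (1 / 2) ^ (z.re + 2) * (1 / n) ^ (z.re + 2) := by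
    rw [← Real.mul_rpow (by norm_num) (by positivity)]
    congr 1; field_simp
  rw [e5]
  ring

end Pool.Agent.E8helper52.OR
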