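import Pool.Agent.E8helper52.OR.Basic

open MeasureTheory Set Filter Topology Complex

namespace Pool.Agent.E8helper52.OR

lemma dec_h : Dec 1 h := by
  refine ⟨continuous_h, 2, by norm_num, fun b _ => ?_⟩
  rw [abs_of_pos (h_pos b)]
  simpa using h_le_exp b

lemma Dec.mul_bdd {c : ℝ} {f g : ℝ → ℝ} (hf : Dec c f) (hg : Continuous g) {M : ℝ} (hM : ∀ b, |g b| ≤ M) :
    Dec c (fun b => f b * g b) := by
  obtain ⟨hc, C, hC, hb⟩ := hf
  have hM0 : 0 ≤ M := (abs_nonneg _).trans (hM 0)
  refine ⟨hc.mul hg, C * M, by positivity, fun b hb0 => ?_⟩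
  rw [abs_mul]
  calc |f b| * |g b| ≤ (C * Real.exp (-c * b)) * M := by
        apply mul_le_mul (hb b hb0) (hM b) (abs_nonneg _) (by positivity)
    _ = C * M * Real.exp (-c * b) := by ring

lemma Dec.add {c : ℝ} {f g : ℝ → ℝ} (hf : Dec c f) (hg : Dec c g) : Dec c (fun b => f b + g b) := by
  obtain ⟨hc, C, hC, hb⟩ := hf
  obtain ⟨hc', C', hC', hb'⟩ := hg
  refine ⟨hc.add hc', C + C', by positivity, fun b hb0 => ?_⟩
  calc |f b + g b| ≤ |f b| + |g b| := abs_add_le _ _
    _ ≤ C * Real.exp (-c * b) + C' * Real.exp (-c * b) := add_le_add (hb b hb0) (hb' b hb0)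
    _ = _ := by ring

lemma Dec.mono {c c' : ℝ} {f : ℝ → ℝ} (hf : Dec c f) (h' : c' ≤ c) : Dec c' f := by
  obtain ⟨hc, C, hC, hb⟩ := hf
  refine ⟨hc, C, hC, fun b hb0 => (hb b hb0).trans ?_⟩
  apply mul_le_mul_of_nonneg_left _ hC
  apply Real.exp_le_exp.2
  nlinarith

lemma Dec.id_mul {c c' : ℝ} {f : ℝ → ℝ} (hf : Dec c f) (h' : c' < c) : Dec c' (fun b => b * f b) := by
  obtain ⟨hc, C, hC, hb⟩ := hf
  refine ⟨continuous_id.mul hc, C / (c - c'), by have : 0 < c - c' := by linarith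
                                                 positivity, fun b hb0 => ?_⟩
  have hcc : 0 < c - c' := by linarith
  rw [abs_mul, abs_of_nonneg hb0]
  have h1 : (c - c') * b ≤ Real.exp ((c - c') * b) := by
    have := Real.add_one_le_exp ((c - c') * b)
    linarith
  calc b * |f b| ≤ b * (C * Real.exp (-c * b)) := mul_le_mul_of_nonneg_left (hb b hb0) hb0
    _ = C / (c - c') * (((c - c') * b) * Real.exp (-c * b)) := by field_simp
    _ ≤ C / (c - c') * (Real.exp ((c - c') * b) * Real.exp (-c * b)) := by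
        apply mul_le_mul_of_nonneg_left _ (by positivity)
        exact mul_le_mul_of_nonneg_right h1 (Real.exp_pos _).le
    _ = C / (c - c') * Real.exp (-c' * b) := by rw [← Real.exp_add]; congr 2; ring

lemma T_sq_le (b : ℝ) : T b ^ 2 ≤ 1 := by
  have := T_sq_add b
  nlinarith [sq_nonneg (h b)]

/-- first derivative of sech -/
noncomputable def f1 (b : ℝ) : ℝ := h b * (-T b)
noncomputable def f2 (b : ℝ) : ℝ := h b * (2 * T b ^ 2 - 1)
noncomputable def f3 (b : ℝ) : ℝ := h b * (5 * T b - 6 * T b ^ 3)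
noncomputable def f4 (b : ℝ) : ℝ := h b * (5 - 28 * T b ^ 2 + 24 * T b ^ 4)
noncomputable def f5 (b : ℝ) : ℝ := h b * (-61 * T b + 180 * T b ^ 3 - 120 * T b ^ 5)

lemma hd0 (b : ℝ) : HasDerivAt h (f1 b) b := by
  refine (hasDerivAt_h b).congr_deriv ?_
  rw [f1]; ring

lemma hd1 (b : ℝ) : HasDerivAt f1 (f2 b) b := by
  have h1 := (hasDerivAt_h b).mul (hasDerivAt_T b).fun_neg
  refine h1.congr_deriv ?_
  have e := T_sq_add b
  have e2 : h b ^ 2 = 1 - T b ^ 2 := by linarith
  rw [f2, e2]; ring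

lemma hd2 (b : ℝ) : HasDerivAt f2 (f3 b) b := by
  have h1 := (hasDerivAt_h b).mul ((((hasDerivAt_T b).fun_pow 2).const_mul 2).sub_const 1)
  refine h1.congr_deriv ?_
  have e := T_sq_add b
  have e2 : h b ^ 2 = 1 - T b ^ 2 := by linarith
  rw [f3, e2]; push_cast; ring

lemma hd3 (b : ℝ) : HasDerivAt f3 (f4 b) b := by
  have h1 := (hasDerivAt_h b).mul (((hasDerivAt_T b).const_mul 5).sub (((hasDerivAt_T b).fun_pow 3).const_mul 6))
  refine h1.congr_deriv ?_
  have e := T_sq_add b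
  have e2 : h b ^ 2 = 1 - T b ^ 2 := by linarith
  simp only [Pi.sub_apply]
  rw [f4, e2]; push_cast; ring

lemma hd4 (b : ℝ) : HasDerivAt f4 (f5 b) b := by
  have h1 := (hasDerivAt_h b).mul (((hasDerivAt_const b (5:ℝ)).sub (((hasDerivAt_T b).fun_pow 2).const_mul 28)).add
    (((hasDerivAt_T b).fun_pow 4).const_mul 24))
  refine (h1.congr_deriv ?_).congr_of_eventuallyEq ?_
  · have e := T_sq_add b
    have e2 : h b ^ 2 = 1 - T b ^ 2 := by linarith
    simp only [Pi.sub_apply, Pi.add_apply]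
    rw [f5, e2]; push_cast; ring
  · filter_upwards with x
    simp [f4]

lemma abs_T_le (b : ℝ) : |T b| ≤ 1 := (abs_T_lt b).le

lemma dec1 : Dec 1 f1 := dec_h.mul_bdd continuous_T.neg (M := 1) (fun b => by simpa using abs_T_le b)

lemma dec2 : Dec 1 f2 := dec_h.mul_bdd (by have := continuous_T; fun_prop) (M := 1) (fun b => by
  rw [abs_le]; constructor <;> nlinarith [T_sq_le b, sq_nonneg (T b)])

lemma dec3 : Dec 1 f3 := dec_h.mul_bdd (by have := continuous_T; fun_prop) (M := 11) (fun b => by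
  have h1 := abs_T_le b
  have h3 : |T b ^ 3| ≤ 1 := by rw [abs_pow]; exact pow_le_one₀ (abs_nonneg _) h1
  calc |5 * T b - 6 * T b ^ 3| ≤ |5 * T b| + |6 * T b ^ 3| := abs_sub _ _
    _ = 5 * |T b| + 6 * |T b ^ 3| := by rw [abs_mul, abs_mul]; norm_num
    _ ≤ 11 := by linarith)

lemma dec4 : Dec 1 f4 := dec_h.mul_bdd (by have := continuous_T; fun_prop) (M := 57) (fun b => by
  have h2 := T_sq_le b
  have h2' := sq_nonneg (T b)
  have h4 : T b ^ 4 ≤ 1 := by nlinarith
  have h4' : 0 ≤ T b ^ 4 := by positivity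
  rw [abs_le]; constructor <;> linarith)

lemma f5_le (b : ℝ) : |f5 b| ≤ 361 * h b := by
  have h1 := abs_T_le b
  have h3 : |T b ^ 3| ≤ 1 := by rw [abs_pow]; exact pow_le_one₀ (abs_nonneg _) h1
  have h5 : |T b ^ 5| ≤ 1 := by rw [abs_pow]; exact pow_le_one₀ (abs_nonneg _) h1
  have e : |(-61 * T b + 180 * T b ^ 3 - 120 * T b ^ 5)| ≤ 361 := by
    rw [abs_le] at *
    constructor <;> linarith
  rw [f5, abs_mul, abs_of_pos (h_pos b)]
  nlinarith [h_pos b]

lemma dec5 : Dec 1 f5 := by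
  refine ⟨?_, 722, by norm_num, fun b _ => (f5_le b).trans ?_⟩
  · have := continuous_T
    have := continuous_h
    unfold f5; fun_prop
  · have := h_le_exp b
    simp only [neg_mul, one_mul]
    linarith

/-- `K(s) = ∫_0^∞ e^{-sb} sech b db` -/
noncomputable def K (s : ℂ) : ℂ := L h s

lemma K_step0 {s : ℂ} (hs : -1 < s.re) : s * K s = 1 + L f1 s := by
  have := dec_h.byparts dec1 hd0 (s := s) (by linarith)
  rw [h_zero] at this
  simpa [K] using this

lemma K_step1 {s : ℂ} (hs : -1 < s.re) : s * L f1 s = L f2 s := by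
  have := dec1.byparts dec2 hd1 (s := s) (by linarith)
  simpa [f1, T_zero] using this

lemma K_step2 {s : ℂ} (hs : -1 < s.re) : s * L f2 s = -1 + L f3 s := by
  have := dec2.byparts dec3 hd2 (s := s) (by linarith)
  simpa [f2, T_zero, h_zero] using this

lemma K_step3 {s : ℂ} (hs : -1 < s.re) : s * L f3 s = L f4 s := by
  have := dec3.byparts dec4 hd3 (s := s) (by linarith)
  simpa [f3, T_zero, h_zero] using this

lemma K_step4 {s : ℂ} (hs : -1 < s.re) : s * L f4 s = 5 + L f5 s := by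
  have := dec4.byparts dec5 hd4 (s := s) (by linarith)
  simpa [f4, T_zero, h_zero] using this

lemma integrableOn_h : IntegrableOn h (Ioi 0) := by
  have h1 : IntegrableOn (fun b : ℝ => 2 * Real.exp (-1 * b)) (Ioi 0) :=
    (exp_neg_integrableOn_Ioi 0 (by norm_num)).const_mul 2
  refine h1.mono' continuous_h.aestronglyMeasurable ?_
  filter_upwards with b
  rw [Real.norm_eq_abs, abs_of_pos (h_pos b)]
  simpa using h_le_exp b

lemma integral_h_le : ∫ b in Ioi (0:ℝ), h b ≤ 2 := by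
  have h1 : IntegrableOn (fun b : ℝ => 2 * Real.exp (-1 * b)) (Ioi 0) :=
    (exp_neg_integrableOn_Ioi 0 (by norm_num)).const_mul 2
  have h2 := integral_mono integrableOn_h h1 (fun b => by simpa using h_le_exp b)
  refine h2.trans ?_
  rw [integral_const_mul]
  have := integral_exp_neg_Ioi 0
  simp only [neg_mul, one_mul]
  rw [this]; simp

lemma exp_neg_le_one {x b : ℝ} (hx : 0 ≤ x) (hb : 0 ≤ b) : Real.exp (-x * b) ≤ 1 := by
  apply Real.exp_le_one_iff.2
  nlinarith

/-- main asymptotic estimate -/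
lemma K_asymp {s : ℂ} (hs : 0 ≤ s.re) :
    ‖s ^ 5 * K s - s ^ 4 + s ^ 2 - 5‖ ≤ 722 := by
  have hs' : -1 < s.re := by linarith
  have e : s ^ 5 * K s - s ^ 4 + s ^ 2 - 5 = L f5 s := by
    linear_combination s ^ 4 * K_step0 hs' + s ^ 3 * K_step1 hs' + s ^ 2 * K_step2 hs' + s * K_step3 hs' + K_step4 hs'
  rw [e]
  have h1 : IntegrableOn (fun b => 361 * h b) (Ioi 0) := integrableOn_h.const_mul 361
  refine (norm_L_le h1 (fun b hb => ?_)).trans ?_
  · calc Real.exp (-s.re * b) * |f5 b| ≤ 1 * |f5 b| :=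
        mul_le_mul_of_nonneg_right (exp_neg_le_one hs hb.le) (abs_nonneg _)
      _ ≤ 361 * h b := by rw [one_mul]; exact f5_le b
  · rw [integral_const_mul]
    linarith [integral_h_le]

/-- the function `b sech b` -/
noncomputable def g0 (b : ℝ) : ℝ := b * h b

lemma dec_g0 {c : ℝ} (hc : c < 1) : Dec c g0 := dec_h.id_mul hc

/-- `K` is holomorphic on `Re s > -1`. -/
lemma hasDerivAt_K {s : ℂ} (hs : -1 < s.re) : HasDerivAt K (- L g0 s) s := by
  set ε : ℝ := (s.re + 1) / 4 with hε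
  have hε0 : 0 < ε := by rw [hε]; linarith
  set c : ℝ := 1 - ε with hcdef
  have hdec : Dec c g0 := dec_g0 (by rw [hcdef]; linarith)
  have key := hasDerivAt_integral_of_dominated_loc_of_deriv_le (μ := volume.restrict (Ioi (0:ℝ)))
    (F := fun (z : ℂ) (b : ℝ) => cexp (-z * b) * (h b : ℂ))
    (F' := fun (z : ℂ) (b : ℝ) => -(b:ℂ) * (cexp (-z * b) * (h b : ℂ)))
    (x₀ := s) (s := Metric.ball s ε) (Metric.ball_mem_nhds s hε0)
    (bound := fun b : ℝ => b * (Real.exp (-(s.re - ε) * b) * h b))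
    ?_ ?_ ?_ ?_ ?_ ?_
  · have h2 := key.2
    have e : (∫ b in Ioi (0:ℝ), -(b:ℂ) * (cexp (-s * b) * (h b : ℂ))) = - L g0 s := by
      rw [L, ← integral_neg]
      congr 1; ext b
      simp only [g0]; push_cast; ring
    rw [e] at h2
    exact h2
  · filter_upwards with z
    apply Continuous.aestronglyMeasurable
    have := continuous_h
    fun_prop
  · exact dec_h.integrableOn (by linarith)
  · apply Continuous.aestronglyMeasurable
    have := continuous_h
    fun_prop
  · filter_upwards [ae_restrict_mem measurableSet_Ioi] with b hb z hz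
    have hb' : 0 ≤ b := le_of_lt hb
    have hz' : s.re - ε ≤ z.re := by
      have h1 := abs_re_le_norm (z - s)
      rw [Metric.mem_ball, dist_eq_norm] at hz
      have h2 := (abs_le.1 (h1.trans hz.le)).1
      simp only [sub_re] at h2
      linarith
    rw [norm_mul, norm_mul, norm_neg, Complex.norm_exp, Complex.norm_real, Complex.norm_real,
      Real.norm_eq_abs, Real.norm_eq_abs, abs_of_nonneg hb', abs_of_pos (h_pos b)]
    have e1 : (-z * (b:ℂ)).re = - z.re * b := by simp
    rw [e1]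
    apply mul_le_mul_of_nonneg_left _ hb'
    apply mul_le_mul_of_nonneg_right _ (h_pos b).le
    apply Real.exp_le_exp.2
    nlinarith
  · have h1 := hdec.integrableOn (s := ((s.re - ε : ℝ) : ℂ)) (by
      simp only [ofReal_re]; rw [hcdef]; linarith)
    have h2 := h1.norm
    refine h2.congr ?_
    filter_upwards [ae_restrict_mem measurableSet_Ioi] with b hb
    have hb' : 0 ≤ b := le_of_lt hb
    rw [norm_mul, Complex.norm_exp, Complex.norm_real, Real.norm_eq_abs, g0, abs_mul,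
      abs_of_nonneg hb', abs_of_pos (h_pos b)]
    have e1 : (-((s.re - ε : ℝ) : ℂ) * (b:ℂ)).re = -(s.re - ε) * b := by
      rw [← ofReal_neg, ← ofReal_mul, ofReal_re]
    rw [e1]; ring
  · filter_upwards with b z _
    have h1 : HasDerivAt (fun z : ℂ => cexp (-z * b)) (cexp (-z * b) * (-1 * b)) z := by
      exact ((hasDerivAt_id z).neg.mul_const (b:ℂ)).cexp
    have h2 := h1.mul_const (h b : ℂ)
    refine h2.congr_deriv ?_
    ring

lemma differentiableAt_K {s : ℂ} (hs : -1 < s.re) : DifferentiableAt ℂ K s :=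
  (hasDerivAt_K hs).differentiableAt

end Pool.Agent.E8helper52.OR
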