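import Pool.Agent.E8helper52.OR.Poisson

open MeasureTheory Set Filter Topology Complex
open scoped ComplexConjugate

namespace Pool.Agent.E8helper52.OR

/-- the kernel with residue one at `S` -/
noncomputable def kk (S z : ℂ) : ℂ := 1 / (z - S) - 1 / (z + 1)

lemma kk_bound {S z : ℂ} (him : 2 * ‖S‖ + 1 ≤ |z.im|) : ‖kk S z‖ ≤ 2 * ‖S + 1‖ / z.im ^ 2 := by
  have hS := norm_nonneg S
  have hy : 0 < |z.im| := by linarith
  have h1 : |z.im| / 2 ≤ ‖z - S‖ := by
    have h2 := norm_sub_norm_le z S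
    have h3 := abs_im_le_norm z
    linarith
  have h2 : |z.im| ≤ ‖z + 1‖ := by
    have := abs_im_le_norm (z + 1)
    simpa using this
  have n1 : z - S ≠ 0 := by
    intro h0; rw [h0, norm_zero] at h1; linarith
  have n2 : z + 1 ≠ 0 := by
    intro h0; rw [h0, norm_zero] at h2; linarith
  have e : kk S z = (S + 1) / ((z - S) * (z + 1)) := by
    unfold kk; field_simp; ring
  rw [e, norm_div, norm_mul]
  calc ‖S + 1‖ / (‖z - S‖ * ‖z + 1‖) ≤ ‖S + 1‖ / (|z.im| / 2 * |z.im|) := by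
        apply div_le_div_of_nonneg_left (norm_nonneg _) (by positivity)
        exact mul_le_mul h1 h2 hy.le (norm_nonneg _)
    _ = 2 * ‖S + 1‖ / z.im ^ 2 := by rw [← sq_abs z.im]; field_simp

lemma kk_left {S : ℂ} (hS : 0 < S.re) : ∫ y : ℝ, kk S (y * I) = - (2 * Real.pi) := by
  have h1 := poisson_plus (P := fun z => (S + 1) / (1 + z)) (C := 2 * ‖S + 1‖) (T := 2)
    (fun z hz => by
      apply DifferentiableAt.div (by fun_prop) (by fun_prop)
      intro h0
      have := congrArg Complex.re h0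
      simp at this; linarith) (by positivity) (by norm_num) (by
      intro z hz hzT
      have h2 : ‖z‖ / 2 ≤ ‖1 + z‖ := by
        have := norm_sub_norm_le z (-1)
        rw [norm_neg, norm_one, sub_neg_eq_add, add_comm z 1] at this
        linarith
      rw [norm_div]
      calc ‖S + 1‖ / ‖1 + z‖ ≤ ‖S + 1‖ / (‖z‖ / 2) := div_le_div_of_nonneg_left (norm_nonneg _) (by linarith) h2
        _ = _ := by field_simp) hS
  have hne : S + 1 ≠ 0 := by
    intro h0
    have := congrArg Complex.re h0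
    simp at this; linarith
  have e : ∀ y : ℝ, kk S (y * I) = - ((S + 1) / (1 + y * I) / (S - y * I)) := by
    intro y
    have n1 : S - y * I ≠ 0 := by
      intro h0
      have := congrArg Complex.re h0
      simp at this; linarith
    have n2 : (1 + y * I : ℂ) ≠ 0 := by
      intro h0
      have := congrArg Complex.re h0
      simp at this
    have n3 : (y * I + 1 : ℂ) ≠ 0 := by rwa [add_comm] at n2
    unfold kk
    rw [show (y * I - S : ℂ) = -(S - y * I) by ring, add_comm (y * I : ℂ) 1]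
    field_simp
    ring
  simp_rw [e]
  rw [integral_neg, h1, add_comm 1 S]
  field_simp

lemma kk_right {S : ℂ} (hS : S.re < 4) : ∫ y : ℝ, kk S (4 + y * I) = 0 := by
  have h1 := poisson_minus (P := fun z => (S + 1) / (5 + z)) (C := 2 * ‖S + 1‖) (T := 10)
    (fun z hz => by
      apply DifferentiableAt.div (by fun_prop) (by fun_prop)
      intro h0
      have := congrArg Complex.re h0
      simp at this; linarith) (by positivity) (by norm_num) (by
      intro z hz hzT
      have h2 : ‖z‖ / 2 ≤ ‖5 + z‖ := by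
        have := norm_sub_norm_le z (-5)
        rw [norm_neg, sub_neg_eq_add, add_comm z 5] at this
        simp only [Complex.norm_ofNat] at this
        linarith
      rw [norm_div]
      calc ‖S + 1‖ / ‖5 + z‖ ≤ ‖S + 1‖ / (‖z‖ / 2) := div_le_div_of_nonneg_left (norm_nonneg _) (by linarith) h2
        _ = _ := by field_simp) (t := 4 - S) (by simp; linarith)
  rw [← h1]
  congr 1; ext y
  have n1 : 4 - S + y * I ≠ 0 := by
    intro h0
    have := congrArg Complex.re h0
    simp at this; linarith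
  have n2 : (5 + y * I : ℂ) ≠ 0 := by
    intro h0
    have := congrArg Complex.re h0
    simp at this
  unfold kk
  rw [show (4 + y * I - S : ℂ) = 4 - S + y * I by ring, show (4 + y * I + 1 : ℂ) = 5 + y * I by ring]
  field_simp
  ring

theorem two_pole {N Dn q : ℂ → ℂ} {S₁ S₂ : ℂ} (h1 : 0 < S₁.re) (h1' : S₁.re < 4) (h2 : 0 < S₂.re) (h2' : S₂.re < 4)
    (hne : S₁ ≠ S₂)
    (hN : ∀ z : ℂ, 0 ≤ z.re → z.re ≤ 4 → DifferentiableAt ℂ N z)
    (hD : ∀ z : ℂ, 0 ≤ z.re → z.re ≤ 4 → DifferentiableAt ℂ Dn z)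
    (hq : ∀ z : ℂ, 0 ≤ z.re → z.re ≤ 4 → DifferentiableAt ℂ q z)
    (hz : ∀ z : ℂ, 0 ≤ z.re → z.re ≤ 4 → Dn z = 0 → z = S₁ ∨ z = S₂) (hz1 : Dn S₁ = 0) (hz2 : Dn S₂ = 0)
    {d₁ d₂ : ℂ} (hd1 : HasDerivAt Dn d₁ S₁) (hd2 : HasDerivAt Dn d₂ S₂) (hd1' : d₁ ≠ 0) (hd2' : d₂ ≠ 0)
    {C T : ℝ} (hC : 0 ≤ C) (hT : 1 ≤ T)
    (hb : ∀ z : ℂ, 0 ≤ z.re → z.re ≤ 4 → T ≤ |z.im| → ‖N z / Dn z + q z‖ ≤ C / z.im ^ 2) :
    ∫ y : ℝ, (N (y * I) / Dn (y * I) + q (y * I)) =
      (∫ y : ℝ, (N (4 + y * I) / Dn (4 + y * I) + q (4 + y * I))) - 2 * Real.pi * (N S₁ / d₁ + N S₂ / d₂) := by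
  have hopen : IsOpen {z : ℂ | 0 < z.re ∧ z.re < 4} :=
    (isOpen_lt continuous_const Complex.continuous_re).inter (isOpen_lt Complex.continuous_re continuous_const)
  have hev : ∀ {f : ℂ → ℂ} {S : ℂ}, (∀ z : ℂ, 0 ≤ z.re → z.re ≤ 4 → DifferentiableAt ℂ f z) → 0 < S.re → S.re < 4 →
      ∀ᶠ w in 𝓝 S, DifferentiableAt ℂ f w := by
    intro f S hf g1 g2
    filter_upwards [hopen.mem_nhds (show S ∈ {z : ℂ | 0 < z.re ∧ z.re < 4} from ⟨g1, g2⟩)] with w hw
    exact hf w hw.1.le hw.2.le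
  set D1 := dslope Dn S₁ with hD1def
  set D2 := dslope D1 S₂ with hD2def
  have hD1 : ∀ z : ℂ, 0 ≤ z.re → z.re ≤ 4 → DifferentiableAt ℂ D1 z := fun z a b =>
    dslope_diff (hD z a b) (hev hD h1 h1')
  have hD2 : ∀ z : ℂ, 0 ≤ z.re → z.re ≤ 4 → DifferentiableAt ℂ D2 z := fun z a b =>
    dslope_diff (hD1 z a b) (hev hD1 h2 h2')
  have e1 : ∀ z, Dn z = (z - S₁) * D1 z := by
    intro z
    have := sub_smul_dslope Dn S₁ z
    rw [hz1, sub_zero, smul_eq_mul] at this
    exact this.symm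
  have hD1S2 : D1 S₂ = 0 := by
    have := e1 S₂
    rw [hz2] at this
    exact ((mul_eq_zero.1 this.symm).resolve_left (sub_ne_zero.2 (Ne.symm hne)))
  have e2 : ∀ z, D1 z = (z - S₂) * D2 z := by
    intro z
    have := sub_smul_dslope D1 S₂ z
    rw [hD1S2, sub_zero, smul_eq_mul] at this
    exact this.symm
  have e3 : ∀ z, Dn z = (z - S₁) * (z - S₂) * D2 z := by
    intro z; rw [e1 z, e2 z]; ring
  have e3f : Dn = fun z => (z - S₁) * (z - S₂) * D2 z := funext e3
  have hder : ∀ z : ℂ, 0 ≤ z.re → z.re ≤ 4 → HasDerivAt Dn (((z - S₂) + (z - S₁)) * D2 z + (z - S₁) * (z - S₂) * deriv D2 z) z := by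
    intro z a b
    rw [e3f]
    have g1 := ((((hasDerivAt_id z).sub_const S₁).mul ((hasDerivAt_id z).sub_const S₂))).mul (hD2 z a b).hasDerivAt
    refine g1.congr_deriv ?_
    simp
  have hd1e : d₁ = (S₁ - S₂) * D2 S₁ := by
    have := hd1.unique (hder S₁ h1.le h1'.le)
    rw [this]; ring
  have hd2e : d₂ = (S₂ - S₁) * D2 S₂ := by
    have := hd2.unique (hder S₂ h2.le h2'.le)
    rw [this]; ring
  have hD2ne : ∀ z : ℂ, 0 ≤ z.re → z.re ≤ 4 → D2 z ≠ 0 := by
    intro z a b h0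
    by_cases g1 : z = S₁
    · rw [g1] at h0; rw [h0, mul_zero] at hd1e; exact hd1' hd1e
    by_cases g2 : z = S₂
    · rw [g2] at h0; rw [h0, mul_zero] at hd2e; exact hd2' hd2e
    have := e3 z
    rw [h0, mul_zero] at this
    rcases hz z a b this with h | h
    · exact g1 h
    · exact g2 h
  set hh : ℂ → ℂ := fun z => N z / D2 z with hhdef
  have hhd : ∀ z : ℂ, 0 ≤ z.re → z.re ≤ 4 → DifferentiableAt ℂ hh z := fun z a b =>
    (hN z a b).div (hD2 z a b) (hD2ne z a b)
  set g1 := dslope hh S₁ with hg1def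
  set g2 := dslope g1 S₂ with hg2def
  have hg1 : ∀ z : ℂ, 0 ≤ z.re → z.re ≤ 4 → DifferentiableAt ℂ g1 z := fun z a b =>
    dslope_diff (hhd z a b) (hev hhd h1 h1')
  have hg2 : ∀ z : ℂ, 0 ≤ z.re → z.re ≤ 4 → DifferentiableAt ℂ g2 z := fun z a b =>
    dslope_diff (hg1 z a b) (hev hg1 h2 h2')
  have f1 : ∀ z, (z - S₁) * g1 z = hh z - hh S₁ := fun z => by
    have := sub_smul_dslope hh S₁ z
    rwa [smul_eq_mul] at this
  have f2 : ∀ z, (z - S₂) * g2 z = g1 z - g1 S₂ := fun z => by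
    have := sub_smul_dslope g1 S₂ z
    rwa [smul_eq_mul] at this
  set r₁ := N S₁ / d₁ with hr1
  set r₂ := N S₂ / d₂ with hr2
  have hr1e : r₁ = hh S₁ / (S₁ - S₂) := by
    rw [hr1, hd1e, hhdef]
    have := hD2ne S₁ h1.le h1'.le
    have h3 : S₁ - S₂ ≠ 0 := sub_ne_zero.2 hne
    field_simp
  have hr2e : r₂ = hh S₂ / (S₂ - S₁) := by
    rw [hr2, hd2e, hhdef]
    have := hD2ne S₂ h2.le h2'.le
    have h3 : S₂ - S₁ ≠ 0 := sub_ne_zero.2 (Ne.symm hne)
    field_simp
  set G : ℂ → ℂ := fun z => g2 z + q z + (r₁ + r₂) / (z + 1) with hG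
  have hGd : ∀ z : ℂ, 0 ≤ z.re → z.re ≤ 4 → DifferentiableAt ℂ G z := by
    intro z a b
    apply ((hg2 z a b).add (hq z a b)).add
    apply DifferentiableAt.div (by fun_prop) (by fun_prop)
    intro h0
    have := congrArg Complex.re h0
    simp at this; linarith
  have hGe : ∀ z : ℂ, 0 ≤ z.re → z.re ≤ 4 → z ≠ S₁ → z ≠ S₂ →
      G z = (N z / Dn z + q z) - r₁ * kk S₁ z - r₂ * kk S₂ z := by
    intro z a b c1 c2
    have n1 : z - S₁ ≠ 0 := sub_ne_zero.2 c1
    have n2 : z - S₂ ≠ 0 := sub_ne_zero.2 c2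
    have n3 : S₁ - S₂ ≠ 0 := sub_ne_zero.2 hne
    have n3' : S₂ - S₁ ≠ 0 := sub_ne_zero.2 (Ne.symm hne)
    have n4 : D2 z ≠ 0 := hD2ne z a b
    have n5 : z + 1 ≠ 0 := by
      intro h0
      have := congrArg Complex.re h0
      simp at this; linarith
    have k1 : g2 z = (g1 z - g1 S₂) / (z - S₂) := by rw [← f2 z]; field_simp
    have k2 : g1 z = (hh z - hh S₁) / (z - S₁) := by rw [← f1 z]; field_simp
    have k3 : g1 S₂ = (hh S₂ - hh S₁) / (S₂ - S₁) := by rw [← f1 S₂]; field_simp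
    have k4 : N z / Dn z = hh z / ((z - S₁) * (z - S₂)) := by
      rw [e3 z, hhdef]; field_simp
    simp only [hG, kk]
    rw [k1, k2, k3, k4, hr1e, hr2e]
    have k5 : (S₂ - S₁) = -(S₁ - S₂) := by ring
    rw [k5]
    field_simp
    ring
  have hS1n := norm_nonneg S₁
  have hS2n := norm_nonneg S₂
  have hbG : ∀ z : ℂ, 0 ≤ z.re → z.re ≤ 4 → T + 2 * ‖S₁‖ + 2 * ‖S₂‖ + 1 ≤ |z.im| →
      ‖G z‖ ≤ (C + ‖r₁‖ * (2 * ‖S₁ + 1‖) + ‖r₂‖ * (2 * ‖S₂ + 1‖)) / z.im ^ 2 := by
    intro z a b c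
    have c1 : z ≠ S₁ := by
      intro h0
      have := abs_im_le_norm z
      rw [h0] at this c; linarith
    have c2 : z ≠ S₂ := by
      intro h0
      have := abs_im_le_norm z
      rw [h0] at this c; linarith
    rw [hGe z a b c1 c2]
    have b1 := hb z a b (by linarith)
    have b2 := kk_bound (S := S₁) (z := z) (by linarith)
    have b3 := kk_bound (S := S₂) (z := z) (by linarith)
    calc ‖(N z / Dn z + q z) - r₁ * kk S₁ z - r₂ * kk S₂ z‖
        ≤ ‖N z / Dn z + q z‖ + ‖r₁ * kk S₁ z‖ + ‖r₂ * kk S₂ z‖ :=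
          (norm_sub_le _ _).trans (by gcongr; exact norm_sub_le _ _)
      _ ≤ C / z.im ^ 2 + ‖r₁‖ * (2 * ‖S₁ + 1‖ / z.im ^ 2) + ‖r₂‖ * (2 * ‖S₂ + 1‖ / z.im ^ 2) := by
          rw [norm_mul, norm_mul]
          gcongr
      _ = _ := by ring
  have hshift := strip_shift (f := G) (a := 0) (b := 4) (by norm_num) hGd (by positivity) (by linarith) hbG
  -- integrability along a line
  have hline : ∀ x : ℝ, 0 ≤ x → x ≤ 4 → x ≠ S₁.re → x ≠ S₂.re →
      ∫ y : ℝ, G (x + y * I) = (∫ y : ℝ, (N (x + y * I) / Dn (x + y * I) + q (x + y * I))) -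
        r₁ * (∫ y : ℝ, kk S₁ (x + y * I)) - r₂ * ∫ y : ℝ, kk S₂ (x + y * I) := by
    intro x a b c1 c2
    have m1 : ∀ y : ℝ, (x + y * I : ℂ) ≠ S₁ := fun y h0 => c1 (by
      have := congrArg Complex.re h0
      simpa using this)
    have m2 : ∀ y : ℝ, (x + y * I : ℂ) ≠ S₂ := fun y h0 => c2 (by
      have := congrArg Complex.re h0
      simpa using this)
    have n5 : ∀ y : ℝ, (x + y * I + 1 : ℂ) ≠ 0 := by
      intro y h0
      have := congrArg Complex.re h0
      simp at this; linarith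
    have hk : ∀ S : ℂ, (∀ y : ℝ, (x + y * I : ℂ) ≠ S) → Integrable (fun y : ℝ => kk S (x + y * I)) := by
      intro S hS
      have hc : Continuous (fun y : ℝ => kk S (x + y * I)) := by
        unfold kk
        apply Continuous.sub
        · exact continuous_const.div (by fun_prop) (fun y => sub_ne_zero.2 (hS y))
        · exact continuous_const.div (by fun_prop) n5
      obtain ⟨C', -, hC'⟩ := global_bd hc (C := 2 * ‖S + 1‖) (T := 2 * ‖S‖ + 1) (by positivity)
        (by linarith [norm_nonneg S]) (fun y hy => by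
          have := kk_bound (S := S) (z := x + y * I) (by simpa using hy)
          simpa using this)
      exact integrable_of_bd hc hC'
    have hf : Integrable (fun y : ℝ => N (x + y * I) / Dn (x + y * I) + q (x + y * I)) := by
      have hc : Continuous (fun y : ℝ => N (x + y * I) / Dn (x + y * I) + q (x + y * I)) := by
        have hre : ∀ z : ℂ, z.re = x → DifferentiableAt ℂ (fun z => N z / Dn z + q z) z := by
          intro z hzx
          apply DifferentiableAt.add _ (hq z (by rw [hzx]; exact a) (by rw [hzx]; exact b))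
          apply (hN z (by rw [hzx]; exact a) (by rw [hzx]; exact b)).div (hD z (by rw [hzx]; exact a) (by rw [hzx]; exact b))
          intro h0
          rcases hz z (by rw [hzx]; exact a) (by rw [hzx]; exact b) h0 with h | h
          · apply c1; rw [← hzx, h]
          · apply c2; rw [← hzx, h]
        exact cont_line hre
      obtain ⟨C', -, hC'⟩ := global_bd hc hC hT (fun y hy => by
          have := hb (x + y * I) (by simpa using a) (by simpa using b) (by simpa using hy)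
          simpa using this)
      exact integrable_of_bd hc hC'
    have i1 := hk S₁ m1
    have i2 := hk S₂ m2
    have i3 : Integrable (fun y : ℝ => (N (x + y * I) / Dn (x + y * I) + q (x + y * I)) - r₁ * kk S₁ (x + y * I)) :=
      hf.sub (i1.const_mul r₁)
    have e4 : ∫ y : ℝ, G (x + y * I) = ∫ y : ℝ, (((N (x + y * I) / Dn (x + y * I) + q (x + y * I)) -
        r₁ * kk S₁ (x + y * I)) - r₂ * kk S₂ (x + y * I)) := by
      congr 1; ext y
      exact hGe _ (by simpa using a) (by simpa using b) (m1 y) (m2 y)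
    rw [e4, integral_sub i3 (i2.const_mul r₂), integral_sub hf (i1.const_mul r₁), integral_const_mul,
      integral_const_mul]
  have l0 := hline 0 le_rfl (by norm_num) h1.ne h2.ne
  have l4 := hline 4 (by norm_num) le_rfl h1'.ne' h2'.ne'
  rw [l0, l4] at hshift
  simp only [ofReal_zero, zero_add, ofReal_ofNat] at hshift
  rw [kk_left h1, kk_left h2, kk_right h1', kk_right h2'] at hshift
  linear_combination hshift

end Pool.Agent.E8helper52.OR
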