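import Pool.Agent.E8helper52.OR.Refl
import Pool.Agent.E8helper52.OR.Residue

open MeasureTheory Set Filter Topology Complex
open scoped ComplexConjugate

namespace Pool.Agent.E8helper52.OR

noncomputable def Q (z : ℂ) : ℂ := 1 / K z + (z ^ 2 + 2) * K z - 2 * z

noncomputable def mm (z : ℂ) : ℂ := E z / K z / D z + (z ^ 2 + 2)

lemma zK_near {z : ℂ} (hz : 0 ≤ z.re) (hr : 60 ≤ ‖z‖) : ‖1 - z * K z‖ ≤ 2 / ‖z‖ ^ 2 := by
  have h1 := K_asymp hz
  set r := ‖z‖ with hrdef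
  have e : z ^ 4 * (1 - z * K z) = -(z ^ 5 * K z - z ^ 4 + z ^ 2 - 5) + (z ^ 2 - 5) := by ring
  have h2 : r ^ 4 * ‖1 - z * K z‖ ≤ 722 + (r ^ 2 + 5) := by
    rw [hrdef, ← norm_pow, ← norm_mul, e]
    refine (norm_add_le _ _).trans ?_
    rw [norm_neg]
    apply add_le_add h1
    refine (norm_sub_le _ _).trans ?_
    rw [norm_pow]; simp
  rw [le_div_iff₀ (by positivity)]
  have h3 : r ^ 2 * (‖1 - z * K z‖ * r ^ 2) ≤ r ^ 2 * 2 := by nlinarith
  exact le_of_mul_le_mul_left h3 (by positivity)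

lemma zK_bounds {z : ℂ} (hz : 0 ≤ z.re) (hr : 60 ≤ ‖z‖) : 1 / 2 ≤ ‖z‖ * ‖K z‖ ∧ ‖z‖ * ‖K z‖ ≤ 3 / 2 := by
  have h1 := zK_near hz hr
  have h2 : 2 / ‖z‖ ^ 2 ≤ 1 / 2 := by
    rw [div_le_div_iff₀ (by positivity) (by norm_num)]; nlinarith
  rw [← norm_mul]
  constructor
  · have : ‖(1:ℂ)‖ ≤ ‖z * K z‖ + ‖1 - z * K z‖ := by
      have := norm_add_le (z * K z) (1 - z * K z)
      simpa using this
    rw [norm_one] at this; linarith
  · have : ‖z * K z‖ ≤ ‖(1:ℂ)‖ + ‖1 - z * K z‖ := by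
      have := norm_sub_le (1:ℂ) (1 - z * K z)
      simpa using this
    rw [norm_one] at this; linarith

lemma Q_bound {z : ℂ} (hz : 0 ≤ z.re) (hr : 60 ≤ ‖z‖) : ‖Q z‖ ≤ 11 / ‖z‖ := by
  have hne := K_ne_zero hz
  have h1 := zK_near hz hr
  have h2 := zK_bounds hz hr
  have e : Q z = ((1 - z * K z) ^ 2 + 2 * K z ^ 2) / K z := by
    unfold Q; field_simp; ring
  set r := ‖z‖
  set k := ‖K z‖
  have hk : 0 < k := norm_pos_iff.2 hne
  rw [e, norm_div, div_le_div_iff₀ hk (by positivity)]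
  have h3 : ‖(1 - z * K z) ^ 2 + 2 * K z ^ 2‖ ≤ ‖1 - z * K z‖ ^ 2 + 2 * k ^ 2 := by
    refine (norm_add_le _ _).trans ?_
    rw [norm_pow, norm_mul, norm_pow]; simp [k]
  have h4 : ‖1 - z * K z‖ ^ 2 ≤ (2 / r ^ 2) ^ 2 := pow_le_pow_left₀ (norm_nonneg _) h1 2
  have h5 : (2 / r ^ 2) ^ 2 * r ≤ 8 * k := by
    have : (2 / r ^ 2) ^ 2 * r = 4 / r ^ 3 := by field_simp; ring
    rw [this, div_le_iff₀ (by positivity)]
    have h6 : 8 * k * r ^ 3 = 8 * (r * k) * r ^ 2 := by ring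
    rw [h6]; nlinarith
  calc ‖(1 - z * K z) ^ 2 + 2 * K z ^ 2‖ * r ≤ (‖1 - z * K z‖ ^ 2 + 2 * k ^ 2) * r :=
        mul_le_mul_of_nonneg_right h3 (by positivity)
    _ ≤ ((2 / r ^ 2) ^ 2 + 2 * k ^ 2) * r := by gcongr
    _ = (2 / r ^ 2) ^ 2 * r + 2 * (r * k) * k := by ring
    _ ≤ 8 * k + 2 * (3 / 2) * k := by
        apply add_le_add h5
        apply mul_le_mul_of_nonneg_right _ hk.le
        linarith [h2.2]
    _ = 11 * k := by ring

lemma differentiableAt_Q {z : ℂ} (hz : 0 ≤ z.re) : DifferentiableAt ℂ Q z := by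
  have hK := differentiableAt_K (s := z) (by linarith)
  unfold Q
  apply DifferentiableAt.sub _ (by fun_prop)
  apply DifferentiableAt.add
  · exact (differentiableAt_const _).div hK (K_ne_zero hz)
  · exact (by fun_prop : DifferentiableAt ℂ (fun z : ℂ => z ^ 2 + 2) z).mul hK

lemma invK_sq {z : ℂ} (hz : 0 ≤ z.re) (hr : 60 ≤ ‖z‖) : ‖1 / K z ^ 2 - z ^ 2 - 2‖ ≤ 23292 / ‖z‖ ^ 2 := by
  have hne := K_ne_zero hz
  have h1 := K_asymp hz
  have h2 := zK_bounds hz hr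
  set δ := z ^ 5 * K z - z ^ 4 + z ^ 2 with hδ
  set r := ‖z‖ with hrdef
  set k := ‖K z‖ with hkdef
  have hk : 0 < k := norm_pos_iff.2 hne
  have hδn : ‖δ‖ ≤ 727 := by
    have e : δ = (z ^ 5 * K z - z ^ 4 + z ^ 2 - 5) + 5 := by rw [hδ]; ring
    rw [e]
    refine (norm_add_le _ _).trans ?_
    have : ‖(5:ℂ)‖ = 5 := by simp
    rw [this]; linarith
  have hX : z ^ 10 * (1 - z ^ 2 * K z ^ 2 - 2 * K z ^ 2) =
      3 * z ^ 6 - 2 * z ^ 4 - (z ^ 2 + 2) * (2 * δ * (z ^ 4 - z ^ 2) + δ ^ 2) := by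
    rw [hδ]; ring
  have hXn : r ^ 10 * ‖1 - z ^ 2 * K z ^ 2 - 2 * K z ^ 2‖ ≤ 5823 * r ^ 6 := by
    rw [hrdef, ← norm_pow, ← norm_mul, hX]
    have a1 : ‖3 * z ^ 6 - 2 * z ^ 4‖ ≤ 3 * r ^ 6 + 2 * r ^ 4 := by
      refine (norm_sub_le _ _).trans ?_
      rw [norm_mul, norm_mul, norm_pow, norm_pow]; simp [hrdef]
    have a2 : ‖2 * δ * (z ^ 4 - z ^ 2) + δ ^ 2‖ ≤ 2 * 727 * (r ^ 4 + r ^ 2) + 727 ^ 2 := by
      refine (norm_add_le _ _).trans ?_
      rw [norm_mul, norm_mul, norm_pow]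
      have b1 : ‖z ^ 4 - z ^ 2‖ ≤ r ^ 4 + r ^ 2 := by
        refine (norm_sub_le _ _).trans ?_
        rw [norm_pow, norm_pow]
      have b2 : ‖(2:ℂ)‖ = 2 := by simp
      rw [b2]
      apply add_le_add
      · apply mul_le_mul _ b1 (norm_nonneg _) (by norm_num)
        linarith
      · exact pow_le_pow_left₀ (norm_nonneg _) hδn 2
    have a3 : ‖z ^ 2 + 2‖ ≤ r ^ 2 + 2 := by
      refine (norm_add_le _ _).trans ?_
      rw [norm_pow]; simp [hrdef]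
    calc ‖3 * z ^ 6 - 2 * z ^ 4 - (z ^ 2 + 2) * (2 * δ * (z ^ 4 - z ^ 2) + δ ^ 2)‖
        ≤ ‖3 * z ^ 6 - 2 * z ^ 4‖ + ‖(z ^ 2 + 2) * (2 * δ * (z ^ 4 - z ^ 2) + δ ^ 2)‖ := norm_sub_le _ _
      _ ≤ (3 * r ^ 6 + 2 * r ^ 4) + (r ^ 2 + 2) * (2 * 727 * (r ^ 4 + r ^ 2) + 727 ^ 2) := by
          rw [norm_mul]
          exact add_le_add a1 (mul_le_mul a3 a2 (norm_nonneg _) (by positivity))
      _ ≤ 5823 * r ^ 6 := by
          have c1 : r ^ 2 ≥ 3600 := by nlinarith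
          have c2 : r ^ 4 ≥ 3600 * r ^ 2 := by nlinarith [sq_nonneg r]
          have c3 : r ^ 6 ≥ 3600 * r ^ 4 := by
            have : r ^ 6 = r ^ 2 * r ^ 4 := by ring
            rw [this]; nlinarith [sq_nonneg (r^2)]
          nlinarith
  have e : 1 / K z ^ 2 - z ^ 2 - 2 = (1 - z ^ 2 * K z ^ 2 - 2 * K z ^ 2) / K z ^ 2 := by
    field_simp
  rw [e, norm_div, norm_pow, div_le_div_iff₀ (by positivity) (by positivity)]
  set X := ‖1 - z ^ 2 * K z ^ 2 - 2 * K z ^ 2‖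
  have h3 : r ^ 6 * (r ^ 4 * X) ≤ r ^ 6 * 5823 := by
    calc r ^ 6 * (r ^ 4 * X) = r ^ 10 * X := by ring
      _ ≤ 5823 * r ^ 6 := hXn
      _ = _ := by ring
  have h4 : r ^ 4 * X ≤ 5823 := le_of_mul_le_mul_left h3 (by positivity)
  have h5 : r ^ 2 * (X * r ^ 2) ≤ r ^ 2 * (23292 * k ^ 2) := by
    have h6 : 1 / 4 ≤ (r * k) ^ 2 := by nlinarith [h2.1]
    nlinarith
  have h7 := le_of_mul_le_mul_left h5 (by positivity)
  exact h7

lemma E_norm_ge (z : ℂ) : |Real.sinh (Real.pi * z.im / 2)| ≤ ‖E z‖ := by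
  rw [← sq_le_sq₀ (abs_nonneg _) (norm_nonneg _), sq_abs, ← Complex.normSq_eq_norm_sq, Complex.normSq_apply, E_re, E_im]
  have h1 := Real.cosh_sq (Real.pi * z.im / 2)
  have h2 := Real.sin_sq_add_cos_sq (Real.pi * z.re / 2)
  nlinarith [sq_nonneg (Real.cos (Real.pi * z.re / 2)), sq_nonneg (Real.sin (Real.pi * z.re / 2))]

lemma sinh_big {y : ℝ} (hy : 1000 ≤ y) : y ^ 6 / 200 ≤ Real.sinh (Real.pi * y / 2) := by
  have h1 : 3 / 2 * y ≤ Real.pi * y / 2 := by nlinarith [Real.pi_gt_three]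
  have h2 := Real.pow_div_factorial_le_exp (Real.pi * y / 2) (by positivity) 6
  have h3 : (3 / 2 * y) ^ 6 ≤ (Real.pi * y / 2) ^ 6 := pow_le_pow_left₀ (by positivity) h1 6
  have h4 : Real.exp (-(Real.pi * y / 2)) ≤ 1 := Real.exp_le_one_iff.2 (by have := Real.pi_pos; nlinarith)
  have h5 : ((Nat.factorial 6 : ℕ) : ℝ) = 720 := by norm_num [Nat.factorial]
  rw [h5] at h2
  rw [Real.sinh_eq]
  have h6 : (3 / 2 * y) ^ 6 = 729 / 64 * y ^ 6 := by ring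
  rw [h6] at h3
  have h7 : 729 / 64 * y ^ 6 / 720 ≤ Real.exp (Real.pi * y / 2) := by
    refine le_trans ?_ h2
    gcongr
  have h8 : (1000:ℝ) ^ 6 ≤ y ^ 6 := pow_le_pow_left₀ (by norm_num) hy 6
  norm_num at h8
  linarith

lemma E_big {z : ℂ} (h0 : 0 ≤ z.re) (h4 : z.re ≤ 4) (hy : 1000 ≤ |z.im|) : ‖z‖ ^ 5 ≤ ‖E z‖ := by
  refine le_trans ?_ (E_norm_ge z)
  rw [Real.abs_sinh, abs_div, abs_mul, abs_of_pos Real.pi_pos]
  have e2 : |(2:ℝ)| = 2 := by norm_num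
  rw [e2]
  set y := |z.im|
  refine le_trans ?_ (sinh_big hy)
  have h1 : ‖z‖ ≤ y + 4 := by
    have := Complex.norm_le_abs_re_add_abs_im z
    rw [abs_of_nonneg h0] at this
    linarith
  have h2 : ‖z‖ ≤ 1.01 * y := by linarith
  have h3 : ‖z‖ ^ 5 ≤ (1.01 * y) ^ 5 := pow_le_pow_left₀ (norm_nonneg _) h2 5
  have h5 : (0:ℝ) ≤ y ^ 5 := by positivity
  have h6 : (1.01 * y) ^ 5 ≤ 2 * y ^ 5 := by
    have : (1.01 * y) ^ 5 = 1.01 ^ 5 * y ^ 5 := by ring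
    rw [this]
    nlinarith [show (1.01:ℝ) ^ 5 ≤ 2 by norm_num]
  have h7 : y ^ 6 = y * y ^ 5 := by ring
  rw [h7]
  nlinarith

lemma mm_bound {z : ℂ} (h0 : 0 ≤ z.re) (h4 : z.re ≤ 4) (hy : 1000 ≤ |z.im|) : ‖mm z‖ ≤ 23343 / z.im ^ 2 := by
  have hrz : |z.im| ≤ ‖z‖ := abs_im_le_norm z
  have hr : 1000 ≤ ‖z‖ := hy.trans hrz
  have hne := K_ne_zero h0
  have h1 := invK_sq h0 (by linarith)
  have h2 := zK_bounds h0 (by linarith)
  have h3 := E_big h0 h4 hy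
  set r := ‖z‖ with hrdef
  set k := ‖K z‖ with hkdef
  have hk : 0 < k := norm_pos_iff.2 hne
  have hD : r ^ 4 / 4 ≤ ‖D z‖ := by
    have a1 : ‖E z * K z‖ - ‖(Real.pi : ℂ)‖ ≤ ‖D z‖ := by
      have := norm_sub_norm_le (E z * K z) (Real.pi : ℂ)
      rw [norm_sub_rev] at this
      exact this
    rw [norm_mul, Complex.norm_real, Real.norm_eq_abs, abs_of_pos Real.pi_pos] at a1
    have a2 : r ^ 5 * k ≤ ‖E z‖ * k := mul_le_mul_of_nonneg_right h3 hk.le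
    have a3 : r ^ 4 / 2 ≤ r ^ 5 * k := by
      have : r ^ 5 * k = r ^ 4 * (r * k) := by ring
      rw [this]
      have : 0 ≤ r ^ 4 := by positivity
      nlinarith [h2.1]
    have a4 : (1000:ℝ) ^ 4 ≤ r ^ 4 := pow_le_pow_left₀ (by norm_num) hr 4
    norm_num at a4
    have := Real.pi_lt_four
    linarith
  have hDne : D z ≠ 0 := by
    intro h; rw [h, norm_zero] at hD
    have : 0 < r ^ 4 := by positivity
    linarith
  have e : mm z = Real.pi / (K z ^ 2 * D z) - (1 / K z ^ 2 - z ^ 2 - 2) := by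
    have hE : E z * K z = Real.pi - D z := by unfold D; ring
    have : mm z = (E z * K z + D z) / (K z ^ 2 * D z) - (1 / K z ^ 2 - z ^ 2 - 2) := by
      unfold mm; field_simp; ring
    rw [this, hE]; ring
  have hfin : ‖(Real.pi : ℂ) / (K z ^ 2 * D z)‖ ≤ 51 / r ^ 2 := by
    rw [norm_div, norm_mul, norm_pow, Complex.norm_real, Real.norm_eq_abs, abs_of_pos Real.pi_pos,
      div_le_div_iff₀ (by positivity) (by positivity)]
    have b1 : k ^ 2 * (r ^ 4 / 4) ≤ k ^ 2 * ‖D z‖ := mul_le_mul_of_nonneg_left hD (by positivity)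
    have b2 : r ^ 2 / 16 ≤ k ^ 2 * (r ^ 4 / 4) := by
      have : k ^ 2 * (r ^ 4 / 4) = (r * k) ^ 2 * r ^ 2 / 4 := by ring
      rw [this]
      have : 1 / 4 ≤ (r * k) ^ 2 := by nlinarith [h2.1]
      nlinarith [sq_nonneg r]
    have b3 : Real.pi * r ^ 2 ≤ 51 * (r ^ 2 / 16) := by
      have := Real.pi_lt_d2
      nlinarith [sq_nonneg r]
    linarith
  have hfinal : ‖mm z‖ ≤ 23343 / r ^ 2 := by
    rw [e]
    calc _ ≤ ‖(Real.pi : ℂ) / (K z ^ 2 * D z)‖ + ‖1 / K z ^ 2 - z ^ 2 - 2‖ := norm_sub_le _ _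
      _ ≤ 51 / r ^ 2 + 23292 / r ^ 2 := add_le_add hfin h1
      _ = _ := by ring
  refine hfinal.trans ?_
  apply div_le_div_of_nonneg_left (by norm_num)
  · rw [← sq_abs]; have : 0 < |z.im| := by linarith
    positivity
  · rw [← sq_abs z.im]
    exact pow_le_pow_left₀ (abs_nonneg _) hrz 2

lemma E_axis_ne (y : ℝ) : E (y * I) ≠ 0 := by
  intro h0
  have := congrArg Complex.re h0
  rw [E_re] at this
  simp at this
  have h2 := Real.cosh_pos (Real.pi * y / 2)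
  linarith

lemma D_axis (y : ℝ) : D (y * I) = E (y * I) * K (-(y * I)) := by
  have := K_reflection (s := y * I) (by simp) (by simp)
  unfold D
  linear_combination -this

lemma mm_axis (y : ℝ) : mm (y * I) = 1 / (K (y * I) * K (-(y * I))) + ((y * I) ^ 2 + 2) := by
  have h1 := E_axis_ne y
  have h2 : K (y * I) ≠ 0 := K_ne_zero (by simp)
  have h3 : K (-(y * I)) ≠ 0 := K_ne_zero (by simp)
  unfold mm
  rw [D_axis]
  field_simp

/-- the boundary function -/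
noncomputable def mu (y : ℝ) : ℂ := mm (y * I)

lemma mu_neg (y : ℝ) : mu (-y) = mu y := by
  unfold mu
  rw [mm_axis, mm_axis]
  push_cast
  rw [show -(-(y:ℂ) * I) = y * I by ring, show (-(y:ℂ) * I) = -(y * I) by ring, mul_comm (K (-(y * I)))]
  ring

lemma mu_cont : Continuous mu := by
  have : ∀ z : ℂ, z.re = 0 → DifferentiableAt ℂ mm z := by
    intro z hz
    have hD : D z ≠ 0 := by
      have e : z = (z.im : ℂ) * I := by apply Complex.ext <;> simp [hz]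
      rw [e, D_axis]
      exact mul_ne_zero (E_axis_ne _) (K_ne_zero (by simp))
    have hK := differentiableAt_K (s := z) (by linarith)
    have hE := (hasDerivAt_E z).differentiableAt
    have hDd := (hasDerivAt_D (S := z) (by linarith)).differentiableAt
    unfold mm
    exact ((hE.div hK (K_ne_zero (by linarith))).div hDd hD).add (by fun_prop)
  have h := cont_line (f := mm) (x := 0) this
  have e : mu = fun y : ℝ => mm (y * I) := rfl
  rw [e]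
  simpa using h

lemma mu_bd : ∃ C, 0 ≤ C ∧ ∀ y, ‖mu y‖ ≤ C * (1 + y ^ 2)⁻¹ := by
  apply global_bd mu_cont (C := 23343) (T := 1000) (by norm_num) (by norm_num)
  intro y hy
  have := mm_bound (z := y * I) (by simp) (by simp) (by simpa using hy)
  simpa [mu] using this

lemma mu_int : Integrable mu := by
  obtain ⟨C, -, hC⟩ := mu_bd
  exact integrable_of_bd mu_cont hC

end Pool.Agent.E8helper52.OR
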