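import Pool.Agent.E8helper52.OR.Contour

open MeasureTheory Set Filter Topology Complex
open scoped ComplexConjugate

namespace Pool.Agent.E8helper52.OR

lemma dslope_diff {f : ℂ → ℂ} {c z : ℂ} (hz : DifferentiableAt ℂ f z)
    (hc : ∀ᶠ w in 𝓝 c, DifferentiableAt ℂ f w) : DifferentiableAt ℂ (dslope f c) z := by
  by_cases h : z = c
  · subst h
    have h1 : {w | DifferentiableAt ℂ f w} ∈ 𝓝 z := hc
    have h2 : DifferentiableOn ℂ f {w | DifferentiableAt ℂ f w} := fun w hw =>
      DifferentiableAt.differentiableWithinAt hw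
    exact ((Complex.differentiableOn_dslope h1).2 h2).differentiableAt h1
  · exact (differentiableAt_dslope_of_ne h).2 hz

lemma dslope_apply_ne {f : ℂ → ℂ} {c z : ℂ} (h : z ≠ c) : dslope f c z = (f z - f c) / (z - c) := by
  rw [dslope_of_ne _ h, slope_def_field]

section poisson

variable {P : ℂ → ℂ} (hd : ∀ z : ℂ, 0 ≤ z.re → DifferentiableAt ℂ P z) {C T : ℝ}
    (hC : 0 ≤ C) (hT : 1 ≤ T) (hb : ∀ z : ℂ, 0 ≤ z.re → T ≤ ‖z‖ → ‖P z‖ ≤ C / ‖z‖)
include hd hC hT hb

theorem poisson_minus {t : ℂ} (ht : 0 < t.re) : ∫ y : ℝ, P (y * I) / (t + y * I) = 0 := by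
  apply halfplane_zero (f := fun z => P z / (t + z)) (C := 2 * C) (T := T + 2 * ‖t‖)
  · intro z hz
    apply (hd z hz).div (by fun_prop)
    intro h0
    have := congrArg Complex.re h0
    simp at this; linarith
  · positivity
  · linarith [norm_nonneg t]
  · intro z hz hzT
    have ht0 := norm_nonneg t
    have h1 := hb z hz (by linarith)
    have h2 : ‖z‖ / 2 ≤ ‖t + z‖ := by
      have := norm_sub_norm_le z (-t)
      rw [norm_neg, sub_neg_eq_add, add_comm z t] at this
      linarith
    have hz0 : 0 < ‖z‖ := by linarith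
    rw [norm_div]
    calc ‖P z‖ / ‖t + z‖ ≤ (C / ‖z‖) / (‖z‖ / 2) := div_le_div₀ (by positivity) h1 (by positivity) h2
      _ = 2 * C / ‖z‖ ^ 2 := by field_simp

theorem poisson_plus {t : ℂ} (ht : 0 < t.re) : ∫ y : ℝ, P (y * I) / (t - y * I) = 2 * Real.pi * P t := by
  set N : ℂ → ℂ := fun z => P z - P t * (t + conj t) / (conj t + z) with hN
  have htt : t + conj t ≠ 0 := by
    intro h0
    have := congrArg Complex.re h0
    simp at this; linarith
  have hNt : N t = 0 := by
    simp only [hN]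
    rw [add_comm (conj t) t]
    field_simp
    ring
  have hne : ∀ z : ℂ, 0 ≤ z.re → conj t + z ≠ 0 := by
    intro z hz h0
    have := congrArg Complex.re h0
    simp at this; linarith
  have hNd : ∀ z : ℂ, 0 ≤ z.re → DifferentiableAt ℂ N z := by
    intro z hz
    apply (hd z hz).sub
    apply DifferentiableAt.div (by fun_prop) (by fun_prop) (hne z hz)
  have hev : ∀ᶠ w in 𝓝 t, DifferentiableAt ℂ N w := by
    have : {w : ℂ | 0 < w.re} ∈ 𝓝 t := (isOpen_lt continuous_const Complex.continuous_re).mem_nhds ht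
    filter_upwards [this] with w hw
    exact hNd w (le_of_lt hw)
  have hz := halfplane_zero (f := fun z => - dslope N t z) (C := 2 * (C + 2 * ‖P t * (t + conj t)‖)) (T := T + 2 * ‖t‖)
    (fun z hz => (dslope_diff (hNd z hz) hev).neg) (by positivity) (by linarith [norm_nonneg t])
    (by
      intro z hz hzT
      have ht0 := norm_nonneg t
      have hzne : z ≠ t := by
        intro h0; rw [h0] at hzT; linarith
      have h1 := hb z hz (by linarith)
      have hz0 : 0 < ‖z‖ := by linarith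
      have h2 : ‖z‖ / 2 ≤ ‖z - t‖ := by
        have := norm_sub_norm_le z t
        linarith
      have h3 : ‖z‖ / 2 ≤ ‖conj t + z‖ := by
        have := norm_sub_norm_le z (-conj t)
        rw [norm_neg, sub_neg_eq_add, add_comm z (conj t), RCLike.norm_conj] at this
        linarith
      have h4 : ‖N z‖ ≤ (C + 2 * ‖P t * (t + conj t)‖) / ‖z‖ := by
        have e : ‖P t * (t + conj t) / (conj t + z)‖ ≤ 2 * ‖P t * (t + conj t)‖ / ‖z‖ := by
          rw [norm_div]
          calc ‖P t * (t + conj t)‖ / ‖conj t + z‖ ≤ ‖P t * (t + conj t)‖ / (‖z‖ / 2) :=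
                div_le_div_of_nonneg_left (norm_nonneg _) (by positivity) h3
            _ = _ := by field_simp
        calc ‖N z‖ ≤ ‖P z‖ + ‖P t * (t + conj t) / (conj t + z)‖ := norm_sub_le _ _
          _ ≤ C / ‖z‖ + 2 * ‖P t * (t + conj t)‖ / ‖z‖ := add_le_add h1 e
          _ = _ := by ring
      rw [norm_neg, dslope_apply_ne hzne, hNt, sub_zero, norm_div]
      calc ‖N z‖ / ‖z - t‖ ≤ ((C + 2 * ‖P t * (t + conj t)‖) / ‖z‖) / (‖z‖ / 2) :=
            div_le_div₀ (by positivity) h4 (by positivity) h2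
        _ = _ := by field_simp)
  have hform : ∀ y : ℝ, - dslope N t (y * I) = P (y * I) / (t - y * I) -
      P t * (2 * t.re * ((t.re ^ 2 + (y - t.im) ^ 2)⁻¹ : ℝ)) := by
    intro y
    have hyne : (y * I : ℂ) ≠ t := by
      intro h0
      have := congrArg Complex.re h0
      simp at this; linarith
    rw [dslope_apply_ne hyne, hNt, sub_zero]
    simp only [hN]
    have h1 : (t - y * I) ≠ 0 := sub_ne_zero.2 (Ne.symm hyne)
    have h2 := hne (y * I) (by simp)
    have h3 : (t + conj t) = 2 * (t.re : ℂ) := by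
      rw [Complex.add_conj]; push_cast; ring
    have h4 : (conj t + y * I) * (t - y * I) = ((t.re ^ 2 + (y - t.im) ^ 2 : ℝ) : ℂ) := by
      have e : conj t + y * I = conj (t - y * I) := by simp
      rw [e, mul_comm, Complex.mul_conj, Complex.normSq_apply]
      congr 1
      simp; ring
    rw [ofReal_inv, ← h4, h3]
    rw [show (y * I - t : ℂ) = -(t - y * I) by ring, div_neg, neg_neg]
    field_simp
  simp only [hform] at hz
  -- Poisson kernel
  have hk : ∫ y : ℝ, (t.re ^ 2 + (y - t.im) ^ 2)⁻¹ = Real.pi / t.re := by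
    have h1 : ∫ y : ℝ, (t.re ^ 2 + (y - t.im) ^ 2)⁻¹ = ∫ y : ℝ, (t.re ^ 2 + y ^ 2)⁻¹ :=
      integral_sub_right_eq_self (fun y : ℝ => (t.re ^ 2 + y ^ 2)⁻¹) t.im
    rw [h1]
    have h2 : ∀ y : ℝ, (t.re ^ 2 + y ^ 2)⁻¹ = (t.re ^ 2)⁻¹ * (1 + (y / t.re) ^ 2)⁻¹ := by
      intro y
      rw [← mul_inv]; congr 1; field_simp
    simp_rw [h2]
    rw [integral_const_mul, MeasureTheory.Measure.integral_comp_div (fun y : ℝ => (1 + y ^ 2)⁻¹) t.re,
      integral_univ_inv_one_add_sq, abs_of_pos ht, smul_eq_mul]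
    field_simp
  have hkint : Integrable (fun y : ℝ => (t.re ^ 2 + (y - t.im) ^ 2)⁻¹) := by
    have h0 : Integrable (fun y : ℝ => (t.re ^ 2 + y ^ 2)⁻¹) := by
      have h2 : ∀ y : ℝ, (t.re ^ 2 + y ^ 2)⁻¹ = (t.re ^ 2)⁻¹ * (1 + (y / t.re) ^ 2)⁻¹ := by
        intro y
        rw [← mul_inv]; congr 1; field_simp
      simp_rw [h2]
      exact (integrable_inv_one_add_sq.comp_div ht.ne').const_mul _
    exact h0.comp_sub_right t.im
  have hPcont : Continuous (fun y : ℝ => P (y * I)) := by
    have := cont_line (f := P) (x := 0) (fun z hz => hd z (by rw [hz]))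
    simpa using this
  have hint1 : Integrable (fun y : ℝ => P (y * I) / (t - y * I)) := by
    have hc : Continuous (fun y : ℝ => P (y * I) / (t - y * I)) := by
      apply hPcont.div (by fun_prop)
      intro y h0
      have := congrArg Complex.re h0
      simp at this; linarith
    obtain ⟨C', -, hC'⟩ := global_bd hc (C := 2 * C) (T := T + 2 * ‖t‖) (by positivity)
      (by linarith [norm_nonneg t]) (by
        intro y hy
        have ht0 := norm_nonneg t
        have hn : ‖(y * I : ℂ)‖ = |y| := by simp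
        have h1 := hb (y * I) (by simp) (by rw [hn]; linarith)
        rw [hn] at h1
        have h2 : |y| / 2 ≤ ‖t - y * I‖ := by
          have := norm_sub_norm_le (y * I : ℂ) t
          rw [norm_sub_rev, hn] at this
          linarith
        have hy0 : 0 < |y| := by linarith
        rw [norm_div]
        calc ‖P (y * I)‖ / ‖t - y * I‖ ≤ (C / |y|) / (|y| / 2) := div_le_div₀ (by positivity) h1 (by positivity) h2
          _ = 2 * C / y ^ 2 := by rw [← sq_abs y]; field_simp)
    exact integrable_of_bd hc hC'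
  have hint2 : Integrable (fun y : ℝ => P t * (2 * t.re * ((t.re ^ 2 + (y - t.im) ^ 2)⁻¹ : ℝ) : ℂ)) :=
    (hkint.ofReal.const_mul _).const_mul _
  rw [integral_sub hint1 hint2, integral_const_mul, integral_const_mul] at hz
  have hk2 : ∫ y : ℝ, (((t.re ^ 2 + (y - t.im) ^ 2)⁻¹ : ℝ) : ℂ) = ((Real.pi / t.re : ℝ) : ℂ) := by
    rw [← hk]; exact integral_ofReal
  rw [hk2] at hz
  have htre : (t.re : ℂ) ≠ 0 := by exact_mod_cast ht.ne'
  have e : P t * (2 * t.re * ((Real.pi / t.re : ℝ) : ℂ)) = 2 * Real.pi * P t := by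
    push_cast; field_simp
  rw [e] at hz
  exact sub_eq_zero.1 hz

end poisson

end Pool.Agent.E8helper52.OR
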