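import Pool.Agent.E8helper52.OR.Series

open MeasureTheory Set Filter Topology Complex
open scoped ComplexConjugate

namespace Pool.Agent.E8helper52.OR

lemma int_T_pow (m : ℕ) (b : ℝ) : ∫ a in (0:ℝ)..b, h a ^ 2 * T a ^ m = T b ^ (m + 1) / (m + 1) := by
  have hder : ∀ a ∈ uIcc (0:ℝ) b, HasDerivAt (fun a => T a ^ (m + 1) / (m + 1)) (h a ^ 2 * T a ^ m) a := by
    intro a _
    have h1 := ((hasDerivAt_T a).fun_pow (m + 1)).div_const ((m:ℝ) + 1)
    refine h1.congr_deriv ?_
    have : ((m:ℝ) + 1) ≠ 0 := by positivity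
    push_cast
    field_simp
  have hc : Continuous (fun a => h a ^ 2 * T a ^ m) := by
    have := continuous_h
    have := continuous_T
    fun_prop
  rw [intervalIntegral.integral_eq_sub_of_hasDerivAt hder (hc.intervalIntegrable _ _)]
  simp [T_zero]

lemma T_mono {a b : ℝ} (hab : a ≤ b) : T a ≤ T b := by
  have h1 : Monotone T := by
    apply monotone_of_deriv_nonneg
    · intro x; exact (hasDerivAt_T x).differentiableAt
    · intro x; rw [(hasDerivAt_T x).deriv]; positivity
  exact h1 hab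

theorem conv_series {b : ℝ} (hb : 0 < b) :
    HasSum (fun p : ℕ × ℕ => ee p.1 * ((h b * (T b ^ (2 * p.1 + 2 * p.2 + 1) / (2 * p.1 + p.2 + 1)) : ℝ) : ℂ)) (conv b) := by
  obtain ⟨C, hC, hCb⟩ := ee_bd
  set F : ℕ × ℕ → ℝ → ℂ := fun p a => (((h a * T a ^ (2 * p.1) : ℝ) : ℂ) * ee p.1) *
    ((h b * h a * (T a * T b) ^ p.2 : ℝ) : ℂ) with hF
  have hTb : 0 < T b := T_pos hb
  have hTb1 : T b < 1 := (abs_lt.1 (abs_T_lt b)).2
  have hTb2 : T b ^ 2 < 1 := by nlinarith
  have hbd : ∀ (p : ℕ × ℕ) (a : ℝ), a ∈ Ioc 0 b → ‖F p a‖ ≤ C * ((T b ^ 2) ^ p.1 * (T b ^ 2) ^ p.2) := by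
    intro p a ha
    have h1 := h_pos a
    have h2 := h_pos b
    have h3 := h_le_one a
    have h4 := h_le_one b
    have h5 : 0 ≤ T a := T_nonneg ha.1.le
    have h6 : T a ≤ T b := T_mono ha.2
    simp only [hF]
    rw [norm_mul, norm_mul, Complex.norm_real, Complex.norm_real, Real.norm_eq_abs, Real.norm_eq_abs,
      abs_of_nonneg (by positivity), abs_of_nonneg (by positivity)]
    have h7 : T a ^ (2 * p.1) ≤ (T b ^ 2) ^ p.1 := by
      rw [← pow_mul]; exact pow_le_pow_left₀ h5 h6 _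
    have h8 : (T a * T b) ^ p.2 ≤ (T b ^ 2) ^ p.2 := by
      apply pow_le_pow_left₀ (by positivity)
      nlinarith
    calc h a * T a ^ (2 * p.1) * ‖ee p.1‖ * (h b * h a * (T a * T b) ^ p.2)
        ≤ (1 * (T b ^ 2) ^ p.1) * C * (1 * 1 * (T b ^ 2) ^ p.2) := by
          gcongr
          exact hCb _
      _ = _ := by ring
  have hFint : ∀ p, Integrable (F p) (volume.restrict (Ioc 0 b)) := by
    intro p
    have hc : Continuous (F p) := by
      have := continuous_h
      have := continuous_T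
      simp only [hF]
      fun_prop
    exact (hc.integrableOn_Icc (a := 0) (b := b)).mono_set Ioc_subset_Icc_self
  have hsum : Summable (fun p => ∫ a in Ioc (0:ℝ) b, ‖F p a‖) := by
    have g1 : Summable (fun k : ℕ => (T b ^ 2) ^ k) := summable_geometric_of_lt_one (sq_nonneg _) hTb2
    have h1 : Summable (fun p : ℕ × ℕ => (C * b) * ((T b ^ 2) ^ p.1 * (T b ^ 2) ^ p.2)) :=
      (g1.mul_of_nonneg g1 (fun k => by positivity) (fun k => by positivity)).mul_left _
    refine Summable.of_nonneg_of_le (fun p => by positivity) (fun p => ?_) h1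
    have := setIntegral_mono_on (hFint p).norm (integrableOn_const (C := C * ((T b ^ 2) ^ p.1 * (T b ^ 2) ^ p.2)) (by simp))
      measurableSet_Ioc (fun a ha => hbd p a ha)
    refine this.trans (le_of_eq ?_)
    rw [setIntegral_const]
    simp [hb.le]
    ring
  have key := hasSum_integral_of_summable_integral_norm hFint hsum
  have e1 : (∫ a in Ioc (0:ℝ) b, ∑' p, F p a) = conv b := by
    unfold conv
    rw [intervalIntegral.integral_of_le hb.le]
    apply setIntegral_congr_fun measurableSet_Ioc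
    intro a ha
    have h5 : 0 ≤ T a := T_nonneg ha.1.le
    have h6 : T a ≤ T b := T_mono ha.2
    have hlt : T a * T b < 1 := by nlinarith
    have hg := (hasSum_geometric_of_lt_one (r := T a * T b) (by positivity) hlt).mul_left (h b * h a)
    have hg2 := (Complex.hasSum_ofReal.2 hg)
    have hp := psi_series a
    have hprod : Summable (fun p : ℕ × ℕ => (((h a * T a ^ (2 * p.1) : ℝ) : ℂ) * ee p.1) *
        ((h b * h a * (T a * T b) ^ p.2 : ℝ) : ℂ)) := by
      have g1 : Summable (fun k : ℕ => (T b ^ 2) ^ k) := summable_geometric_of_lt_one (sq_nonneg _) hTb2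
      have h1 : Summable (fun p : ℕ × ℕ => C * ((T b ^ 2) ^ p.1 * (T b ^ 2) ^ p.2)) :=
        (g1.mul_of_nonneg g1 (fun k => by positivity) (fun k => by positivity)).mul_left _
      exact Summable.of_norm_bounded h1 (fun p => hbd p a ha)
    have hm := hp.mul hg2 hprod
    have e2 : (∑' p, F p a) = psi a * ((h b * h a * (1 - T a * T b)⁻¹ : ℝ) : ℂ) := hm.tsum_eq
    simp only
    rw [e2, h_sub_eq]
  rw [e1] at key
  have e2 : (fun p : ℕ × ℕ => ee p.1 * ((h b * (T b ^ (2 * p.1 + 2 * p.2 + 1) / (2 * p.1 + p.2 + 1)) : ℝ) : ℂ)) =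
      fun p => ∫ a in Ioc (0:ℝ) b, F p a := by
    ext p
    have e3 : ∀ a : ℝ, F p a = (ee p.1 * ((h b * T b ^ p.2 : ℝ) : ℂ)) * ((h a ^ 2 * T a ^ (2 * p.1 + p.2) : ℝ) : ℂ) := by
      intro a
      simp only [hF]
      rw [mul_pow, pow_add]
      push_cast; ring
    simp_rw [e3]
    have e4 : (∫ a in Ioc (0:ℝ) b, ((h a ^ 2 * T a ^ (2 * p.1 + p.2) : ℝ) : ℂ)) =
        ((∫ a in Ioc (0:ℝ) b, h a ^ 2 * T a ^ (2 * p.1 + p.2) : ℝ) : ℂ) := integral_ofReal
    rw [integral_const_mul, e4, ← intervalIntegral.integral_of_le hb.le, int_T_pow]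
    rw [show 2 * p.1 + 2 * p.2 + 1 = p.2 + (2 * p.1 + p.2 + 1) by ring, pow_add]
    push_cast; ring
  rw [e2]; exact key

/-- the coefficients of the generating identity -/
noncomputable def dd (N : ℕ) : ℂ := ∑ k ∈ Finset.range (N + 1), ee k / ((N : ℂ) + k + 1)

lemma gen_series {b : ℝ} (hb : 0 < b) : HasSum (fun N : ℕ => dd N * ((T b ^ 2 : ℝ) : ℂ) ^ N) 1 := by
  have h1 := conv_series hb
  have h2 := conv_eq hb
  have hTb : 0 < T b := T_pos hb
  have hh := h_pos b
  have hc : conv b = ((h b * T b : ℝ) : ℂ) := by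
    have : conv b = - (f1 b : ℂ) := by linear_combination h2
    rw [this, f1]; push_cast; ring
  rw [hc] at h1
  have hne : ((h b * T b : ℝ) : ℂ) ≠ 0 := by exact_mod_cast (mul_pos hh hTb).ne'
  have h3 := h1.mul_left (((h b * T b : ℝ) : ℂ)⁻¹)
  rw [inv_mul_cancel₀ hne] at h3
  have e : (fun p : ℕ × ℕ => ((h b * T b : ℝ) : ℂ)⁻¹ * (ee p.1 * ((h b * (T b ^ (2 * p.1 + 2 * p.2 + 1) / (2 * p.1 + p.2 + 1)) : ℝ) : ℂ))) =
      fun p : ℕ × ℕ => ee p.1 / (2 * (p.1:ℂ) + p.2 + 1) * ((T b ^ 2 : ℝ) : ℂ) ^ (p.1 + p.2) := by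
    ext p
    rw [show 2 * p.1 + 2 * p.2 + 1 = 2 * (p.1 + p.2) + 1 by ring, pow_succ (T b), pow_mul]
    have hd : (2 * (p.1:ℂ) + p.2 + 1) ≠ 0 := by
      have : (2 * (p.1:ℂ) + p.2 + 1) = ((2 * p.1 + p.2 + 1 : ℕ) : ℂ) := by push_cast; ring
      rw [this]; exact Nat.cast_ne_zero.2 (by omega)
    have h1 : (h b : ℂ) ≠ 0 := by exact_mod_cast hh.ne'
    have h2 : (T b : ℂ) ≠ 0 := by exact_mod_cast hTb.ne'
    push_cast
    field_simp
  rw [e] at h3
  have h4 := (Finset.HasAntidiagonal.sigmaAntidiagonalEquivProd (A := ℕ)).hasSum_iff.2 h3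
  have h5 := h4.sigma (fun N => hasSum_fintype _)
  have e2 : (fun N : ℕ => dd N * ((T b ^ 2 : ℝ) : ℂ) ^ N) = fun N : ℕ =>
      ∑ c : ↥(Finset.HasAntidiagonal.antidiagonal N), ((fun p : ℕ × ℕ => ee p.1 / (2 * (p.1:ℂ) + p.2 + 1) * ((T b ^ 2 : ℝ) : ℂ) ^ (p.1 + p.2)) ∘
        ⇑Finset.HasAntidiagonal.sigmaAntidiagonalEquivProd) ⟨N, c⟩ := by
    ext N
    simp only [Function.comp, Finset.HasAntidiagonal.sigmaAntidiagonalEquivProd_apply]
    rw [Finset.sum_coe_sort (Finset.HasAntidiagonal.antidiagonal N) (fun p : ℕ × ℕ => ee p.1 / (2 * (p.1:ℂ) + p.2 + 1) * ((T b ^ 2 : ℝ) : ℂ) ^ (p.1 + p.2)),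
      Finset.Nat.sum_antidiagonal_eq_sum_range_succ_mk]
    unfold dd
    rw [Finset.sum_mul]
    apply Finset.sum_congr rfl
    intro k hk
    have hk' : k ≤ N := by simpa [Nat.lt_succ_iff] using hk
    simp only
    rw [Nat.add_sub_cancel' hk']
    congr 2
    push_cast [Nat.cast_sub hk']
    ring
  rw [e2]; exact h5

lemma coeff_zero {d : ℕ → ℂ} {M : ℝ} (hM : ∀ N, ‖d N‖ ≤ M)
    (hs : ∀ x : ℝ, 0 < x → x < 1 → HasSum (fun N : ℕ => d N * (x : ℂ) ^ N) 0) : ∀ N, d N = 0 := by
  have hM0 : 0 ≤ M := (norm_nonneg _).trans (hM 0)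
  intro N
  induction N using Nat.strong_induction_on with
  | _ N ih =>
    have key : ∀ x : ℝ, 0 < x → x < 1 → ‖d N‖ ≤ M * (x * (1 - x)⁻¹) := by
      intro x hx0 hx1
      have hxc : (x : ℂ) ≠ 0 := by exact_mod_cast hx0.ne'
      have h1 := hs x hx0 hx1
      have h2 := (hasSum_nat_add_iff' N).2 h1
      have h3 : ∑ i ∈ Finset.range N, d i * (x:ℂ) ^ i = 0 := by
        apply Finset.sum_eq_zero
        intro i hi
        rw [ih i (Finset.mem_range.1 hi), zero_mul]
      rw [h3, sub_zero] at h2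
      have h4 := (h2.mul_left (((x:ℂ) ^ N)⁻¹))
      rw [mul_zero] at h4
      have e4 : (fun n : ℕ => ((x:ℂ) ^ N)⁻¹ * (d (n + N) * (x:ℂ) ^ (n + N))) = fun n : ℕ => d (n + N) * (x:ℂ) ^ n := by
        ext n
        rw [pow_add]; field_simp
      rw [e4] at h4
      have h5 := (hasSum_nat_add_iff' 1).2 h4
      simp only [Finset.range_one, Finset.sum_singleton, zero_add, pow_zero, mul_one, zero_sub] at h5
      have hg := ((hasSum_geometric_of_lt_one hx0.le hx1).mul_left (M * x))
      have hle : ‖∑' n : ℕ, d (n + 1 + N) * (x:ℂ) ^ (n + 1)‖ ≤ M * x * (1 - x)⁻¹ := by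
        apply tsum_of_norm_bounded hg
        intro n
        rw [norm_mul, norm_pow, Complex.norm_real, Real.norm_eq_abs, abs_of_pos hx0, pow_succ]
        calc ‖d (n + 1 + N)‖ * (x ^ n * x) ≤ M * (x ^ n * x) := mul_le_mul_of_nonneg_right (hM _) (by positivity)
          _ = M * x * x ^ n := by ring
      rw [h5.tsum_eq, norm_neg] at hle
      rw [← mul_assoc]; exact hle
    have hlim : Tendsto (fun x : ℝ => M * (x * (1 - x)⁻¹)) (𝓝[>] 0) (𝓝 (M * (0 * (1 - 0)⁻¹))) := by
      apply tendsto_nhdsWithin_of_tendsto_nhds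
      have : ContinuousAt (fun x : ℝ => M * (x * (1 - x)⁻¹)) 0 := by
        apply ContinuousAt.mul continuousAt_const
        apply ContinuousAt.mul continuousAt_id
        apply ContinuousAt.inv₀ (by fun_prop) (by norm_num)
      exact this
    have hle : ‖d N‖ ≤ M * (0 * (1 - 0)⁻¹) := by
      apply ge_of_tendsto hlim
      have : Ioo (0:ℝ) 1 ∈ 𝓝[>] (0:ℝ) := Ioo_mem_nhdsGT (by norm_num)
      filter_upwards [this] with x hx
      exact key x hx.1 hx.2
    simp only [zero_mul, mul_zero] at hle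
    exact norm_le_zero_iff.1 hle

theorem dd_eq : ∀ N, dd N = if N = 0 then 1 else 0 := by
  obtain ⟨C, hC, hCb⟩ := ee_bd
  have h0 : ∀ N, (fun N => dd N - if N = 0 then 1 else 0) N = 0 := by
    apply coeff_zero (M := C + 1)
    · intro N
      refine (norm_sub_le _ _).trans ?_
      apply add_le_add
      · unfold dd
        refine (norm_sum_le _ _).trans ?_
        calc ∑ k ∈ Finset.range (N + 1), ‖ee k / ((N : ℂ) + k + 1)‖ ≤ ∑ k ∈ Finset.range (N + 1), C / (N + 1) := by
              apply Finset.sum_le_sum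
              intro k _
              rw [norm_div]
              have : ((N : ℂ) + k + 1) = ((N + k + 1 : ℕ) : ℂ) := by push_cast; ring
              rw [this, Complex.norm_natCast]
              push_cast
              apply div_le_div₀ hC (hCb k) (by positivity)
              have : (0:ℝ) ≤ k := Nat.cast_nonneg k
              linarith
          _ = C := by
              rw [Finset.sum_const, Finset.card_range, nsmul_eq_mul]
              push_cast
              field_simp
      · split_ifs <;> simp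
    · intro x hx0 hx1
      have hsq : Real.sqrt x ∈ Ioo (-1:ℝ) 1 := by
        constructor
        · linarith [Real.sqrt_nonneg x]
        · rw [Real.sqrt_lt' (by norm_num)]; linarith
      have hsq0 : 0 < Real.sqrt x := Real.sqrt_pos.2 hx0
      set b := Real.artanh (Real.sqrt x) with hbdef
      have hb : 0 < b := Real.artanh_pos ⟨hsq0, hsq.2⟩
      have hT : T b ^ 2 = x := by
        unfold T
        rw [hbdef, Real.tanh_artanh hsq, Real.sq_sqrt hx0.le]
      have h1 := gen_series hb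
      rw [hT] at h1
      have h2 : HasSum (fun N : ℕ => (if N = 0 then (1:ℂ) else 0) * (x:ℂ) ^ N) 1 := by
        have := hasSum_ite_eq (0:ℕ) (1:ℂ)
        convert this using 1
        ext N
        split_ifs with hN
        · rw [hN]; simp
        · simp
      have h3 := h1.sub h2
      rw [sub_self] at h3
      have e : (fun N : ℕ => (dd N - if N = 0 then 1 else 0) * (x:ℂ) ^ N) =
          fun N : ℕ => dd N * (x:ℂ) ^ N - (if N = 0 then (1:ℂ) else 0) * (x:ℂ) ^ N := by
        ext N; ring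
      rw [e]; exact h3
  intro N
  exact sub_eq_zero.1 (h0 N)

/-- the exact integral formula for the coefficients. -/
theorem c_eq_ee {c : ℕ → ℝ} (h0 : c 0 = 1)
    (hrec : ∀ N : ℕ, 1 ≤ N → ∑ k ∈ Finset.range (N + 1), c k / ((N : ℝ) + k + 1) = 0) : ∀ n, (c n : ℂ) = ee n := by
  intro n
  induction n using Nat.strong_induction_on with
  | _ n ih =>
    have h1 := dd_eq n
    unfold dd at h1
    rw [Finset.sum_range_succ] at h1
    have e : ∑ k ∈ Finset.range n, ee k / ((n : ℂ) + k + 1) = ∑ k ∈ Finset.range n, (c k : ℂ) / ((n : ℂ) + k + 1) := by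
      apply Finset.sum_congr rfl
      intro k hk
      rw [ih k (Finset.mem_range.1 hk)]
    rw [e] at h1
    have hne : ((n : ℂ) + n + 1) ≠ 0 := by
      have : ((n : ℂ) + n + 1) = ((n + n + 1 : ℕ) : ℂ) := by push_cast; ring
      rw [this]; exact Nat.cast_ne_zero.2 (by omega)
    rcases Nat.eq_zero_or_pos n with hn | hn
    · subst hn
      simp at h1
      rw [h0, h1]; simp
    · rw [if_neg (by omega)] at h1
      have h2 := hrec n hn
      rw [Finset.sum_range_succ] at h2
      have h3 := congrArg (fun x : ℝ => (x : ℂ)) h2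
      simp only [ofReal_add, ofReal_sum, ofReal_div, ofReal_natCast, ofReal_one, ofReal_zero] at h3
      have h4 : (c n : ℂ) / ((n : ℂ) + n + 1) = ee n / ((n : ℂ) + n + 1) := by
        linear_combination h3 - h1
      exact (div_left_inj' hne).1 h4

end Pool.Agent.E8helper52.OR
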