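import Pool.Agent.E8helper52.OR.Contr

open MeasureTheory Set Filter Topology Complex
open scoped ComplexConjugate

namespace Pool.Agent.E8helper52.OR

/-- paired terms of `Σ (-1)^j/(z-j)` -/
noncomputable def pr (z : ℂ) (i : ℕ) : ℂ := 1 / (z - 2 * i) - 1 / (z - (2 * i + 1))

/-- paired terms of `Σ (-1)^j/(w+j)` -/
noncomputable def qr (w : ℂ) (i : ℕ) : ℂ := 1 / (w + 2 * i) - 1 / (w + (2 * i + 1))

lemma summable_pr (z : ℂ) : Summable (pr z) := by
  have h1 : Summable (fun i : ℕ => 1 / (i:ℝ) ^ 2) := Real.summable_one_div_nat_pow.2 (by norm_num)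
  refine Summable.of_norm_bounded_eventually_nat h1 ?_
  filter_upwards [eventually_gt_atTop (⌈‖z‖⌉₊)] with i hi
  have hz : ‖z‖ < i := lt_of_le_of_lt (Nat.le_ceil _) (by exact_mod_cast hi)
  have hi0 : (0:ℝ) < i := lt_of_le_of_lt (norm_nonneg _) hz
  have a1 : (i:ℝ) ≤ ‖z - 2 * i‖ := by
    have := norm_sub_norm_le (2 * (i:ℂ)) z
    rw [norm_sub_rev] at this
    simp only [norm_mul, Complex.norm_ofNat, Complex.norm_natCast] at this
    linarith
  have a2 : (i:ℝ) ≤ ‖z - (2 * i + 1)‖ := by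
    have := norm_sub_norm_le (2 * (i:ℂ) + 1) z
    rw [norm_sub_rev] at this
    have e : ‖2 * (i:ℂ) + 1‖ = 2 * i + 1 := by
      have : (2 * (i:ℂ) + 1) = ((2 * i + 1 : ℕ) : ℂ) := by push_cast; ring
      rw [this, Complex.norm_natCast]; push_cast; ring
    rw [e] at this
    linarith
  have b1 : z - 2 * i ≠ 0 := by
    intro h0; rw [h0, norm_zero] at a1; linarith
  have b2 : z - (2 * i + 1) ≠ 0 := by
    intro h0; rw [h0, norm_zero] at a2; linarith
  have e : pr z i = - (1 / ((z - 2 * i) * (z - (2 * i + 1)))) := by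
    unfold pr; field_simp; ring
  rw [e, norm_neg, norm_div, norm_one, norm_mul]
  apply one_div_le_one_div_of_le (by positivity)
  rw [pow_two]
  exact mul_le_mul a1 a2 hi0.le (norm_nonneg _)

lemma qr_eq (w : ℂ) (i : ℕ) : qr w i = - pr (-w) i := by
  unfold qr pr
  have e1 : (-w - 2 * i) = -(w + 2 * i) := by ring
  have e2 : (-w - (2 * i + 1)) = -(w + (2 * i + 1)) := by ring
  rw [e1, e2, div_neg, div_neg]; ring

lemma summable_qr (w : ℂ) : Summable (qr w) := by
  have := (summable_pr (-w)).neg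
  refine this.congr (fun i => ?_)
  rw [qr_eq]

lemma partial_pr (z : ℂ) (m : ℕ) :
    ∑ j ∈ Finset.range (2 * m), (-1 : ℂ) ^ j / (z - j) = ∑ i ∈ Finset.range m, pr z i := by
  induction m with
  | zero => simp
  | succ m ih =>
    rw [show 2 * (m + 1) = 2 * m + 1 + 1 by ring, Finset.sum_range_succ, Finset.sum_range_succ, ih,
      Finset.sum_range_succ]
    unfold pr
    have e1 : (-1 : ℂ) ^ (2 * m) = 1 := by rw [pow_mul]; simp
    have e2 : (-1 : ℂ) ^ (2 * m + 1) = -1 := by rw [pow_succ, e1]; ring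
    rw [e1, e2]; push_cast; ring

lemma partial_qr (w : ℂ) (m : ℕ) :
    ∑ j ∈ Finset.range (2 * m), (-1 : ℂ) ^ j / (w + j) = ∑ i ∈ Finset.range m, qr w i := by
  induction m with
  | zero => simp
  | succ m ih =>
    rw [show 2 * (m + 1) = 2 * m + 1 + 1 by ring, Finset.sum_range_succ, Finset.sum_range_succ, ih,
      Finset.sum_range_succ]
    unfold qr
    have e1 : (-1 : ℂ) ^ (2 * m) = 1 := by rw [pow_mul]; simp
    have e2 : (-1 : ℂ) ^ (2 * m + 1) = -1 := by rw [pow_succ, e1]; ring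
    rw [e1, e2]; push_cast; ring

noncomputable def B (z : ℂ) : ℂ := ∑' i : ℕ, pr z i

lemma tendsto_term (z : ℂ) : Tendsto (fun j : ℕ => (-1 : ℂ) ^ j / (z - j)) atTop (𝓝 0) := by
  rw [tendsto_zero_iff_norm_tendsto_zero]
  have e : ∀ j : ℕ, ‖(-1 : ℂ) ^ j / (z - j)‖ = ‖z - j‖⁻¹ := fun j => by
    rw [norm_div, norm_pow, norm_neg, norm_one, one_pow, one_div]
  simp_rw [e]
  apply Tendsto.inv_tendsto_atTop
  have h1 : Tendsto (fun j : ℕ => (j:ℝ) - ‖z‖) atTop atTop :=
    tendsto_atTop_add_const_right _ _ tendsto_natCast_atTop_atTop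
  refine tendsto_atTop_mono (fun j => ?_) h1
  have := norm_sub_norm_le (j:ℂ) z
  rw [norm_sub_rev, Complex.norm_natCast] at this
  exact this

/-- the partial sums of `Σ (-1)^j/(z-j)` converge to `B z`. -/
lemma tendsto_partial (z : ℂ) :
    Tendsto (fun N : ℕ => ∑ j ∈ Finset.range N, (-1 : ℂ) ^ j / (z - j)) atTop (𝓝 (B z)) := by
  have h1 : Tendsto (fun m : ℕ => ∑ j ∈ Finset.range (2 * m), (-1 : ℂ) ^ j / (z - j)) atTop (𝓝 (B z)) := by
    simp_rw [partial_pr]
    exact (summable_pr z).hasSum.tendsto_sum_nat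
  have h2 : Tendsto (fun m : ℕ => ∑ j ∈ Finset.range (2 * m + 1), (-1 : ℂ) ^ j / (z - j)) atTop (𝓝 (B z)) := by
    simp_rw [Finset.sum_range_succ]
    have h3 : Tendsto (fun m : ℕ => (-1 : ℂ) ^ (2 * m) / (z - (2 * m : ℕ))) atTop (𝓝 0) :=
      (tendsto_term z).comp (tendsto_atTop_mono (fun m => by simp only [id]; omega) tendsto_id)
    simpa using h1.add h3
  rw [tendsto_iff_dist_tendsto_zero] at *
  rw [Metric.tendsto_atTop] at *
  intro ε hε
  obtain ⟨N1, hN1⟩ := h1 ε hε
  obtain ⟨N2, hN2⟩ := h2 ε hε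
  refine ⟨2 * (N1 + N2), fun n hn => ?_⟩
  rcases Nat.even_or_odd' n with ⟨m, hm | hm⟩
  · rw [hm]; exact hN1 m (by omega)
  · rw [hm]; exact hN2 m (by omega)

/-- series for `K` -/
lemma K_series {s : ℂ} (hs : -1 < s.re) : K s = ∑' i : ℕ, qr ((s + 1) / 2) i := by
  set x := s.re with hx
  set F : ℕ → ℝ → ℂ := fun i b => cexp (-(s + ((4 * i + 1 : ℝ) : ℂ)) * b) * 2 -
    cexp (-(s + ((4 * i + 3 : ℝ) : ℂ)) * b) * 2 with hF
  have hint : ∀ c : ℝ, 1 ≤ c → Integrable (fun b : ℝ => cexp (-(s + c) * b) * 2) (volume.restrict (Ioi 0)) ∧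
      ∫ b in Ioi (0:ℝ), cexp (-(s + c) * b) * 2 = 2 / (s + c) := by
    intro c hc
    have hre : (-(s + (c:ℂ))).re < 0 := by
      simp only [neg_re, add_re, ofReal_re]; linarith
    constructor
    · exact (integrableOn_exp_mul_complex_Ioi hre 0).mul_const 2
    · rw [integral_mul_const, integral_exp_mul_complex_Ioi hre 0]
      simp only [ofReal_zero, mul_zero, Complex.exp_zero]
      rw [neg_div_neg_eq]; ring
  have hreal : ∀ c : ℝ, 1 ≤ c → Integrable (fun b : ℝ => Real.exp (-(x + c) * b) * 2) (volume.restrict (Ioi 0)) ∧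
      ∫ b in Ioi (0:ℝ), Real.exp (-(x + c) * b) * 2 = 2 / (x + c) := by
    intro c hc
    have hre : -(x + c) < 0 := by linarith
    constructor
    · exact (integrableOn_exp_mul_Ioi hre 0).mul_const 2
    · rw [integral_mul_const, integral_exp_mul_Ioi hre 0]
      simp only [mul_zero, Real.exp_zero]
      rw [neg_div_neg_eq]; ring
  have c1 : ∀ i : ℕ, (1:ℝ) ≤ 4 * i + 1 := fun i => by
    have : (0:ℝ) ≤ i := Nat.cast_nonneg i
    linarith
  have c3 : ∀ i : ℕ, (1:ℝ) ≤ 4 * i + 3 := fun i => by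
    have : (0:ℝ) ≤ i := Nat.cast_nonneg i
    linarith
  have hFform : ∀ (i : ℕ) (b : ℝ), F i b = cexp (-s * b) *
      ((Real.exp (-(4 * i + 1) * b) * 2 - Real.exp (-(4 * i + 3) * b) * 2 : ℝ) : ℂ) := by
    intro i b
    simp only [hF]
    push_cast
    rw [mul_sub, ← mul_assoc, ← mul_assoc, ← Complex.exp_add, ← Complex.exp_add]
    congr 3
    · ring
    · ring
  have hnorm : ∀ (i : ℕ) (b : ℝ), 0 < b → ‖F i b‖ = Real.exp (-(x + (4 * i + 1)) * b) * 2 - Real.exp (-(x + (4 * i + 3)) * b) * 2 := by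
    intro i b hb
    have hnn : 0 ≤ Real.exp (-(4 * i + 1) * b) * 2 - Real.exp (-(4 * i + 3) * b) * 2 := by
      have : Real.exp (-(4 * (i:ℝ) + 3) * b) ≤ Real.exp (-(4 * i + 1) * b) := Real.exp_le_exp.2 (by nlinarith)
      linarith
    rw [hFform, norm_mul, Complex.norm_exp, Complex.norm_real, Real.norm_eq_abs, abs_of_nonneg hnn]
    have e1 : (-s * (b:ℂ)).re = - x * b := by simp [hx]
    rw [e1, mul_sub, ← mul_assoc, ← mul_assoc, ← Real.exp_add, ← Real.exp_add]
    congr 3
    · ring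
    · ring
  have hFint : ∀ i, Integrable (F i) (volume.restrict (Ioi 0)) := fun i =>
    (hint _ (c1 i)).1.sub (hint _ (c3 i)).1
  have hFnorm : ∀ i : ℕ, ∫ b in Ioi (0:ℝ), ‖F i b‖ = 2 / (x + (4 * i + 1)) - 2 / (x + (4 * i + 3)) := by
    intro i
    rw [← (hreal _ (c1 i)).2, ← (hreal _ (c3 i)).2, ← integral_sub (hreal _ (c1 i)).1 (hreal _ (c3 i)).1]
    apply setIntegral_congr_fun measurableSet_Ioi
    intro b hb
    exact hnorm i b hb
  have hsum : Summable (fun i => ∫ b in Ioi (0:ℝ), ‖F i b‖) := by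
    have h1 := (summable_qr (((x + 1) / 2 : ℝ) : ℂ))
    have h2 : Summable (fun i : ℕ => (1 / ((x + 1) / 2 + 2 * i) - 1 / ((x + 1) / 2 + (2 * i + 1)) : ℝ)) := by
      rw [← Complex.summable_ofReal]
      refine h1.congr (fun i => ?_)
      unfold qr; push_cast; ring
    refine h2.congr (fun i => ?_)
    rw [hFnorm]
    have p1 : x + (4 * i + 1) ≠ 0 := by have := c1 i; linarith
    have p3 : x + (4 * i + 3) ≠ 0 := by have := c3 i; linarith
    have p1' : (x + 1) / 2 + 2 * i ≠ 0 := by have := c1 i; intro h0; apply p1; linarith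
    have p3' : (x + 1) / 2 + (2 * i + 1) ≠ 0 := by have := c3 i; intro h0; apply p3; linarith
    have e1 : (x + 1) / 2 + 2 * i = (x + (4 * i + 1)) / 2 := by ring
    have e3 : (x + 1) / 2 + (2 * i + 1) = (x + (4 * i + 3)) / 2 := by ring
    rw [e1, e3, one_div_div, one_div_div]
  have key := hasSum_integral_of_summable_integral_norm hFint hsum
  have hL : (∫ b in Ioi (0:ℝ), ∑' i, F i b) = K s := by
    unfold K L
    apply setIntegral_congr_fun measurableSet_Ioi
    intro b hb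
    have hb' : (0:ℝ) < b := hb
    have hq : Real.exp (-4 * b) < 1 := by rw [← Real.exp_zero]; exact Real.exp_lt_exp.2 (by linarith)
    have hgeo := (hasSum_geometric_of_lt_one (Real.exp_pos _).le hq).mul_left (2 * Real.exp (-b) * (1 - Real.exp (-2 * b)))
    have e2 : 2 * Real.exp (-b) * (1 - Real.exp (-2 * b)) * (1 - Real.exp (-4 * b))⁻¹ = h b := by
      have e4 : Real.exp (-4 * b) = Real.exp (-2 * b) ^ 2 := by
        rw [← Real.exp_nat_mul]; congr 1; push_cast; ring
      have hq2 : Real.exp (-2 * b) < 1 := by rw [← Real.exp_zero]; exact Real.exp_lt_exp.2 (by linarith)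
      have hq3 : 0 < Real.exp (-2 * b) := Real.exp_pos _
      have e5 : Real.exp (-2 * b) = Real.exp (-b) ^ 2 := by
        rw [← Real.exp_nat_mul]; congr 1; push_cast; ring
      have e6 : Real.exp b * Real.exp (-b) = 1 := by rw [← Real.exp_add]; simp
      rw [h, Real.cosh_eq, e4]
      have n1 : 1 - Real.exp (-2 * b) ^ 2 ≠ 0 := by nlinarith
      have n2 : (Real.exp b + Real.exp (-b)) / 2 ≠ 0 := by positivity
      rw [← div_eq_mul_inv, div_eq_iff n1, eq_comm, inv_mul_eq_iff_eq_mul₀ n2]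
      rw [e5]
      linear_combination (-(1 - Real.exp (-b) ^ 2)) * e6
    rw [e2] at hgeo
    have hgeo2 : HasSum (fun i => F i b) (cexp (-s * b) * (h b : ℂ)) := by
      have h3 := (Complex.hasSum_ofReal.2 hgeo).mul_left (cexp (-s * b))
      suffices h4 : (fun i => F i b) = fun i : ℕ => cexp (-s * b) *
          ((2 * Real.exp (-b) * (1 - Real.exp (-2 * b)) * Real.exp (-4 * b) ^ i : ℝ) : ℂ) by
        rw [h4]; exact h3
      ext i
      rw [hFform]
      congr 1
      have e7 : Real.exp (-4 * b) ^ i = Real.exp (-(4 * i) * b) := by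
        rw [← Real.exp_nat_mul]; congr 1; ring
      have e8 : Real.exp (-(4 * i + 1) * b) = Real.exp (-(4 * i) * b) * Real.exp (-b) := by
        rw [← Real.exp_add]; congr 1; ring
      have e9 : Real.exp (-(4 * i + 3) * b) = Real.exp (-(4 * i) * b) * (Real.exp (-b) * Real.exp (-2 * b)) := by
        rw [← Real.exp_add, ← Real.exp_add]; congr 1; ring
      rw [e7, e8, e9]
      push_cast; ring
    exact hgeo2.tsum_eq
  rw [hL] at key
  rw [← key.tsum_eq]
  congr 1; ext i
  simp only [hF]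
  rw [integral_sub (hint _ (c1 i)).1 (hint _ (c3 i)).1, (hint _ (c1 i)).2, (hint _ (c3 i)).2]
  unfold qr
  have p1 : s + ((4 * i + 1 : ℝ) : ℂ) ≠ 0 := by
    intro h0
    have := congrArg Complex.re h0
    simp only [add_re, ofReal_re, zero_re] at this
    have := c1 i; linarith
  have p3 : s + ((4 * i + 3 : ℝ) : ℂ) ≠ 0 := by
    intro h0
    have := congrArg Complex.re h0
    simp only [add_re, ofReal_re, zero_re] at this
    have := c3 i; linarith
  have e1 : (s + 1) / 2 + 2 * i = (s + ((4 * i + 1 : ℝ) : ℂ)) / 2 := by push_cast; ring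
  have e3 : (s + 1) / 2 + (2 * i + 1) = (s + ((4 * i + 3 : ℝ) : ℂ)) / 2 := by push_cast; ring
  rw [e1, e3, one_div_div, one_div_div]

lemma cot_half_sub {w : ℂ} (h1 : Complex.sin (2 * w) ≠ 0) :
    Complex.cot w - Complex.cot (2 * w) = 1 / Complex.sin (2 * w) := by
  have e : Complex.sin (2 * w) = 2 * Complex.sin w * Complex.cos w := Complex.sin_two_mul w
  have e2 : Complex.cos (2 * w) = 2 * Complex.cos w ^ 2 - 1 := Complex.cos_two_mul w
  rw [e] at h1
  have hs : Complex.sin w ≠ 0 := by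
    intro h0; apply h1; rw [h0]; ring
  have hc : Complex.cos w ≠ 0 := by
    intro h0; apply h1; rw [h0]; ring
  rw [Complex.cot_eq_cos_div_sin, Complex.cot_eq_cos_div_sin, e, e2]
  field_simp
  ring

/-- Mittag-Leffler expansion: `B z = π / sin (π z) + K (1 + 2 z)`. -/
lemma B_eq {z : ℂ} (hz : z ∈ Complex.integerComplement) (hre : -1 < z.re) :
    B z = Real.pi / Complex.sin (Real.pi * z) + K (1 + 2 * z) := by
  have hpi : (Real.pi : ℂ) ≠ 0 := by exact_mod_cast Real.pi_ne_zero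
  have hz2 : z / 2 ∈ Complex.integerComplement := by
    intro ⟨n, hn⟩
    apply hz
    refine ⟨2 * n, ?_⟩
    push_cast
    rw [hn]; ring
  have hP1 : Tendsto (fun m : ℕ => ∑ n ∈ Finset.range (2 * m), cotTerm z n) atTop
      (𝓝 (Real.pi * Complex.cot (Real.pi * z) - 1 / z)) := by
    rw [cot_series_rep' hz]
    exact (summable_cotTerm hz).hasSum.tendsto_sum_nat.comp
      (tendsto_atTop_mono (fun m => by simp only [id]; omega) tendsto_id)
  have hP2 : Tendsto (fun m : ℕ => ∑ n ∈ Finset.range m, cotTerm (z / 2) n) atTop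
      (𝓝 (Real.pi * Complex.cot (Real.pi * (z / 2)) - 1 / (z / 2))) := by
    rw [cot_series_rep' hz2]
    exact (summable_cotTerm hz2).hasSum.tendsto_sum_nat
  have hA : Tendsto (fun m : ℕ => ∑ j ∈ Finset.range (2 * m + 1), (-1 : ℂ) ^ j / (z - j)) atTop (𝓝 (B z)) :=
    (tendsto_partial z).comp (tendsto_atTop_mono (fun m => by simp only [id]; omega) tendsto_id)
  have hB : Tendsto (fun m : ℕ => ∑ j ∈ Finset.range (2 * m), (-1 : ℂ) ^ j / (z + 1 + j)) atTop (𝓝 (K (1 + 2 * z))) := by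
    simp_rw [partial_qr]
    rw [K_series (by simp; linarith), show (1 + 2 * z + 1) / 2 = z + 1 by ring]
    exact (summable_qr (z + 1)).hasSum.tendsto_sum_nat
  have hid : ∀ m : ℕ, (∑ j ∈ Finset.range (2 * m + 1), (-1 : ℂ) ^ j / (z - j)) -
      (∑ j ∈ Finset.range (2 * m), (-1 : ℂ) ^ j / (z + 1 + j)) =
      1 / z + (∑ n ∈ Finset.range m, cotTerm (z / 2) n) - ∑ n ∈ Finset.range (2 * m), cotTerm z n := by
    intro m
    induction m with
    | zero => simp
    | succ m ih =>
      have e1 : (-1 : ℂ) ^ (2 * m) = 1 := by rw [pow_mul]; simp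
      have e2 : (-1 : ℂ) ^ (2 * m + 1) = -1 := by rw [pow_succ, e1]; ring
      have e3 : (-1 : ℂ) ^ (2 * m + 1 + 1) = 1 := by rw [pow_succ, e2]; ring
      rw [show 2 * (m + 1) + 1 = 2 * m + 1 + 1 + 1 by ring, show 2 * (m + 1) = 2 * m + 1 + 1 by ring,
        Finset.sum_range_succ, Finset.sum_range_succ,
        Finset.sum_range_succ (fun j : ℕ => (-1 : ℂ) ^ j / (z + 1 + j)),
        Finset.sum_range_succ (fun j : ℕ => (-1 : ℂ) ^ j / (z + 1 + j)),
        Finset.sum_range_succ (fun n : ℕ => cotTerm (z / 2) n),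
        Finset.sum_range_succ (fun n : ℕ => cotTerm z n), Finset.sum_range_succ (fun n : ℕ => cotTerm z n)]
      rw [e1, e2, e3]
      have d1 : z / 2 - (m + 1) = (z - (2 * m + 1 + 1)) / 2 := by ring
      have d2 : z / 2 + (m + 1) = (z + (2 * m + 1 + 1)) / 2 := by ring
      have d3 : z + 1 + 2 * (m:ℂ) = z + (2 * m + 1) := by ring
      have d4 : z + 1 + (2 * (m:ℂ) + 1) = z + (2 * m + 1 + 1) := by ring
      have e4 : cotTerm (z / 2) m = 2 / (z - (2 * m + 1 + 1)) + 2 / (z + (2 * m + 1 + 1)) := by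
        simp only [cotTerm]
        rw [d1, d2, one_div_div, one_div_div]
      rw [e4]
      simp only [cotTerm]
      push_cast
      rw [d3, d4]
      linear_combination ih
  have hlim := hA.sub hB
  have hlim2 := (hP2.const_add (1 / z)).sub hP1
  have heq := tendsto_nhds_unique (hlim.congr hid) hlim2
  have hsin : Complex.sin (2 * (Real.pi * (z / 2))) ≠ 0 := by
    rw [show 2 * (Real.pi * (z / 2)) = Real.pi * z by ring]
    exact sin_pi_mul_ne_zero hz
  have hcot := cot_half_sub hsin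
  rw [show 2 * (Real.pi * (z / 2)) = Real.pi * z by ring] at hcot
  have hz0 : z ≠ 0 := by
    intro h0; apply hz; exact ⟨0, by simp [h0]⟩
  have e5 : 1 / (z / 2) = 2 * (1 / z) := by field_simp
  rw [e5] at heq
  rw [div_eq_mul_one_div, ← hcot]
  linear_combination heq

/-- `D (1 + 2 z) = sin (π z) * B z`. -/
lemma D_eq {z : ℂ} (hz : z ∈ Complex.integerComplement) (hre : -1 < z.re) :
    D (1 + 2 * z) = Complex.sin (Real.pi * z) * B z := by
  have hs := sin_pi_mul_ne_zero hz
  rw [B_eq hz hre]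
  have hE : E (1 + 2 * z) = - Complex.sin (Real.pi * z) := by
    unfold E
    rw [show (Real.pi * (1 + 2 * z) / 2 : ℂ) = Real.pi * z + Real.pi / 2 by ring, Complex.cos_add_pi_div_two]
  unfold D
  rw [hE]
  field_simp
  ring

/-- reflection formula on the imaginary axis and more generally on `|Re s| < 1`. -/
lemma K_reflection {s : ℂ} (h1 : -1 < s.re) (h2 : s.re < 1) : E s * (K s + K (-s)) = Real.pi := by
  have hz : (s - 1) / 2 ∈ Complex.integerComplement := by
    intro ⟨n, hn⟩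
    have h3 : s = 2 * n + 1 := by rw [hn]; ring
    have h4 : s.re = 2 * n + 1 := by rw [h3]; simp
    rw [h4] at h1 h2
    have h5 : (-1:ℝ) < n := by linarith
    have h6 : (n:ℝ) < 0 := by linarith
    have h7 : (-1:ℤ) < n := by exact_mod_cast h5
    have h8 : n < (0:ℤ) := by exact_mod_cast h6
    omega
  have hsre : -1 < ((s - 1) / 2).re := by
    rw [show (s - 1) / 2 = ((1 / 2 : ℝ) : ℂ) * (s - 1) by push_cast; ring, Complex.re_ofReal_mul]
    simp; linarith
  have hD := D_eq hz hsre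
  rw [show 1 + 2 * ((s - 1) / 2) = s by ring] at hD
  have hE : Complex.sin (Real.pi * ((s - 1) / 2)) = - E s := by
    unfold E
    rw [show (Real.pi * ((s - 1) / 2) : ℂ) = Real.pi * s / 2 - Real.pi / 2 by ring, Complex.sin_sub_pi_div_two]
  have hB : B ((s - 1) / 2) = - K (-s) := by
    rw [K_series (s := -s) (by simpa using h2)]
    unfold B
    rw [← tsum_neg]
    congr 1; ext i
    rw [qr_eq, neg_neg]
    congr 1; ring
  rw [hE, hB] at hD
  unfold D at hD
  linear_combination -hD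

end Pool.Agent.E8helper52.OR
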