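import Pool.Agent.E8helper52.OR.Mfun

open MeasureTheory Set Filter Topology Complex
open scoped ComplexConjugate

namespace Pool.Agent.E8helper52.OR

lemma h_le_inv (u : ℝ) : h u ≤ 2 * (1 + u ^ 2)⁻¹ := by
  have h1 : 1 + u ^ 2 / 2 ≤ Real.cosh u := by
    have e : Real.cosh u = 1 + 2 * Real.sinh (u / 2) ^ 2 := by
      have := Real.cosh_two_mul (u / 2)
      rw [show 2 * (u / 2) = u by ring] at this
      rw [this, Real.cosh_sq]; ring
    rw [e]
    have h2 : (u / 2) ^ 2 ≤ Real.sinh (u / 2) ^ 2 := by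
      rw [← sq_abs (u / 2), ← sq_abs (Real.sinh (u / 2)), Real.abs_sinh]
      exact pow_le_pow_left₀ (abs_nonneg _) (Real.self_le_sinh_iff.2 (abs_nonneg _)) 2
    nlinarith
  unfold h
  rw [← div_eq_mul_inv, inv_le_comm₀ (Real.cosh_pos u) (by positivity), inv_div]
  linarith

lemma integrable_h : Integrable h := by
  refine (integrable_inv_one_add_sq.const_mul 2).mono' continuous_h.aestronglyMeasurable ?_
  filter_upwards with u
  rw [Real.norm_eq_abs, abs_of_pos (h_pos u)]
  exact h_le_inv u

/-- `A` -/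
noncomputable def A (u : ℝ) : ℂ := (1 / (2 * Real.pi)) * ∫ y : ℝ, mu y * cexp (-(y * I) * u)

lemma norm_exp_I (y u : ℝ) : ‖cexp (-(y * I) * u)‖ = 1 := by
  rw [Complex.norm_exp]; simp

lemma norm_exp_I' (y u : ℝ) : ‖cexp ((y * I) * u)‖ = 1 := by
  rw [Complex.norm_exp]; simp

lemma A_int (u : ℝ) : Integrable (fun y : ℝ => mu y * cexp (-(y * I) * u)) := by
  refine mu_int.norm.mono' ?_ ?_
  · have := mu_cont
    apply Continuous.aestronglyMeasurable
    fun_prop
  · filter_upwards with y
    rw [norm_mul, norm_exp_I, mul_one]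

lemma A_neg (u : ℝ) : A (-u) = A u := by
  unfold A
  congr 1
  rw [← integral_neg_eq_self]
  congr 1; ext y
  rw [mu_neg]
  congr 2; push_cast; ring

lemma A_bd : ∃ C, 0 ≤ C ∧ ∀ u, ‖A u‖ ≤ C := by
  refine ⟨‖(1 / (2 * Real.pi) : ℂ)‖ * ∫ y : ℝ, ‖mu y‖, by positivity, fun u => ?_⟩
  unfold A
  rw [norm_mul]
  apply mul_le_mul_of_nonneg_left _ (norm_nonneg _)
  refine (norm_integral_le_integral_norm _).trans (le_of_eq ?_)
  congr 1; ext y
  rw [norm_mul, norm_exp_I, mul_one]

lemma A_cont : Continuous A := by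
  unfold A
  apply Continuous.mul continuous_const
  apply continuous_of_dominated (bound := fun y => ‖mu y‖)
  · intro u; exact (A_int u).aestronglyMeasurable
  · intro u
    filter_upwards with y
    rw [norm_mul, norm_exp_I, mul_one]
  · exact mu_int.norm
  · filter_upwards with y
    fun_prop

/-- `K(iy) + K(-iy)` -/
noncomputable def ka (y : ℝ) : ℂ := K (y * I) + K (-(y * I))

lemma fourier_h (y : ℝ) : ∫ v : ℝ, cexp (-(y * I) * v) * (h v : ℂ) = ka y := by
  have hint : Integrable (fun v : ℝ => cexp (-(y * I) * v) * (h v : ℂ)) := by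
    refine integrable_h.norm.mono' ?_ ?_
    · have := continuous_h
      apply Continuous.aestronglyMeasurable
      fun_prop
    · filter_upwards with v
      rw [norm_mul, norm_exp_I, one_mul, Complex.norm_real]
  rw [← intervalIntegral.integral_Iic_add_Ioi (b := 0) hint.integrableOn hint.integrableOn, add_comm]
  unfold ka K L
  congr 1
  have := integral_comp_neg_Ioi (0:ℝ) (fun v : ℝ => cexp (-(y * I) * v) * (h v : ℂ))
  rw [neg_zero] at this
  rw [← this]
  congr 1; ext v
  rw [h_neg]
  congr 2; push_cast; ring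

lemma ka_cont : Continuous ka := by
  unfold ka
  apply Continuous.add
  · have := cont_line (f := K) (x := 0) (fun z hz => differentiableAt_K (by rw [hz]; norm_num))
    simpa using this
  · have h1 := cont_line (f := K) (x := 0) (fun z hz => differentiableAt_K (by rw [hz]; norm_num))
    have h2 := h1.comp continuous_neg
    refine h2.congr (fun y => ?_)
    simp

lemma ka_bd (y : ℝ) : ‖ka y‖ ≤ ∫ v : ℝ, h v := by
  rw [← fourier_h]
  refine (norm_integral_le_integral_norm _).trans (le_of_eq ?_)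
  congr 1; ext v
  rw [norm_mul, norm_exp_I, one_mul, Complex.norm_real, Real.norm_eq_abs, abs_of_pos (h_pos v)]

/-- `ψ_A` -/
noncomputable def psiA (a : ℝ) : ℂ := ∫ u : ℝ, A u * (h (a + u) : ℂ)

lemma muka_int : Integrable (fun y => mu y * ka y) := by
  refine (mu_int.norm.mul_const (∫ v : ℝ, h v)).mono' (mu_cont.mul ka_cont).aestronglyMeasurable ?_
  filter_upwards with y
  rw [norm_mul]
  exact mul_le_mul_of_nonneg_left (ka_bd y) (norm_nonneg _)

lemma psiA_form (a : ℝ) : psiA a = (1 / (2 * Real.pi)) * ∫ y : ℝ, (mu y * ka y) * cexp ((y * I) * a) := by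
  unfold psiA A
  have e1 : ∀ u : ℝ, ((1 / (2 * Real.pi)) * ∫ y : ℝ, mu y * cexp (-(y * I) * u)) * (h (a + u) : ℂ) =
      (1 / (2 * Real.pi)) * ∫ y : ℝ, mu y * cexp (-(y * I) * u) * (h (a + u) : ℂ) := by
    intro u
    rw [mul_assoc, integral_mul_const]
  simp_rw [e1]
  rw [integral_const_mul]
  congr 1
  have hprod : Integrable (Function.uncurry (fun u y : ℝ => mu y * cexp (-(y * I) * u) * (h (a + u) : ℂ)))
      (volume.prod volume) := by
    have h1 : Integrable (fun p : ℝ × ℝ => h (a + p.1) * ‖mu p.2‖) (volume.prod volume) :=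
      Integrable.mul_prod (f := fun u => h (a + u)) (g := fun y => ‖mu y‖) (integrable_h.comp_add_left a) mu_int.norm
    refine h1.mono' ?_ ?_
    · have := mu_cont
      have := continuous_h
      apply Continuous.aestronglyMeasurable
      unfold Function.uncurry
      fun_prop
    · filter_upwards with p
      simp only [Function.uncurry]
      rw [norm_mul, norm_mul, norm_exp_I, mul_one, Complex.norm_real, Real.norm_eq_abs, abs_of_pos (h_pos _), mul_comm]
  rw [integral_integral_swap hprod]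
  congr 1; ext y
  have e2 : ∀ u : ℝ, mu y * cexp (-(y * I) * u) * (h (a + u) : ℂ) =
      (mu y * cexp ((y * I) * a)) * (cexp (-(y * I) * ((a + u : ℝ) : ℂ)) * (h (a + u) : ℂ)) := by
    intro u
    have : cexp (-(y * I) * u) = cexp ((y * I) * a) * cexp (-(y * I) * ((a + u : ℝ) : ℂ)) := by
      rw [← Complex.exp_add]; congr 1; push_cast; ring
    rw [this]; ring
  simp_rw [e2]
  rw [integral_const_mul, integral_add_left_eq_self (fun v : ℝ => cexp (-(y * I) * (v : ℂ)) * (h v : ℂ)) a, fourier_h]
  ring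

lemma psiA_cont : Continuous psiA := by
  have : psiA = fun a : ℝ => (1 / (2 * Real.pi)) * ∫ y : ℝ, (mu y * ka y) * cexp ((y * I) * a) := by
    ext a; exact psiA_form a
  rw [this]
  apply Continuous.mul continuous_const
  apply continuous_of_dominated (bound := fun y => ‖mu y * ka y‖)
  · intro a
    have := mu_cont
    have := ka_cont
    apply Continuous.aestronglyMeasurable
    fun_prop
  · intro a
    filter_upwards with y
    rw [norm_mul, norm_exp_I', mul_one]
  · exact muka_int.norm
  · filter_upwards with y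
    fun_prop

lemma psiA_bd : ∃ C, 0 ≤ C ∧ ∀ a, ‖psiA a‖ ≤ C := by
  refine ⟨‖(1 / (2 * Real.pi) : ℂ)‖ * ∫ y : ℝ, ‖mu y * ka y‖, by positivity, fun a => ?_⟩
  rw [psiA_form, norm_mul]
  apply mul_le_mul_of_nonneg_left _ (norm_nonneg _)
  refine (norm_integral_le_integral_norm _).trans (le_of_eq ?_)
  congr 1; ext y
  rw [norm_mul, norm_exp_I', mul_one]

/-- complex Laplace transform -/
noncomputable def LC (f : ℝ → ℂ) (t : ℂ) : ℂ := ∫ a in Ioi (0:ℝ), cexp (-t * a) * f a

lemma exp_int {t : ℂ} (ht : 0 < t.re) : Integrable (fun a : ℝ => Real.exp (-t.re * a)) (volume.restrict (Ioi 0)) :=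
  exp_neg_integrableOn_Ioi 0 ht

lemma norm_exp_t (t : ℂ) (a : ℝ) : ‖cexp (-t * a)‖ = Real.exp (-t.re * a) := by
  rw [Complex.norm_exp]; simp

lemma LC_int {f : ℝ → ℂ} (hf : Continuous f) {C : ℝ} (hC : ∀ a, ‖f a‖ ≤ C) {t : ℂ} (ht : 0 < t.re) :
    IntegrableOn (fun a : ℝ => cexp (-t * a) * f a) (Ioi 0) := by
  refine ((exp_int ht).mul_const C).mono' ?_ ?_
  · apply Continuous.aestronglyMeasurable
    fun_prop
  · filter_upwards with a
    rw [norm_mul, norm_exp_t]
    exact mul_le_mul_of_nonneg_left (hC a) (Real.exp_pos _).le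

lemma LC_psiA {t : ℂ} (ht : 0 < t.re) :
    LC psiA t = (1 / (2 * Real.pi)) * ∫ y : ℝ, (mu y * ka y) / (t - y * I) := by
  unfold LC
  have e1 : ∀ a : ℝ, cexp (-t * a) * psiA a =
      (1 / (2 * Real.pi)) * ∫ y : ℝ, cexp (-t * a) * ((mu y * ka y) * cexp ((y * I) * a)) := by
    intro a
    rw [psiA_form, integral_const_mul]; ring
  simp_rw [e1]
  rw [integral_const_mul]
  congr 1
  have hprod : Integrable (Function.uncurry (fun a y : ℝ => cexp (-t * a) * ((mu y * ka y) * cexp ((y * I) * a))))
      ((volume.restrict (Ioi 0)).prod volume) := by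
    have h1 : Integrable (fun p : ℝ × ℝ => Real.exp (-t.re * p.1) * ‖mu p.2 * ka p.2‖) ((volume.restrict (Ioi 0)).prod volume) :=
      Integrable.mul_prod (f := fun a => Real.exp (-t.re * a)) (g := fun y => ‖mu y * ka y‖) (exp_int ht) muka_int.norm
    refine h1.mono' ?_ ?_
    · have := mu_cont
      have := ka_cont
      apply Continuous.aestronglyMeasurable
      unfold Function.uncurry
      fun_prop
    · filter_upwards with p
      simp only [Function.uncurry]
      rw [norm_mul, norm_mul (mu p.2 * ka p.2), norm_exp_I', mul_one, norm_exp_t]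
  rw [integral_integral_swap hprod]
  congr 1; ext y
  have e2 : ∀ a : ℝ, cexp (-t * a) * ((mu y * ka y) * cexp ((y * I) * a)) = (mu y * ka y) * cexp (-(t - y * I) * a) := by
    intro a
    have : cexp (-(t - y * I) * a) = cexp (-t * a) * cexp ((y * I) * a) := by
      rw [← Complex.exp_add]; congr 1; ring
    rw [this]; ring
  simp_rw [e2]
  have hre : (-(t - y * I)).re < 0 := by simp; exact ht
  rw [integral_const_mul, integral_exp_mul_complex_Ioi hre 0]
  simp only [ofReal_zero, mul_zero, Complex.exp_zero]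
  rw [neg_div_neg_eq]; ring

lemma muka_eq (y : ℝ) : mu y * ka y = Q (y * I) + Q (-(y * I)) := by
  have h2 : K (y * I) ≠ 0 := K_ne_zero (by simp)
  have h3 : K (-(y * I)) ≠ 0 := K_ne_zero (by simp)
  unfold mu ka Q
  rw [mm_axis]
  field_simp
  ring

lemma Q_line_int {t : ℂ} (ht : 0 < t.re) : Integrable (fun y : ℝ => Q (y * I) / (t - y * I)) ∧
    Integrable (fun y : ℝ => Q (y * I) / (t + y * I)) := by
  have hQc : Continuous (fun y : ℝ => Q (y * I)) := by
    have := cont_line (f := Q) (x := 0) (fun z hz => differentiableAt_Q (by rw [hz]))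
    simpa using this
  have ht0 := norm_nonneg t
  have hn : ∀ y : ℝ, ‖(y * I : ℂ)‖ = |y| := fun y => by simp
  have hb : ∀ y : ℝ, 60 + 2 * ‖t‖ ≤ |y| → ‖Q (y * I)‖ ≤ 11 / |y| := by
    intro y hy
    have := Q_bound (z := y * I) (by simp) (by rw [hn]; linarith)
    rwa [hn] at this
  constructor
  · have hc : Continuous (fun y : ℝ => Q (y * I) / (t - y * I)) := by
      apply hQc.div (by fun_prop)
      intro y h0
      have := congrArg Complex.re h0
      simp at this; linarith
    obtain ⟨C', -, hC'⟩ := global_bd hc (C := 22) (T := 60 + 2 * ‖t‖) (by norm_num) (by linarith) (by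
        intro y hy
        have h1 := hb y hy
        have h2 : |y| / 2 ≤ ‖t - y * I‖ := by
          have := norm_sub_norm_le (y * I : ℂ) t
          rw [norm_sub_rev, hn] at this
          linarith
        have hy0 : 0 < |y| := by linarith
        rw [norm_div]
        calc ‖Q (y * I)‖ / ‖t - y * I‖ ≤ (11 / |y|) / (|y| / 2) := div_le_div₀ (by positivity) h1 (by positivity) h2
          _ = 22 / y ^ 2 := by rw [← sq_abs y]; field_simp; norm_num)
    exact integrable_of_bd hc hC'
  · have hc : Continuous (fun y : ℝ => Q (y * I) / (t + y * I)) := by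
      apply hQc.div (by fun_prop)
      intro y h0
      have := congrArg Complex.re h0
      simp at this; linarith
    obtain ⟨C', -, hC'⟩ := global_bd hc (C := 22) (T := 60 + 2 * ‖t‖) (by norm_num) (by linarith) (by
        intro y hy
        have h1 := hb y hy
        have h2 : |y| / 2 ≤ ‖t + y * I‖ := by
          have := norm_sub_norm_le (y * I : ℂ) (-t)
          rw [norm_neg, sub_neg_eq_add, add_comm (y * I : ℂ) t, hn] at this
          linarith
        have hy0 : 0 < |y| := by linarith
        rw [norm_div]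
        calc ‖Q (y * I)‖ / ‖t + y * I‖ ≤ (11 / |y|) / (|y| / 2) := div_le_div₀ (by positivity) h1 (by positivity) h2
          _ = 22 / y ^ 2 := by rw [← sq_abs y]; field_simp; norm_num)
    exact integrable_of_bd hc hC'

lemma LC_psiA_eq {t : ℂ} (ht : 0 < t.re) : LC psiA t = Q t := by
  rw [LC_psiA ht]
  simp_rw [muka_eq, add_div]
  have i1 := (Q_line_int ht).1
  have i2 : Integrable (fun y : ℝ => Q (-(y * I)) / (t - y * I)) := by
    refine ((Q_line_int ht).2.comp_neg).congr ?_
    filter_upwards with y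
    push_cast
    congr 1
    · congr 1; ring
    · ring
  rw [integral_add i1 i2]
  have p1 := poisson_plus (P := Q) (C := 11) (T := 60) (fun z hz => differentiableAt_Q hz) (by norm_num) (by norm_num)
    (fun z hz hr => Q_bound hz hr) ht
  have p2 := poisson_minus (P := Q) (C := 11) (T := 60) (fun z hz => differentiableAt_Q hz) (by norm_num) (by norm_num)
    (fun z hz hr => Q_bound hz hr) ht
  have e : ∫ y : ℝ, Q (-(y * I)) / (t - y * I) = ∫ y : ℝ, Q (y * I) / (t + y * I) := by
    rw [← integral_neg_eq_self]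
    congr 1; ext y
    push_cast
    congr 1
    · congr 1; ring
    · ring
  rw [e, p1, p2]
  have hpi : (Real.pi : ℂ) ≠ 0 := by exact_mod_cast Real.pi_ne_zero
  field_simp
  ring

/-- `ψ` -/
noncomputable def psi (a : ℝ) : ℂ := psiA a - f2 a - 2 * h a

lemma psi_cont : Continuous psi := by
  unfold psi
  have h1 := psiA_cont
  have h2 : Continuous f2 := by
    rw [continuous_iff_continuousAt]; exact fun b => (hd2 b).continuousAt
  have h3 := continuous_h
  fun_prop

lemma psi_bd : ∃ C, 0 ≤ C ∧ ∀ a, ‖psi a‖ ≤ C := by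
  obtain ⟨C, hC, hb⟩ := psiA_bd
  refine ⟨C + 1 + 2, by positivity, fun a => ?_⟩
  have h1 : |f2 a| ≤ 1 := by
    unfold f2
    rw [abs_mul, abs_of_pos (h_pos a)]
    have q2 : |2 * T a ^ 2 - 1| ≤ 1 := by
      rw [abs_le]; constructor <;> nlinarith [T_sq_le a, sq_nonneg (T a)]
    have := h_le_one a
    have := h_pos a
    nlinarith [abs_nonneg (2 * T a ^ 2 - 1)]
  have h2 : ‖(2 * (h a : ℂ))‖ ≤ 2 := by
    rw [norm_mul, Complex.norm_real, Real.norm_eq_abs, abs_of_pos (h_pos a)]
    have := h_le_one a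
    simp; exact this
  unfold psi
  calc ‖psiA a - f2 a - 2 * h a‖ ≤ ‖psiA a - f2 a‖ + ‖(2 * (h a : ℂ))‖ := norm_sub_le _ _
    _ ≤ (‖psiA a‖ + ‖(f2 a : ℂ)‖) + ‖(2 * (h a : ℂ))‖ := by gcongr; exact norm_sub_le _ _
    _ ≤ C + 1 + 2 := by
        rw [Complex.norm_real, Real.norm_eq_abs]
        exact add_le_add (add_le_add (hb a) h1) h2

lemma LC_psi {t : ℂ} (ht : 0 < t.re) : LC psi t = 1 / K t - t := by
  have hK : K t ≠ 0 := K_ne_zero ht.le
  obtain ⟨C, hC, hb⟩ := psiA_bd
  have i1 := LC_int psiA_cont hb ht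
  have i2 : IntegrableOn (fun b : ℝ => cexp (-t * b) * (f2 b : ℂ)) (Ioi 0) := dec2.integrableOn (by linarith)
  have i3 : IntegrableOn (fun b : ℝ => cexp (-t * b) * (h b : ℂ)) (Ioi 0) := dec_h.integrableOn (by linarith)
  have e : LC psi t = LC psiA t - L f2 t - 2 * K t := by
    unfold LC L K L psi
    have e1 : ∀ a : ℝ, cexp (-t * a) * (psiA a - f2 a - 2 * h a) =
        (cexp (-t * a) * psiA a - cexp (-t * a) * (f2 a : ℂ)) - 2 * (cexp (-t * a) * (h a : ℂ)) := by
      intro a; ring
    simp_rw [e1]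
    have i12 : IntegrableOn (fun b : ℝ => cexp (-t * b) * psiA b - cexp (-t * b) * (f2 b : ℂ)) (Ioi 0) := i1.sub i2
    rw [integral_sub i12 (i3.const_mul 2), integral_sub i1 i2, integral_const_mul]
  have hs : -1 < t.re := by linarith
  have e2 : L f2 t = t * (t * K t - 1) := by
    rw [← K_step1 hs, K_step0 hs]; ring
  rw [e, LC_psiA_eq ht, e2]
  unfold Q
  field_simp
  ring

end Pool.Agent.E8helper52.OR
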