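import Pool.Agent.E8helper52.OR.Unique

open MeasureTheory Set Filter Topology Complex
open scoped ComplexConjugate

namespace Pool.Agent.E8helper52.OR

noncomputable def eA (k : ℕ) : ℂ := 2 * ∫ u in Ioi (0:ℝ), A u * ((T u ^ (2 * k) * h u : ℝ) : ℂ)

noncomputable def cr (k : ℕ) : ℂ := if k = 0 then -1 else if k = 1 then -2 else 0

noncomputable def ee (k : ℕ) : ℂ := eA k + cr k

lemma h_add_sub (a u : ℝ) : h (a + u) + h (a - u) = 2 * h a * h u * (1 - T a ^ 2 * T u ^ 2)⁻¹ := by
  have ca := Real.cosh_pos a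
  have cu := Real.cosh_pos u
  have e1 : Real.cosh (a + u) = Real.cosh a * Real.cosh u * (1 + T a * T u) := by
    rw [Real.cosh_add, T_eq, T_eq]; field_simp
  have e2 : Real.cosh (a - u) = Real.cosh a * Real.cosh u * (1 - T a * T u) := by
    rw [Real.cosh_sub, T_eq, T_eq]; field_simp
  have hTa := abs_T_lt a
  have hTu := abs_T_lt u
  have hlt : |T a * T u| < 1 := by
    rw [abs_mul]
    nlinarith [abs_nonneg (T a), abs_nonneg (T u)]
  rw [abs_lt] at hlt
  have n1 : 1 + T a * T u ≠ 0 := by linarith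
  have n2 : 1 - T a * T u ≠ 0 := by linarith
  have n3 : 1 - T a ^ 2 * T u ^ 2 = (1 + T a * T u) * (1 - T a * T u) := by ring
  unfold h
  rw [e1, e2, n3]
  field_simp
  ring

lemma h_sub_eq (a b : ℝ) : h (b - a) = h b * h a * (1 - T a * T b)⁻¹ := by
  have ca := Real.cosh_pos a
  have cu := Real.cosh_pos b
  have e2 : Real.cosh (b - a) = Real.cosh b * Real.cosh a * (1 - T a * T b) := by
    rw [Real.cosh_sub, T_eq, T_eq]; field_simp
  have hTa := abs_T_lt a
  have hTu := abs_T_lt b
  have hlt : |T a * T b| < 1 := by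
    rw [abs_mul]
    nlinarith [abs_nonneg (T a), abs_nonneg (T b)]
  rw [abs_lt] at hlt
  have n2 : 1 - T a * T b ≠ 0 := by linarith
  unfold h
  rw [e2]
  field_simp

lemma psiA_half (a : ℝ) : psiA a = ∫ u in Ioi (0:ℝ), A u * ((h (a + u) + h (a - u) : ℝ) : ℂ) := by
  obtain ⟨C, hC, hb⟩ := A_bd
  have hi : ∀ c : ℝ, Integrable (fun u : ℝ => A u * (h (c + u) : ℂ)) := by
    intro c
    refine ((integrable_h.comp_add_left c).const_mul C).mono' ?_ ?_
    · have := A_cont
      have := continuous_h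
      apply Continuous.aestronglyMeasurable
      fun_prop
    · filter_upwards with u
      rw [norm_mul, Complex.norm_real, Real.norm_eq_abs, abs_of_pos (h_pos _)]
      exact mul_le_mul_of_nonneg_right (hb u) (h_pos _).le
  have hi2 : Integrable (fun u : ℝ => A u * (h (a - u) : ℂ)) := by
    refine (hi (-a)).congr ?_
    filter_upwards with u
    rw [← h_neg (a - u)]
    congr 3; ring
  unfold psiA
  rw [← intervalIntegral.integral_Iic_add_Ioi (b := 0) (hi a).integrableOn (hi a).integrableOn]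
  have e := integral_comp_neg_Ioi (0:ℝ) (fun u : ℝ => A u * (h (a + u) : ℂ))
  rw [neg_zero] at e
  rw [← e, add_comm]
  have e2 : ∀ u : ℝ, A (-u) * (h (a + -u) : ℂ) = A u * (h (a - u) : ℂ) := by
    intro u; rw [A_neg, sub_eq_add_neg]
  simp_rw [e2]
  rw [← integral_add (hi a).integrableOn hi2.integrableOn]
  congr 1; ext u
  push_cast; ring

lemma psiA_series (a : ℝ) : HasSum (fun k : ℕ => ((h a * T a ^ (2 * k) : ℝ) : ℂ) * eA k) (psiA a) := by
  obtain ⟨C, hC, hb⟩ := A_bd
  set F : ℕ → ℝ → ℂ := fun k u => A u * ((2 * h a * h u * (T a ^ 2 * T u ^ 2) ^ k : ℝ) : ℂ) with hF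
  have hTa : T a ^ 2 < 1 := by
    have := abs_T_lt a
    rw [← sq_abs]; nlinarith [abs_nonneg (T a)]
  have hTu : ∀ u, T u ^ 2 ≤ 1 := T_sq_le
  have hbd : ∀ (k : ℕ) (u : ℝ), ‖F k u‖ ≤ (C * (2 * h a) * (T a ^ 2) ^ k) * h u := by
    intro k u
    have h1 := h_pos a
    have h2 := h_pos u
    simp only [hF]
    rw [norm_mul, Complex.norm_real, Real.norm_eq_abs, abs_of_nonneg (by positivity)]
    have h3 : (T a ^ 2 * T u ^ 2) ^ k ≤ (T a ^ 2) ^ k := by
      apply pow_le_pow_left₀ (by positivity)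
      nlinarith [hTu u, sq_nonneg (T a)]
    calc ‖A u‖ * (2 * h a * h u * (T a ^ 2 * T u ^ 2) ^ k) ≤ C * (2 * h a * h u * (T a ^ 2) ^ k) := by
          apply mul_le_mul (hb u) _ (by positivity) hC
          apply mul_le_mul_of_nonneg_left h3 (by positivity)
      _ = _ := by ring
  have hFint : ∀ k, Integrable (F k) (volume.restrict (Ioi 0)) := by
    intro k
    refine (integrableOn_h.const_mul (C * (2 * h a) * (T a ^ 2) ^ k)).mono' ?_ ?_
    · have := A_cont
      have := continuous_h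
      have := continuous_T
      apply Continuous.aestronglyMeasurable
      simp only [hF]
      fun_prop
    · filter_upwards with u
      exact hbd k u
  have hsum : Summable (fun k => ∫ u in Ioi (0:ℝ), ‖F k u‖) := by
    have h1 : Summable (fun k : ℕ => (C * (2 * h a) * (∫ u in Ioi (0:ℝ), h u)) * (T a ^ 2) ^ k) :=
      (summable_geometric_of_lt_one (sq_nonneg _) hTa).mul_left _
    refine Summable.of_nonneg_of_le (fun k => by positivity) (fun k => ?_) h1
    have := integral_mono (μ := volume.restrict (Ioi (0:ℝ))) (hFint k).norm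
      (integrableOn_h.const_mul (C * (2 * h a) * (T a ^ 2) ^ k)) (fun u => hbd k u)
    refine this.trans (le_of_eq ?_)
    rw [integral_const_mul]; ring
  have key := hasSum_integral_of_summable_integral_norm hFint hsum
  have e1 : (∫ u in Ioi (0:ℝ), ∑' k, F k u) = psiA a := by
    rw [psiA_half]
    congr 1; ext u
    have hlt : T a ^ 2 * T u ^ 2 < 1 := by nlinarith [hTu u, sq_nonneg (T a), sq_nonneg (T u)]
    have hg := (hasSum_geometric_of_lt_one (r := T a ^ 2 * T u ^ 2) (by positivity) hlt).mul_left (2 * h a * h u)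
    have hg2 := (Complex.hasSum_ofReal.2 hg).mul_left (A u)
    have : (∑' k, F k u) = A u * ((2 * h a * h u * (1 - T a ^ 2 * T u ^ 2)⁻¹ : ℝ) : ℂ) := hg2.tsum_eq
    rw [this, h_add_sub]
  rw [e1] at key
  have e2 : (fun k : ℕ => ((h a * T a ^ (2 * k) : ℝ) : ℂ) * eA k) = fun k => ∫ u in Ioi (0:ℝ), F k u := by
    ext k
    unfold eA
    rw [← integral_const_mul, ← integral_const_mul]
    congr 1; ext u
    simp only [hF]
    rw [mul_pow, ← pow_mul, ← pow_mul]
    push_cast; ring
  rw [e2]; exact key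

lemma psi_series (a : ℝ) : HasSum (fun k : ℕ => ((h a * T a ^ (2 * k) : ℝ) : ℂ) * ee k) (psi a) := by
  have h1 := psiA_series a
  have h2 : HasSum (fun k : ℕ => ((h a * T a ^ (2 * k) : ℝ) : ℂ) * cr k)
      (∑ k ∈ Finset.range 2, ((h a * T a ^ (2 * k) : ℝ) : ℂ) * cr k) := by
    apply hasSum_sum_of_ne_finset_zero
    intro k hk
    have hk2 : 2 ≤ k := by
      simp only [Finset.mem_range] at hk; omega
    unfold cr
    rw [if_neg (by omega), if_neg (by omega), mul_zero]
  have h3 := h1.add h2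
  have e : psi a = psiA a + ∑ k ∈ Finset.range 2, ((h a * T a ^ (2 * k) : ℝ) : ℂ) * cr k := by
    unfold psi f2 cr
    rw [Finset.sum_range_succ, Finset.sum_range_one]
    simp
    ring
  rw [e]
  have e2 : (fun k : ℕ => ((h a * T a ^ (2 * k) : ℝ) : ℂ) * ee k) =
      fun k : ℕ => ((h a * T a ^ (2 * k) : ℝ) : ℂ) * eA k + ((h a * T a ^ (2 * k) : ℝ) : ℂ) * cr k := by
    ext k; unfold ee; ring
  rw [e2]; exact h3

lemma ee_bd : ∃ C, 0 ≤ C ∧ ∀ k, ‖ee k‖ ≤ C := by
  obtain ⟨C, hC, hb⟩ := A_bd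
  refine ⟨2 * (C * (∫ u in Ioi (0:ℝ), h u)) + 2, by
    have : 0 ≤ ∫ u in Ioi (0:ℝ), h u := integral_nonneg (fun u => (h_pos u).le)
    positivity, fun k => ?_⟩
  unfold ee
  refine (norm_add_le _ _).trans ?_
  apply add_le_add
  · unfold eA
    rw [norm_mul]
    simp only [Complex.norm_ofNat]
    apply mul_le_mul_of_nonneg_left _ (by norm_num)
    rw [← integral_const_mul]
    apply norm_integral_le_of_norm_le (integrableOn_h.const_mul C)
    filter_upwards with u
    rw [norm_mul, Complex.norm_real, Real.norm_eq_abs, pow_mul, abs_of_nonneg (by have := h_pos u; positivity)]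
    have h1 : (T u ^ 2) ^ k ≤ 1 := pow_le_one₀ (sq_nonneg _) (T_sq_le u)
    have h2 := h_pos u
    apply mul_le_mul (hb u) _ (by positivity) hC
    nlinarith
  · unfold cr
    split_ifs <;> simp

end Pool.Agent.E8helper52.OR
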