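import Pool.Agent.E8helper52.OR.Kfun

open MeasureTheory Set Filter Topology Complex
open scoped ComplexConjugate

namespace Pool.Agent.E8helper52.OR

lemma K_conj (s : ℂ) : K (conj s) = conj (K s) := by
  unfold K L
  rw [← integral_conj]
  congr 1; ext b
  simp only [map_mul, conj_ofReal, ← exp_conj, map_neg]

lemma L_conj (f : ℝ → ℝ) (s : ℂ) : L f (conj s) = conj (L f s) := by
  unfold L
  rw [← integral_conj]
  congr 1; ext b
  simp only [map_mul, conj_ofReal, ← exp_conj, map_neg]

lemma intg {p : ℝ → ℝ} (hp : Continuous p) {M : ℝ} (hM : ∀ b, 0 < b → |p b| ≤ M * h b) :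
    IntegrableOn p (Ioi 0) := by
  refine (integrableOn_h.const_mul M).mono' hp.aestronglyMeasurable ?_
  filter_upwards [ae_restrict_mem measurableSet_Ioi] with b hb
  exact hM b hb

lemma tendsto_h : Tendsto h atTop (𝓝 0) := by
  have h1 : Tendsto (fun b : ℝ => 2 * Real.exp (-b)) atTop (𝓝 (2 * 0)) :=
    Real.tendsto_exp_neg_atTop_nhds_zero.const_mul 2
  rw [mul_zero] at h1
  exact squeeze_zero (fun b => (h_pos b).le) h_le_exp h1

lemma tendg {p : ℝ → ℝ} {M : ℝ} (hM : ∀ b, 0 < b → |p b| ≤ M * h b) :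
    Tendsto p atTop (𝓝 0) := by
  have h1 : Tendsto (fun b : ℝ => M * h b) atTop (𝓝 (M * 0)) := tendsto_h.const_mul M
  rw [mul_zero] at h1
  refine squeeze_zero_norm' ?_ h1
  filter_upwards [eventually_gt_atTop 0] with b hb
  exact hM b hb

lemma posint {p : ℝ → ℝ} {y : ℝ} (hy : 0 < y) (hpos : ∀ b, 0 < b → 0 < p b)
    (hint : IntegrableOn (fun b => p b * (1 - Real.cos (y * b))) (Ioi 0)) :
    0 < ∫ b in Ioi (0:ℝ), p b * (1 - Real.cos (y * b)) := by
  rw [setIntegral_pos_iff_support_of_nonneg_ae _ hint]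
  · have hsub : Ioo (0:ℝ) (Real.pi / y) ⊆ (Function.support fun b => p b * (1 - Real.cos (y * b))) ∩ Ioi 0 := by
      intro b hb
      refine ⟨?_, hb.1⟩
      rw [Function.mem_support]
      have h1 : y * b < Real.pi := by
        have := hb.2
        rw [lt_div_iff₀ hy] at this
        linarith
      have h2 : Real.cos (y * b) < 1 := by
        have h3 : Real.cos (y * b) < Real.cos 0 := by
          apply Real.cos_lt_cos_of_nonneg_of_le_pi (le_refl 0) h1.le
          exact mul_pos hy hb.1
        simpa using h3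
      exact (mul_pos (hpos b hb.1) (by linarith)).ne'
    refine lt_of_lt_of_le ?_ (measure_mono hsub)
    rw [Real.volume_Ioo]
    simp only [sub_zero, ENNReal.ofReal_pos]
    positivity
  · filter_upwards [ae_restrict_mem measurableSet_Ioi] with b hb
    exact mul_nonneg (hpos b hb).le (by linarith [Real.cos_le_one (y * b)])

/-- `e^{-xb} sech b` -/
noncomputable def G (x b : ℝ) : ℝ := Real.exp (-x * b) * h b

lemma G_pos (x b : ℝ) : 0 < G x b := mul_pos (Real.exp_pos _) (h_pos b)

lemma G_le {x b : ℝ} (hx : 0 ≤ x) (hb : 0 < b) : G x b ≤ h b := by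
  unfold G
  have := exp_neg_le_one hx hb.le
  have := h_pos b
  nlinarith

lemma hasDerivAt_G (x b : ℝ) : HasDerivAt (G x) (-(x + T b) * G x b) b := by
  have h1 : HasDerivAt (fun b : ℝ => Real.exp (-x * b)) (Real.exp (-x * b) * (-x * 1)) b :=
    ((hasDerivAt_id b).const_mul (-x)).exp
  have h2 := h1.mul (hasDerivAt_h b)
  refine h2.congr_deriv ?_
  simp only [G]; ring

lemma continuous_G (x : ℝ) : Continuous (G x) := by
  have := continuous_h
  unfold G; fun_prop

lemma K_re (s : ℂ) (hs : 0 ≤ s.re) : (K s).re = ∫ b in Ioi (0:ℝ), G s.re b * Real.cos (s.im * b) := by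
  have hint : IntegrableOn (fun b : ℝ => cexp (-s * b) * (h b : ℂ)) (Ioi 0) :=
    dec_h.integrableOn (by linarith)
  have h1 : (K s).re = ∫ b in Ioi (0:ℝ), (cexp (-s * b) * (h b : ℂ)).re := by
    unfold K L
    have := integral_re hint
    simpa using this.symm
  rw [h1]
  congr 1; ext b
  rw [Complex.mul_re, Complex.exp_re]
  simp only [G, ofReal_re, ofReal_im, mul_zero, sub_zero, neg_mul, neg_re, mul_re, neg_im, mul_im]
  rw [zero_add, Real.cos_neg]
  ring

lemma K_im (s : ℂ) (hs : 0 ≤ s.re) : (K s).im = - ∫ b in Ioi (0:ℝ), G s.re b * Real.sin (s.im * b) := by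
  have hint : IntegrableOn (fun b : ℝ => cexp (-s * b) * (h b : ℂ)) (Ioi 0) :=
    dec_h.integrableOn (by linarith)
  have h1 : (K s).im = ∫ b in Ioi (0:ℝ), (cexp (-s * b) * (h b : ℂ)).im := by
    unfold K L
    have := integral_im hint
    simpa using this.symm
  rw [h1, ← integral_neg]
  congr 1; ext b
  rw [Complex.mul_im, Complex.exp_im]
  simp only [G, ofReal_re, ofReal_im, mul_zero, sub_zero, neg_mul, neg_re, mul_re, neg_im, mul_im]
  rw [zero_add, Real.sin_neg]
  ring

lemma K_im_neg {s : ℂ} (hs : 0 ≤ s.re) (hy : 0 < s.im) : (K s).im < 0 := by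
  rw [K_im s hs]
  set x := s.re
  set y := s.im
  have hcG := continuous_G x
  have hcT := continuous_T
  have hb1 : ∀ b, 0 < b → |(-(x + T b) * G x b) * (1 - Real.cos (y * b))| ≤ ((x + 1) * 2) * h b := by
    intro b hb
    rw [abs_mul, abs_mul, abs_neg, abs_of_pos (G_pos x b)]
    have e1 : |x + T b| ≤ x + 1 := by
      rw [abs_le]; have := T_pos hb; have := abs_T_le b; rw [abs_le] at this
      constructor <;> linarith
    have e2 : |1 - Real.cos (y * b)| ≤ 2 := by
      rw [abs_le]; constructor <;> linarith [Real.cos_le_one (y * b), Real.neg_one_le_cos (y * b)]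
    have e3 := G_le hs hb
    have e4 := G_pos x b
    calc |x + T b| * G x b * |1 - Real.cos (y * b)| ≤ (x + 1) * h b * 2 := by
          apply mul_le_mul _ e2 (abs_nonneg _) (by have := h_pos b; positivity)
          exact mul_le_mul e1 e3 e4.le (by positivity)
      _ = _ := by ring
  have hb2 : ∀ b, 0 < b → |G x b * (y * Real.sin (y * b))| ≤ y * h b := by
    intro b hb
    rw [abs_mul, abs_mul, abs_of_pos (G_pos x b), abs_of_pos hy]
    have e3 := G_le hs hb
    have e4 := G_pos x b
    have e5 := Real.abs_sin_le_one (y * b)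
    calc G x b * (y * |Real.sin (y * b)|) ≤ h b * (y * 1) := by
          apply mul_le_mul e3 _ (by positivity) (h_pos b).le
          exact mul_le_mul_of_nonneg_left e5 hy.le
      _ = _ := by ring
  have hb3 : ∀ b, 0 < b → |G x b * (1 - Real.cos (y * b))| ≤ 2 * h b := by
    intro b hb
    rw [abs_mul, abs_of_pos (G_pos x b)]
    have e2 : |1 - Real.cos (y * b)| ≤ 2 := by
      rw [abs_le]; constructor <;> linarith [Real.cos_le_one (y * b), Real.neg_one_le_cos (y * b)]
    have e3 := G_le hs hb
    have e4 := G_pos x b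
    calc G x b * |1 - Real.cos (y * b)| ≤ h b * 2 := mul_le_mul e3 e2 (abs_nonneg _) (h_pos b).le
      _ = _ := by ring
  have i1 : IntegrableOn (fun b => (-(x + T b) * G x b) * (1 - Real.cos (y * b))) (Ioi 0) :=
    intg (by fun_prop) hb1
  have i2 : IntegrableOn (fun b => G x b * (y * Real.sin (y * b))) (Ioi 0) :=
    intg (by fun_prop) hb2
  have hder : ∀ b ∈ Ici (0:ℝ), HasDerivAt (fun b => G x b * (1 - Real.cos (y * b)))
      ((-(x + T b) * G x b) * (1 - Real.cos (y * b)) + G x b * (y * Real.sin (y * b))) b := by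
    intro b _
    have h1 : HasDerivAt (fun b : ℝ => 1 - Real.cos (y * b)) (y * Real.sin (y * b)) b := by
      have := (((hasDerivAt_id b).const_mul y).cos).const_sub 1
      refine this.congr_deriv ?_
      simp; ring
    exact (hasDerivAt_G x b).mul h1
  have key := integral_Ioi_of_hasDerivAt_of_tendsto' hder (i1.add i2) (tendg hb3)
  rw [integral_add i1 i2] at key
  simp only [mul_zero, Real.cos_zero, sub_self] at key
  have e : (∫ b in Ioi (0:ℝ), G x b * (y * Real.sin (y * b))) = y * ∫ b in Ioi (0:ℝ), G x b * Real.sin (y * b) := by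
    rw [← integral_const_mul]; congr 1; ext b; ring
  have hpos := posint (p := fun b => (x + T b) * G x b) hy
    (fun b hb => mul_pos (by have := T_pos hb; linarith [show 0 ≤ x from hs]) (G_pos x b)) (by
      refine i1.neg.congr ?_
      filter_upwards with b
      simp only [Pi.neg_apply]; ring)
  have e2 : (∫ b in Ioi (0:ℝ), (-(x + T b) * G x b) * (1 - Real.cos (y * b))) =
      - ∫ b in Ioi (0:ℝ), (fun b => (x + T b) * G x b) b * (1 - Real.cos (y * b)) := by
    rw [← integral_neg]; congr 1; ext b; ring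
  rw [e, e2] at key
  have : 0 < y * ∫ b in Ioi (0:ℝ), G x b * Real.sin (y * b) := by linarith
  have := pos_of_mul_pos_right this hy.le
  linarith

lemma K_re_pos {s : ℂ} (hs : 1 ≤ s.re) (hy : 0 < s.im) : 0 < (K s).re := by
  have hs0 : 0 ≤ s.re := by linarith
  rw [K_re s hs0]
  set x := s.re
  set y := s.im
  have hcG := continuous_G x
  have hcT := continuous_T
  have hch := continuous_h
  -- F(b) = G sin(yb)/y - G'(b)(1-cos yb)/y^2, multiply by y^2
  have e2 : ∀ b, |1 - Real.cos (y * b)| ≤ 2 := fun b => by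
      rw [abs_le]; constructor <;> linarith [Real.cos_le_one (y * b), Real.neg_one_le_cos (y * b)]
  have hb1 : ∀ b, 0 < b → |G x b * Real.cos (y * b) * y ^ 2| ≤ y ^ 2 * h b := by
    intro b hb
    rw [abs_mul, abs_mul, abs_of_pos (G_pos x b), abs_of_pos (show 0 < y ^ 2 by positivity)]
    have e3 := G_le hs0 hb
    have e4 := G_pos x b
    have e5 := Real.abs_cos_le_one (y * b)
    calc G x b * |Real.cos (y * b)| * y ^ 2 ≤ (h b * 1) * y ^ 2 := by
          apply mul_le_mul_of_nonneg_right _ (by positivity)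
          exact mul_le_mul e3 e5 (abs_nonneg _) (h_pos b).le
      _ = _ := by ring
  have hb2 : ∀ b, 0 < b → |(((x + T b) ^ 2 - h b ^ 2) * G x b) * (1 - Real.cos (y * b))| ≤
      (((x + 1) ^ 2) * 2) * h b := by
    intro b hb
    rw [abs_mul, abs_mul, abs_of_pos (G_pos x b)]
    have hT := T_pos hb
    have hT1 := abs_T_le b
    rw [abs_le] at hT1
    have hh := h_pos b
    have hh1 := h_le_one b
    have e1 : |(x + T b) ^ 2 - h b ^ 2| ≤ (x + 1) ^ 2 := by
      rw [abs_le]; constructor <;> nlinarith [show 1 ≤ x from hs]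
    have e3 := G_le hs0 hb
    have e4 := G_pos x b
    calc |(x + T b) ^ 2 - h b ^ 2| * G x b * |1 - Real.cos (y * b)| ≤ (x + 1) ^ 2 * h b * 2 := by
          apply mul_le_mul _ (e2 b) (abs_nonneg _) (by positivity)
          exact mul_le_mul e1 e3 e4.le (by positivity)
      _ = _ := by ring
  have hb3 : ∀ b, 0 < b → |G x b * Real.sin (y * b) * y + (x + T b) * G x b * (1 - Real.cos (y * b))| ≤
      (y + (x + 1) * 2) * h b := by
    intro b hb
    have hT := T_pos hb
    have hT1 := abs_T_le b
    rw [abs_le] at hT1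
    have e3 := G_le hs0 hb
    have e4 := G_pos x b
    have e5 := Real.abs_sin_le_one (y * b)
    have q1 : |G x b * Real.sin (y * b) * y| ≤ h b * 1 * y := by
      rw [abs_mul, abs_mul, abs_of_pos e4, abs_of_pos hy]
      apply mul_le_mul_of_nonneg_right _ hy.le
      exact mul_le_mul e3 e5 (abs_nonneg _) (h_pos b).le
    have q2 : |(x + T b) * G x b * (1 - Real.cos (y * b))| ≤ (x + 1) * h b * 2 := by
      rw [abs_mul, abs_mul, abs_of_pos e4, abs_of_pos (show 0 < x + T b by linarith [show 1 ≤ x from hs])]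
      apply mul_le_mul _ (e2 b) (abs_nonneg _) (by have := h_pos b; positivity)
      exact mul_le_mul (by linarith) e3 e4.le (by positivity)
    calc _ ≤ _ := abs_add_le _ _
      _ ≤ h b * 1 * y + (x + 1) * h b * 2 := add_le_add q1 q2
      _ = _ := by ring
  have i1 : IntegrableOn (fun b => G x b * Real.cos (y * b) * y ^ 2) (Ioi 0) := intg (by fun_prop) hb1
  have i2 : IntegrableOn (fun b => (((x + T b) ^ 2 - h b ^ 2) * G x b) * (1 - Real.cos (y * b))) (Ioi 0) :=
    intg (by fun_prop) hb2
  have hder : ∀ b ∈ Ici (0:ℝ), HasDerivAt (fun b => G x b * Real.sin (y * b) * y + (x + T b) * G x b * (1 - Real.cos (y * b)))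
      (G x b * Real.cos (y * b) * y ^ 2 - (((x + T b) ^ 2 - h b ^ 2) * G x b) * (1 - Real.cos (y * b))) b := by
    intro b _
    have h1 : HasDerivAt (fun b : ℝ => 1 - Real.cos (y * b)) (y * Real.sin (y * b)) b := by
      have := (((hasDerivAt_id b).const_mul y).cos).const_sub 1
      refine this.congr_deriv ?_
      simp; ring
    have h2 : HasDerivAt (fun b : ℝ => Real.sin (y * b)) (y * Real.cos (y * b)) b := by
      have := ((hasDerivAt_id b).const_mul y).sin
      refine this.congr_deriv ?_
      simp; ring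
    have h3 := (((hasDerivAt_G x b).mul h2).mul_const y).add
      ((((hasDerivAt_T b).const_add x).mul (hasDerivAt_G x b)).mul h1)
    refine h3.congr_deriv ?_
    simp only [Pi.mul_apply]
    ring
  have key := integral_Ioi_of_hasDerivAt_of_tendsto' hder (i1.sub i2) (tendg hb3)
  rw [integral_sub i1 i2] at key
  simp only [mul_zero, Real.cos_zero, Real.sin_zero, sub_self, zero_mul, add_zero] at key
  have hpos := posint (p := fun b => ((x + T b) ^ 2 - h b ^ 2) * G x b) hy
    (fun b hb => mul_pos (by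
      have := T_pos hb
      have := h_le_one b
      have := h_pos b
      nlinarith [show 1 ≤ x from hs]) (G_pos x b)) i2
  have e : (∫ b in Ioi (0:ℝ), G x b * Real.cos (y * b) * y ^ 2) = (∫ b in Ioi (0:ℝ), G x b * Real.cos (y * b)) * y ^ 2 := by
    rw [integral_mul_const]
  rw [e] at key
  have h5 : 0 < (∫ b in Ioi (0:ℝ), G x b * Real.cos (y * b)) * y ^ 2 := by
    have : (∫ b in Ioi (0:ℝ), G x b * Real.cos (y * b)) * y ^ 2 =
      ∫ b in Ioi (0:ℝ), (fun b => ((x + T b) ^ 2 - h b ^ 2) * G x b) b * (1 - Real.cos (y * b)) := by linarith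
    rw [this]; exact hpos
  exact pos_of_mul_pos_left h5 (by positivity)

lemma K_real (x : ℝ) : K x = ((∫ b in Ioi (0:ℝ), G x b : ℝ) : ℂ) := by
  have : ((∫ b in Ioi (0:ℝ), G x b : ℝ) : ℂ) = ∫ b in Ioi (0:ℝ), ((G x b : ℝ) : ℂ) := integral_ofReal.symm
  rw [this]
  unfold K L G
  congr 1; ext b
  push_cast; ring

lemma K_real_pos {x : ℝ} (hx : 0 ≤ x) : 0 < ∫ b in Ioi (0:ℝ), G x b := by
  have hi : IntegrableOn (G x) (Ioi 0) := intg (continuous_G x) (M := 1) (fun b hb => by
    rw [abs_of_pos (G_pos x b), one_mul]; exact G_le hx hb)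
  rw [setIntegral_pos_iff_support_of_nonneg_ae _ hi]
  · have : (Function.support (G x)) ∩ Ioi 0 = Ioi 0 := by
      ext b
      simp only [mem_inter_iff, Function.mem_support, mem_Ioi, and_iff_right_iff_imp]
      intro _; exact (G_pos x b).ne'
    rw [this]
    simp
  · filter_upwards with b
    exact (G_pos x b).le

lemma K_real_le {x : ℝ} (hx : 0 ≤ x) : ∫ b in Ioi (0:ℝ), G x b ≤ 2 := by
  have hi : IntegrableOn (G x) (Ioi 0) := intg (continuous_G x) (M := 1) (fun b hb => by
    rw [abs_of_pos (G_pos x b), one_mul]; exact G_le hx hb)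
  refine le_trans ?_ integral_h_le
  apply setIntegral_mono_on hi integrableOn_h measurableSet_Ioi
  intro b hb
  exact G_le hx hb

/-- `K` has no zeros in the closed right half plane -/
lemma K_ne_zero {s : ℂ} (hs : 0 ≤ s.re) : K s ≠ 0 := by
  rcases lt_trichotomy s.im 0 with hy | hy | hy
  · have h1 : (K (conj s)).im < 0 := K_im_neg (by simpa using hs) (by simpa using hy)
    rw [K_conj] at h1
    intro h0
    rw [h0] at h1
    simp at h1
  · have e : s = (s.re : ℂ) := by
      apply Complex.ext <;> simp [hy]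
    rw [e, K_real]
    exact_mod_cast (K_real_pos hs).ne'
  · intro h0
    have h1 := K_im_neg hs hy
    rw [h0] at h1
    simp at h1

end Pool.Agent.E8helper52.OR
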