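import Pool.Agent.E8helper52.OR.Repr

open MeasureTheory Set Filter Topology Complex
open scoped ComplexConjugate FourierTransform

namespace Pool.Agent.E8helper52.OR

noncomputable def conv (b : ℝ) : ℂ := ∫ a in (0:ℝ)..b, psi a * (h (b - a) : ℂ)

lemma conv_cont : Continuous conv := by
  unfold conv
  apply intervalIntegral.continuous_parametric_intervalIntegral_of_continuous _ continuous_id
  have h1 := psi_cont
  have h2 := continuous_h
  unfold Function.uncurry
  fun_prop

lemma f1_cont : Continuous f1 := by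
  rw [continuous_iff_continuousAt]; exact fun b => (hd1 b).continuousAt

lemma conv_laplace {t : ℂ} (ht : 0 < t.re) :
    IntegrableOn (fun b : ℝ => cexp (-t * b) * conv b) (Ioi 0) ∧ LC conv t = (1 / K t - t) * K t := by
  obtain ⟨C, hC, hb⟩ := psi_bd
  have i1 : IntegrableOn (fun a : ℝ => cexp (-t * a) * psi a) (Ioi 0) := LC_int psi_cont hb ht
  have i2 : IntegrableOn (fun a : ℝ => cexp (-t * a) * (h a : ℂ)) (Ioi 0) := dec_h.integrableOn (by linarith)
  have e : ∀ b : ℝ, (∫ a in (0:ℝ)..b, (ContinuousLinearMap.mul ℝ ℂ) (cexp (-t * a) * psi a)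
      (cexp (-t * ((b - a : ℝ) : ℂ)) * (h (b - a) : ℂ))) = cexp (-t * b) * conv b := by
    intro b
    unfold conv
    rw [← intervalIntegral.integral_const_mul]
    congr 1; ext a
    simp only [ContinuousLinearMap.mul_apply']
    have : cexp (-t * b) = cexp (-t * a) * cexp (-t * ((b - a : ℝ) : ℂ)) := by
      rw [← Complex.exp_add]; congr 1; push_cast; ring
    rw [this]; ring
  constructor
  · have := integrable_posConvolution i1 i2 (ContinuousLinearMap.mul ℝ ℂ)
    unfold posConvolution at this
    rw [integrable_indicator_iff measurableSet_Ioi] at this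
    refine this.congr ?_
    filter_upwards with b
    exact e b
  · have := integral_posConvolution i1 i2 (ContinuousLinearMap.mul ℝ ℂ)
    unfold LC
    rw [← LC_psi ht]
    simp_rw [e] at this
    rw [this]
    rfl

lemma hh_laplace {t : ℂ} (ht : 0 < t.re) :
    IntegrableOn (fun b : ℝ => cexp (-t * b) * (conv b + f1 b)) (Ioi 0) ∧
    LC (fun b => conv b + f1 b) t = 0 := by
  obtain ⟨i1, e1⟩ := conv_laplace ht
  have i2 : IntegrableOn (fun a : ℝ => cexp (-t * a) * (f1 a : ℂ)) (Ioi 0) := dec1.integrableOn (by linarith)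
  have hK : K t ≠ 0 := K_ne_zero ht.le
  have e : ∀ b : ℝ, cexp (-t * b) * (conv b + f1 b) = cexp (-t * b) * conv b + cexp (-t * b) * (f1 b : ℂ) := fun b => by ring
  constructor
  · simp_rw [e]; exact i1.add i2
  · unfold LC
    simp_rw [e]
    rw [integral_add i1 i2]
    have e2 : (∫ b in Ioi (0:ℝ), cexp (-t * b) * conv b) = (1 / K t - t) * K t := e1
    have e3 : (∫ b in Ioi (0:ℝ), cexp (-t * b) * (f1 b : ℂ)) = t * K t - 1 := by
      have := K_step0 (s := t) (by linarith)
      unfold L at this
      rw [this]; ring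
    rw [e2, e3]
    field_simp
    ring

theorem conv_eq {b : ℝ} (hb : 0 < b) : conv b + f1 b = 0 := by
  set F : ℝ → ℂ := (Ioi (0:ℝ)).indicator (fun b => cexp (-(1:ℂ) * b) * (conv b + f1 b)) with hF
  have hFint : Integrable F := by
    rw [hF, integrable_indicator_iff measurableSet_Ioi]
    exact (hh_laplace (t := 1) (by simp)).1
  have hFou : 𝓕 F = fun _ => 0 := by
    ext ξ
    rw [Real.fourier_eq']
    have hre : 0 < (1 + 2 * Real.pi * ξ * I : ℂ).re := by simp
    have := (hh_laplace hre).2
    unfold LC at this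
    rw [← this, ← integral_indicator measurableSet_Ioi]
    congr 1; ext v
    by_cases hv : v ∈ Ioi (0:ℝ)
    · rw [indicator_of_mem hv, hF, indicator_of_mem hv, smul_eq_mul, ← mul_assoc, ← Complex.exp_add]
      congr 2
      simp
      ring
    · rw [indicator_of_notMem hv, hF, indicator_of_notMem hv, smul_zero]
  have hcont : ContinuousAt F b := by
    have h1 : Continuous (fun b : ℝ => cexp (-(1:ℂ) * b) * (conv b + f1 b)) := by
      have := conv_cont
      have := f1_cont
      fun_prop
    refine h1.continuousAt.congr ?_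
    filter_upwards [isOpen_Ioi.mem_nhds hb] with x hx
    rw [hF, indicator_of_mem hx]
  have hinv := hFint.fourierInv_fourier_eq (by rw [hFou]; exact integrable_zero _ _ _) hcont
  rw [hFou] at hinv
  have h0 : (𝓕⁻ (fun _ : ℝ => (0:ℂ))) b = 0 := by
    rw [Real.fourierInv_eq']
    simp
  rw [h0, hF, indicator_of_mem (mem_Ioi.2 hb)] at hinv
  have := hinv.symm
  exact (mul_eq_zero.1 this).resolve_left (Complex.exp_ne_zero _)

end Pool.Agent.E8helper52.OR
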