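import Pool.Agent.E8helper52.OR.Sign

open MeasureTheory Set Filter Topology Complex
open scoped ComplexConjugate

namespace Pool.Agent.E8helper52.OR

/-- `E(S) = cos(π S/2)` -/
noncomputable def E (S : ℂ) : ℂ := Complex.cos (Real.pi * S / 2)

/-- `D(S) = π - cos(πS/2) K(S)`; its zeros are the zeros of `K(-S)` -/
noncomputable def D (S : ℂ) : ℂ := Real.pi - E S * K S

lemma E_conj (S : ℂ) : E (conj S) = conj (E S) := by
  unfold E
  rw [← Complex.cos_conj]
  congr 1
  simp [Complex.conj_ofNat]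

lemma D_conj (S : ℂ) : D (conj S) = conj (D S) := by
  simp [D, E_conj, K_conj]

lemma E_re (S : ℂ) : (E S).re = Real.cos (Real.pi * S.re / 2) * Real.cosh (Real.pi * S.im / 2) := by
  unfold E
  have e : (Real.pi * S / 2 : ℂ) = ((Real.pi * S.re / 2 : ℝ) : ℂ) + ((Real.pi * S.im / 2 : ℝ) : ℂ) * I := by
    conv_lhs => rw [← Complex.re_add_im S]
    push_cast; ring
  rw [e, Complex.cos_add_mul_I]
  simp [← Complex.ofReal_cos, ← Complex.ofReal_sin, ← Complex.ofReal_cosh, ← Complex.ofReal_sinh, -ofReal_mul, -ofReal_div]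

lemma E_im (S : ℂ) : (E S).im = - (Real.sin (Real.pi * S.re / 2) * Real.sinh (Real.pi * S.im / 2)) := by
  unfold E
  have e : (Real.pi * S / 2 : ℂ) = ((Real.pi * S.re / 2 : ℝ) : ℂ) + ((Real.pi * S.im / 2 : ℝ) : ℂ) * I := by
    conv_lhs => rw [← Complex.re_add_im S]
    push_cast; ring
  rw [e, Complex.cos_add_mul_I]
  simp [← Complex.ofReal_cos, ← Complex.ofReal_sin, ← Complex.ofReal_cosh, ← Complex.ofReal_sinh, -ofReal_mul, -ofReal_div]

/-- location of the zeros of `D` in the upper half of the strip `0 ≤ Re ≤ 4` -/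
lemma zero_loc {S : ℂ} (h0 : 0 ≤ S.re) (h4 : S.re ≤ 4) (hy : 0 < S.im) (hD : D S = 0) :
    3 < S.re ∧ S.re < 4 := by
  have hK := K_im_neg h0 hy
  have hne := K_ne_zero h0
  have hE : E S * K S = Real.pi := by
    unfold D at hD
    linear_combination -hD
  -- real and imaginary parts
  have h1 : (E S).re * (K S).re - (E S).im * (K S).im = Real.pi := by
    have := congrArg Complex.re hE
    simpa using this
  have h2 : (E S).re * (K S).im + (E S).im * (K S).re = 0 := by
    have := congrArg Complex.im hE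
    simpa using this
  have hN : 0 < (K S).re ^ 2 + (K S).im ^ 2 := by nlinarith [sq_nonneg (K S).re]
  have hpi := Real.pi_pos
  -- E.im * |K|^2 = - π K.im
  have h3 : (E S).im * ((K S).re ^ 2 + (K S).im ^ 2) = - Real.pi * (K S).im := by
    linear_combination (K S).re * h2 - (K S).im * h1
  have h4' : (E S).re * ((K S).re ^ 2 + (K S).im ^ 2) = Real.pi * (K S).re := by
    linear_combination (K S).re * h1 + (K S).im * h2
  have hEim : 0 < (E S).im := by
    have : 0 < (E S).im * ((K S).re ^ 2 + (K S).im ^ 2) := by rw [h3]; nlinarith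
    exact pos_of_mul_pos_left this hN.le
  rw [E_im] at hEim
  have hsinh : 0 < Real.sinh (Real.pi * S.im / 2) := Real.sinh_pos_iff.2 (by positivity)
  have hsin : Real.sin (Real.pi * S.re / 2) < 0 := by
    by_contra hcon
    push Not at hcon
    have := mul_nonneg hcon hsinh.le
    linarith
  have h2' : 2 < S.re := by
    by_contra hcon
    push Not at hcon
    have : 0 ≤ Real.sin (Real.pi * S.re / 2) := Real.sin_nonneg_of_nonneg_of_le_pi (by positivity) (by nlinarith)
    linarith
  have hlt4 : S.re < 4 := by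
    rcases lt_or_eq_of_le h4 with h | h
    · exact h
    · exfalso
      rw [h] at hsin
      have : Real.sin (Real.pi * 4 / 2) = 0 := by
        rw [show Real.pi * 4 / 2 = 2 * Real.pi by ring]; exact Real.sin_two_pi
      linarith
  refine ⟨?_, hlt4⟩
  have hKre : 0 < (K S).re := K_re_pos (by linarith) hy
  have hEre : 0 < (E S).re := by
    have : 0 < (E S).re * ((K S).re ^ 2 + (K S).im ^ 2) := by rw [h4']; positivity
    exact pos_of_mul_pos_left this hN.le
  rw [E_re] at hEre
  have hcos : 0 < Real.cos (Real.pi * S.re / 2) := pos_of_mul_pos_left hEre (Real.cosh_pos _).le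
  by_contra hcon
  push Not at hcon
  have : Real.cos (Real.pi * S.re / 2) ≤ 0 := by
    apply Real.cos_nonpos_of_pi_div_two_le_of_le
    · nlinarith
    · nlinarith
  linarith

lemma no_real_zero {S : ℂ} (h0 : 0 ≤ S.re) (hy : S.im = 0) : D S ≠ 0 := by
  intro hD
  have e : S = (S.re : ℂ) := by apply Complex.ext <;> simp [hy]
  have hE : E S * K S = Real.pi := by
    unfold D at hD
    linear_combination -hD
  have h1 : ‖E S * K S‖ = Real.pi := by rw [hE]; simp [Real.pi_pos.le]
  rw [norm_mul] at h1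
  have hEn : ‖E S‖ ≤ 1 := by
    rw [e]; unfold E
    rw [show (Real.pi * ((S.re : ℝ) : ℂ) / 2) = ((Real.pi * S.re / 2 : ℝ) : ℂ) by push_cast; ring,
      ← Complex.ofReal_cos, Complex.norm_real]
    exact Real.abs_cos_le_one _
  have hKn : ‖K S‖ ≤ 2 := by
    rw [e, K_real, Complex.norm_real, Real.norm_eq_abs, abs_of_pos (K_real_pos h0)]
    exact K_real_le h0
  have := mul_le_mul hEn hKn (norm_nonneg _) zero_le_one
  have := Real.pi_gt_three
  linarith

/-- bounds for the contraction -/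
lemma sK_sub_one {S : ℂ} (h3 : 3 ≤ S.re) : ‖S * K S - 1‖ ≤ 1 / 9 := by
  have hs : -1 < S.re := by linarith
  have e : S * K S - 1 = L f1 S := by rw [K_step0 hs]; ring
  have e2 : ‖S‖ * ‖L f1 S‖ = ‖L f2 S‖ := by rw [← norm_mul, K_step1 hs]
  have hn : 3 ≤ ‖S‖ := h3.trans ((le_abs_self _).trans (abs_re_le_norm S))
  have i1 : IntegrableOn (fun b : ℝ => Real.exp (-3 * b)) (Ioi 0) := exp_neg_integrableOn_Ioi 0 (by norm_num)
  have hb : ‖L f2 S‖ ≤ ∫ b in Ioi (0:ℝ), Real.exp (-3 * b) := by
    apply norm_L_le i1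
    intro b hb
    have q1 : |f2 b| ≤ 1 := by
      unfold f2
      rw [abs_mul, abs_of_pos (h_pos b)]
      have q2 : |2 * T b ^ 2 - 1| ≤ 1 := by
        rw [abs_le]; constructor <;> nlinarith [T_sq_le b, sq_nonneg (T b)]
      have := h_le_one b
      have := h_pos b
      nlinarith [abs_nonneg (2 * T b ^ 2 - 1)]
    calc Real.exp (-S.re * b) * |f2 b| ≤ Real.exp (-3 * b) * 1 := by
          apply mul_le_mul _ q1 (abs_nonneg _) (Real.exp_pos _).le
          apply Real.exp_le_exp.2; nlinarith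
      _ = _ := by ring
  have hval : ∫ b in Ioi (0:ℝ), Real.exp (-3 * b) = 1 / 3 := by
    have := integral_exp_mul_Ioi (show (-3:ℝ) < 0 by norm_num) 0
    rw [this]; norm_num
  rw [hval] at hb
  rw [e]
  rw [← e2] at hb
  have := norm_nonneg (L f1 S)
  nlinarith

lemma s2g0 {S : ℂ} (h3 : 3 ≤ S.re) : ‖S ^ 2 * L g0 S‖ ≤ 5 / 2 := by
  have hs : -(1/2:ℝ) < S.re := by linarith
  -- g0 = b h, g1 = h - b h T, g2 = -2 h T + b f2
  have d0 : Dec (1/2) g0 := dec_g0 (by norm_num)
  have d1 : Dec (1/2) (fun b => h b + b * f1 b) := (dec_h.mono (by norm_num)).add (dec1.id_mul (by norm_num))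
  have d2 : Dec (1/2) (fun b => (f1 b + f1 b) + b * f2 b) :=
    ((dec1.mono (by norm_num)).add (dec1.mono (by norm_num))).add (dec2.id_mul (by norm_num))
  have s0 := d0.byparts d1 (fun b => by
    have := (hasDerivAt_id b).mul (hd0 b)
    refine this.congr_deriv ?_
    simp) (s := S) (by linarith)
  have s1 := d1.byparts d2 (fun b => by
    have := (hd0 b).add ((hasDerivAt_id b).mul (hd1 b))
    refine this.congr_deriv ?_
    simp; ring) (s := S) (by linarith)
  have g00 : g0 0 = 0 := by simp [g0]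
  simp only [g00, zero_mul, h_zero, add_zero, zero_add, ofReal_zero, ofReal_one] at s0 s1
  have e : S ^ 2 * L g0 S = 1 + L (fun b => (f1 b + f1 b) + b * f2 b) S := by
    linear_combination S * s0 + s1
  rw [e]
  have i1 : IntegrableOn (fun b : ℝ => 3 * Real.exp (-2 * b)) (Ioi 0) :=
    (exp_neg_integrableOn_Ioi 0 (by norm_num)).const_mul 3
  have hb : ‖L (fun b => (f1 b + f1 b) + b * f2 b) S‖ ≤ ∫ b in Ioi (0:ℝ), 3 * Real.exp (-2 * b) := by
    apply norm_L_le i1
    intro b hb
    have hh := h_pos b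
    have hh1 := h_le_one b
    have hT := T_pos hb
    have hT1 := T_le_self hb.le
    have q1 : |f2 b| ≤ 1 := by
      unfold f2
      rw [abs_mul, abs_of_pos (h_pos b)]
      have q2 : |2 * T b ^ 2 - 1| ≤ 1 := by
        rw [abs_le]; constructor <;> nlinarith [T_sq_le b, sq_nonneg (T b)]
      nlinarith [abs_nonneg (2 * T b ^ 2 - 1)]
    have q0 : |f1 b| ≤ b := by
      unfold f1
      rw [abs_mul, abs_of_pos hh, abs_neg, abs_of_pos hT]
      nlinarith
    have q3 : |(f1 b + f1 b) + b * f2 b| ≤ 3 * b := by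
      calc |(f1 b + f1 b) + b * f2 b| ≤ |f1 b + f1 b| + |b * f2 b| := abs_add_le _ _
        _ ≤ (|f1 b| + |f1 b|) + b * |f2 b| := by
            rw [abs_mul, abs_of_pos hb]
            linarith [abs_add_le (f1 b) (f1 b)]
        _ ≤ 3 * b := by nlinarith
    have q4 : b ≤ Real.exp b := by linarith [Real.add_one_le_exp b]
    calc Real.exp (-S.re * b) * |(f1 b + f1 b) + b * f2 b| ≤ Real.exp (-3 * b) * (3 * Real.exp b) := by
          apply mul_le_mul _ (q3.trans (by linarith)) (abs_nonneg _) (Real.exp_pos _).le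
          apply Real.exp_le_exp.2; nlinarith
      _ = 3 * (Real.exp (-3 * b) * Real.exp b) := by ring
      _ = _ := by rw [← Real.exp_add]; congr 2; ring
  have hval : ∫ b in Ioi (0:ℝ), 3 * Real.exp (-2 * b) = 3 / 2 := by
    rw [integral_const_mul]
    have := integral_exp_mul_Ioi (show (-2:ℝ) < 0 by norm_num) 0
    rw [this]; norm_num
  rw [hval] at hb
  calc ‖1 + L (fun b => (f1 b + f1 b) + b * f2 b) S‖ ≤ ‖(1:ℂ)‖ + ‖L (fun b => (f1 b + f1 b) + b * f2 b) S‖ := norm_add_le _ _
    _ ≤ 1 + 3 / 2 := by rw [norm_one]; linarith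
    _ = 5 / 2 := by norm_num

end Pool.Agent.E8helper52.OR
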